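import Pool.Agent.H37.NF.DetDvd

/-! # Branches modulo `p` (paper 3.7): definitions. -/

set_option autoImplicit false

namespace Pool.Agent.H37.NF

open MvPolynomial Pool.H76.NN

variable {σ : Type} [Fintype σ] [DecidableEq σ] {r : ℕ}

/-- power series in `r` variables over `(ZMod p)⟦X⟧` -/
abbrev PP (r p : ℕ) : Type := MvPowerSeries (Fin r) (PowerSeries (ZMod p))

/-- restriction to the slice -/
noncomputable abbrev sl (r p : ℕ) : PP r p →+* PowerSeries (ZMod p) :=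
  MvPowerSeries.constantCoeff

/-- points at which everything is a unit modulo `p` -/
structure GoodPt (S : Sys σ r) (I : Ideal (MvPolynomial σ ℚ)) (p : ℕ) (P : Pt σ) : Prop where
  ne : P.1 ≠ 0
  on : OnV I P
  P0 : ¬ (p : ℤ) ∣ P.1
  O0 : ¬ (p : ℤ) ∣ S.O.1
  E0 : aeval (affp p P) S.E ≠ 0

/-- a branch at a point, modulo `p` -/
structure Branch (S : Sys σ r) (I : Ideal (MvPolynomial σ ℚ)) (p : ℕ) (a : σ → ZMod p)
    (φ : MvPolynomial σ ℤ →+* PP r p) : Prop where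
  pt : ∀ g, PowerSeries.constantCoeff (sl r p (φ g)) = aeval a g
  kill : ∀ g, toQ g ∈ I → φ g = 0
  eta0 : φ S.eta1 = MvPowerSeries.C (PowerSeries.C (aeval a S.eta1) +
    PowerSeries.C (S.O.1 : ZMod p) * PowerSeries.X)
  etas : ∀ j : Fin r, ∃ l : ZMod p, φ (eta S.O (S.y j.succ)) =
    MvPowerSeries.C (PowerSeries.C l) * φ S.eta1 +
      MvPowerSeries.C (PowerSeries.C (S.O.1 : ZMod p)) * MvPowerSeries.X j
  der : ∀ g, sl r p (φ (S.D g)) =
    sl r p (φ (J S.F)) * sl r p (φ S.eta1) *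
      PowerSeries.derivative (ZMod p) (sl r p (φ g))

/-- `psi_j = ∏_(c < p) (eta_j - c eta_1)` -/
noncomputable def psi (S : Sys σ r) (p : ℕ) (j : Fin r) : MvPolynomial σ ℤ :=
  ∏ c ∈ Finset.range p, (eta S.O (S.y j.succ) - C (c : ℤ) * S.eta1)

end Pool.Agent.H37.NF
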