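import Pool.Agent.H37.NF.Defs

/-! MODULE Kill (about 50 lines). An ideal of power series without constant terms, stable under all derivations, is zero (torsion free coefficients).

By induction on the degree of `m`: for all `s ∈ K` the coefficient of `s` at `m` is `0`. `m = 0`: `h0`. Otherwise `m = m' + single t 1`; `coeff m' (pderiv B t s) = coeff m s * (m' t + 1)` (`MvPowerSeries.coeff_pderiv`) is `0` by the induction
hypothesis, so `coeff m s = 0` (torsion free). `kill_one` is the same for `PowerSeries` (`PowerSeries.coeff_derivative`; `PowerSeries B = MvPowerSeries Unit B`, or repeat the proof). -/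

set_option autoImplicit false

namespace Pool.Agent.H37.NF

theorem kill {τ B : Type*} [CommRing B] [IsAddTorsionFree B] (K : Ideal (MvPowerSeries τ B))
    (h0 : ∀ s ∈ K, MvPowerSeries.constantCoeff s = 0)
    (hd : ∀ s ∈ K, ∀ t, MvPowerSeries.pderiv B t s ∈ K) : ∀ s ∈ K, s = 0 := by
  classical
  have key : ∀ n : ℕ, ∀ m : τ →₀ ℕ, m.degree = n → ∀ s ∈ K, MvPowerSeries.coeff m s = 0 := by
    intro n
    induction n with
    | zero =>
      intro m hm s hs
      have hm0 : m = 0 := by
        rwa [Finsupp.degree_eq_zero_iff] at hm
      subst hm0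
      rw [MvPowerSeries.coeff_zero_eq_constantCoeff_apply]
      exact h0 s hs
    | succ n ih =>
      intro m hm s hs
      have hne : m ≠ 0 := by
        rintro rfl
        simp at hm
      obtain ⟨t, ht⟩ := Finsupp.ne_iff.1 hne
      have ht' : 1 ≤ m t := Nat.one_le_iff_ne_zero.2 (by simpa using ht)
      have hle : Finsupp.single t 1 ≤ m := by
        rw [Finsupp.single_le_iff]
        exact ht'
      have hdec : m - Finsupp.single t 1 + Finsupp.single t 1 = m := tsub_add_cancel_of_le hle
      have hdeg : (m - Finsupp.single t 1).degree = n := by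
        have h1 := congrArg Finsupp.degree hdec
        rw [map_add, Finsupp.degree_single] at h1
        omega
      have h2 := ih _ hdeg _ (hd s hs t)
      rw [MvPowerSeries.coeff_pderiv, hdec] at h2
      have h3 : ((m t : ℕ) : ℕ) • MvPowerSeries.coeff m s = 0 := by
        have h4 : (((m - Finsupp.single t 1 : τ →₀ ℕ) t : ℕ) : B) + 1 = ((m t : ℕ) : B) := by
          have h5 : (m - Finsupp.single t 1 : τ →₀ ℕ) t + 1 = m t := by
            simp only [Finsupp.coe_tsub, Pi.sub_apply, Finsupp.single_eq_same]
            omega
          rw [← h5]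
          push_cast
          ring
        rw [nsmul_eq_mul, ← h4, mul_comm]
        exact h2
      exact (nsmul_eq_zero_iff_right (by omega)).1 h3
  intro s hs
  ext m
  rw [map_zero]
  exact key _ m rfl s hs

theorem kill_one {B : Type*} [CommRing B] [IsAddTorsionFree B] (K : Ideal (PowerSeries B))
    (h0 : ∀ s ∈ K, PowerSeries.constantCoeff s = 0)
    (hd : ∀ s ∈ K, PowerSeries.derivative B s ∈ K) : ∀ s ∈ K, s = 0 := by
  have key : ∀ n : ℕ, ∀ s ∈ K, PowerSeries.coeff n s = 0 := by
    intro n
    induction n with
    | zero =>
      intro s hs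
      rw [PowerSeries.coeff_zero_eq_constantCoeff_apply]
      exact h0 s hs
    | succ n ih =>
      intro s hs
      have h2 := ih _ (hd s hs)
      rw [PowerSeries.coeff_derivative] at h2
      have h3 : (n + 1) • PowerSeries.coeff (n + 1) s = 0 := by
        rw [nsmul_eq_mul, mul_comm]
        push_cast
        exact h2
      exact (nsmul_eq_zero_iff_right (by omega)).1 h3
  intro s hs
  ext n
  rw [map_zero]
  exact key n s hs

end Pool.Agent.H37.NF
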