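import Pool.Agent.H37.NF.Chain
import Pool.Agent.H37.NF.Kill

/-! MODULE Curve (about 150 lines). Curves on `V(I)` over a torsion free ring, and their extension to a branch in all directions.

`curve`: apply `Pool.Agent.H34.NA.formal_inverse` with `ρ = Unit` (`PowerSeries B = MvPowerSeries Unit B`), `G i = map (Int.castRingHom B) (S.F i)` (`aeval z g = eval z (map _ g)`), `P = z`, `c i = C (aeval z (S.F i)) + q i` with `q i = C (lam j) * X` if `i = S.e j` (`S.e` injective),
`q i = 0` if `i` is not in the range of `S.e`; `det_jac_eq`, `map_J` for the Jacobian. Third item (Cramer): `chain_cramer` with `F = S.F` (coefficients `ℤ`, algebra `ℤ → PowerSeries B`) and the derivation `PowerSeries.derivative B` restricted to `ℤ`: `D (aeval Φ (S.F i))` is `C (lam j)` for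
`i = S.e j` and `0` otherwise (`∑ i` reduces to `∑ j` by injectivity). Second item: let `K` be the ideal spanned by `aeval Φ g`, `toQ g ∈ I`. Constant coefficients: `constantCoeff (aeval Φ g) = aeval z g = 0`, so `0` on `K`. Stability under the derivative: by the Leibniz rule it is enough for the
generators; `aeval Φ (J S.F)` is a unit (constant coefficient `aeval z (J S.F)`), and `aeval Φ (J S.F) * D (aeval Φ g) = ∑ j, C (lam j) * aeval Φ (dj S.F (S.e j) g)` is in `K` because `toQ (dj S.F (S.e j) g) = dj S.FQ (S.e j) (toQ g) ∈ I` (`map_dj`, `hS.der`). `kill_one` gives `K = 0`.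
`branch`: the same over the base ring `PowerSeries B` (torsion free) with `ρ = Fin r`, base point `Φ` (all `toQ g ∈ I` vanish at `Φ`), `q (S.e j.succ) = X j`, all other `q i = 0`; derivations `MvPowerSeries.pderiv`, `kill`. -/

set_option autoImplicit false

namespace Pool.Agent.H37.NF

open MvPolynomial Pool.H76.NN

variable {σ : Type} [Fintype σ] [DecidableEq σ] {r : ℕ} {S : Sys σ r}
  {I : Ideal (MvPolynomial σ ℚ)} {b0 : ℕ} {B : Type} [CommRing B] [IsAddTorsionFree B]

omit [Fintype σ] [DecidableEq σ] in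
private theorem cur_map_aeval {R R' : Type*} [CommRing R] [CommRing R'] [Algebra ℤ R]
    [Algebra ℤ R'] (φ : R →+* R') (Φ : σ → R)
    (g : MvPolynomial σ ℤ) : φ (aeval Φ g) = aeval (fun l => φ (Φ l)) g := by
  induction g using MvPolynomial.induction_on with
  | C a => simp
  | add p q hp hq => rw [map_add, map_add, map_add, hp, hq]
  | mul_X p i hp => rw [map_mul, map_mul, map_mul, hp, aeval_X, aeval_X]

omit [Fintype σ] [DecidableEq σ] in
private theorem cur_eval_map {R : Type*} [CommRing R] [Algebra ℤ R] (Φ : σ → R)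
    (g : MvPolynomial σ ℤ) : eval Φ (map (Int.castRingHom R) g) = aeval Φ g := by
  induction g using MvPolynomial.induction_on with
  | C a => simp
  | add p q hp hq => rw [map_add, map_add, map_add, hp, hq]
  | mul_X p i hp => rw [map_mul, map_mul, map_mul, hp, map_X, eval_X, aeval_X]

private theorem cur_cramer {R : Type*} [CommRing R] [iR : Algebra ℤ R] (D : R → R)
    (ha : ∀ x y, D (x + y) = D x + D y) (hl : ∀ x y, D (x * y) = x * D y + y * D x)
    (F : σ → MvPolynomial σ ℤ) (Φ : σ → R) (g : MvPolynomial σ ℤ) :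
    aeval Φ (J F) * D (aeval Φ g) = ∑ i, D (aeval Φ (F i)) * aeval Φ (dj F i g) := by
  obtain rfl : iR = Ring.toIntAlgebra R := Subsingleton.elim _ _
  let D' : Derivation ℤ R R :=
    Derivation.mk' (AddMonoidHom.toIntLinearMap (AddMonoidHom.mk' D ha)) hl
  exact chain_cramer D' F Φ g

/-- the ideal of the values of the polynomials of `I` -/
private noncomputable def curK {R : Type*} [CommRing R] [Algebra ℤ R] (I : Ideal (MvPolynomial σ ℚ))
    (Φ : σ → R) : Ideal R :=
  Ideal.span {s | ∃ g : MvPolynomial σ ℤ, toQ g ∈ I ∧ aeval Φ g = s}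

private theorem curK_stable (hS : S.Good I b0) {R : Type*} [CommRing R] [Algebra ℤ R]
    (D : R → R) (ha : ∀ x y, D (x + y) = D x + D y) (hl : ∀ x y, D (x * y) = x * D y + y * D x)
    (Φ : σ → R) (h0 : ∀ i, i ∉ Set.range S.e → aeval Φ (S.F i) = 0)
    (hJ : IsUnit (aeval Φ (J S.F))) : ∀ s ∈ curK I Φ, D s ∈ curK I Φ := by
  intro s hs
  have hD0 : D 0 = 0 := by
    have h := ha 0 0
    rw [add_zero] at h
    exact left_eq_add.1 h
  unfold curK at hs
  induction hs using Submodule.span_induction with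
  | mem x hx =>
    obtain ⟨g, hg, rfl⟩ := hx
    have h1 := cur_cramer D ha hl S.F Φ g
    have h2 : aeval Φ (J S.F) * D (aeval Φ g) ∈ curK I Φ := by
      rw [h1]
      refine Ideal.sum_mem _ fun i _ => ?_
      by_cases hi : i ∈ Set.range S.e
      · obtain ⟨j, rfl⟩ := hi
        refine Ideal.mul_mem_left _ _ (Ideal.subset_span ⟨_, ?_, rfl⟩)
        have h3 : toQ (dj S.F (S.e j) g) = dj S.FQ (S.e j) (toQ g) :=
          map_dj (Int.castRingHom ℚ) S.F (S.e j) g
        rw [h3]
        exact hS.der j _ hg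
      · rw [h0 i hi, hD0, zero_mul]
        exact Ideal.zero_mem _
    exact (Ideal.unit_mul_mem_iff_mem _ hJ).1 h2
  | zero => rw [hD0]; exact Ideal.zero_mem _
  | add x y _ _ hx hy => rw [ha]; exact Ideal.add_mem _ hx hy
  | smul a x hx' hx =>
    rw [smul_eq_mul, hl]
    exact Ideal.add_mem _ (Ideal.mul_mem_left _ _ hx) (Ideal.mul_mem_right _ _ hx')

private theorem cur_lift (hS : S.Good I b0) {A : Type*} [CommRing A] [Algebra ℤ A]
    [IsAddTorsionFree A]
    {ρ : Type*} [Finite ρ] (P : σ → A)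
    (hP : ∀ g : MvPolynomial σ ℤ, toQ g ∈ I → aeval P g = 0) (hJ : IsUnit (aeval P (J S.F)))
    (q : Fin (r + 1) → MvPowerSeries ρ A) (hq : ∀ j, MvPowerSeries.constantCoeff (q j) = 0) :
    ∃ Φ : σ → MvPowerSeries ρ A, (∀ l, MvPowerSeries.constantCoeff (Φ l) = P l) ∧
      (∀ g : MvPolynomial σ ℤ, toQ g ∈ I → aeval Φ g = 0) ∧
      (∀ i, i ∉ Set.range S.e → aeval Φ (S.F i) = 0) ∧
      ∀ j, aeval Φ (S.F (S.e j)) = MvPowerSeries.C (aeval P (S.F (S.e j))) + q j := by
  classical
  have hinj := hS.inj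
  obtain ⟨Φ, ⟨hΦ0, hΦ⟩, -⟩ := Pool.Agent.H34.NA.formal_inverse
    (fun i => map (Int.castRingHom A) (S.F i)) P
    (fun i => MvPowerSeries.C (aeval P (S.F i)) + ∑ j, if S.e j = i then q j else 0)
    (by
      intro i
      rw [map_add, map_sum, MvPowerSeries.constantCoeff_C, cur_eval_map]
      rw [Finset.sum_eq_zero, add_zero]
      intro j _
      split_ifs
      · exact hq j
      · exact map_zero _)
    (by
      rw [det_jac_eq, ← map_J, cur_eval_map]
      exact hJ)
  have hΦ' : ∀ i, aeval Φ (S.F i) = MvPowerSeries.C (aeval P (S.F i)) +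
      ∑ j, if S.e j = i then q j else 0 := by
    intro i
    rw [← hΦ i]
    have h1 : ∀ g : MvPolynomial σ ℤ, aeval Φ g = aeval Φ (map (Int.castRingHom A) g) := by
      intro g
      induction g using MvPolynomial.induction_on with
      | C a => simp
      | add p q hp hq => rw [map_add, map_add, map_add, hp, hq]
      | mul_X p i hp => rw [map_mul, map_mul, map_mul, hp, map_X, aeval_X, aeval_X]
    exact h1 _
  have h0 : ∀ i, i ∉ Set.range S.e → aeval Φ (S.F i) = 0 := by
    intro i hi
    rw [hΦ' i, hP _ (hS.eqs i hi), map_zero, zero_add]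
    refine Finset.sum_eq_zero fun j _ => ?_
    rw [if_neg]
    rintro rfl
    exact hi ⟨j, rfl⟩
  have hJ' : IsUnit (aeval Φ (J S.F)) := by
    rw [MvPowerSeries.isUnit_iff_constantCoeff, cur_map_aeval]
    simp only [hΦ0]
    exact hJ
  have hkill := kill (curK I Φ) (by
      have h1 : curK I Φ ≤ RingHom.ker (MvPowerSeries.constantCoeff (σ := ρ) (R := A)) := by
        unfold curK
        rw [Ideal.span_le]
        rintro _ ⟨g, hg, rfl⟩
        show MvPowerSeries.constantCoeff (aeval Φ g) = 0
        rw [cur_map_aeval]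
        simp only [hΦ0]
        exact hP g hg
      exact h1)
    (fun s hs t => curK_stable hS (MvPowerSeries.pderiv A t) (map_add _)
      (fun x y => Derivation.leibniz _ x y) Φ h0 hJ' s hs)
  refine ⟨Φ, hΦ0, fun g hg => hkill _ (Ideal.subset_span ⟨g, hg, rfl⟩), h0, fun j => ?_⟩
  rw [hΦ' (S.e j), Finset.sum_eq_single j, if_pos rfl]
  · intro k _ hk
    rw [if_neg]
    intro h
    exact hk (hinj h)
  · intro h
    exact absurd (Finset.mem_univ j) h

theorem curve (hS : S.Good I b0) (z : σ → B)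
    (hz : ∀ g : MvPolynomial σ ℤ, toQ g ∈ I → aeval z g = 0) (hJ : IsUnit (aeval z (J S.F)))
    (lam : Fin (r + 1) → B) :
    ∃ Φ : σ → PowerSeries B, (∀ l, PowerSeries.constantCoeff (Φ l) = z l) ∧
      (∀ g : MvPolynomial σ ℤ, toQ g ∈ I → aeval Φ g = 0) ∧
      (∀ g : MvPolynomial σ ℤ, aeval Φ (J S.F) * PowerSeries.derivative B (aeval Φ g) =
        ∑ j, PowerSeries.C (lam j) * aeval Φ (dj S.F (S.e j) g)) ∧
      ∀ j, aeval Φ (lf (S.y j) : MvPolynomial σ ℤ) =
        PowerSeries.C (aeval z (lf (S.y j) : MvPolynomial σ ℤ)) +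
          PowerSeries.C (lam j) * PowerSeries.X := by
  obtain ⟨Φ, h1, h2, h3, h4⟩ := cur_lift hS (ρ := Unit) z hz hJ
    (fun j => (PowerSeries.C (lam j) * PowerSeries.X : PowerSeries B)) (fun j => by
      show PowerSeries.constantCoeff (PowerSeries.C (lam j) * PowerSeries.X) = 0
      simp)
  refine ⟨Φ, h1, h2, fun g => ?_, fun j => ?_⟩
  · have h5 := cur_cramer (R := PowerSeries B) (PowerSeries.derivative B) (map_add _)
      (fun x y => Derivation.leibniz _ x y) S.F Φ g
    refine h5.trans ?_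
    symm
    refine Fintype.sum_of_injective S.e hS.inj _ _ ?_ ?_
    · intro i hi
      have h7 : PowerSeries.derivative B (aeval Φ (S.F i)) = 0 :=
        (congrArg (PowerSeries.derivative B) (h3 i hi)).trans (map_zero _)
      rw [h7, zero_mul]
    · intro j
      have h8 : PowerSeries.derivative B (aeval Φ (S.F (S.e j))) = PowerSeries.C (lam j) := by
        refine (congrArg (PowerSeries.derivative B) (h4 j)).trans ?_
        have h9 : PowerSeries.derivative B (PowerSeries.C (aeval z (S.F (S.e j))) +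
            PowerSeries.C (lam j) * PowerSeries.X) = PowerSeries.C (lam j) := by
          rw [map_add, PowerSeries.derivative_C, zero_add, Derivation.leibniz,
            PowerSeries.derivative_C, smul_zero, add_zero, PowerSeries.derivative_X,
            smul_eq_mul, mul_one]
        exact h9
      rw [h8]
  · rw [← hS.form j]
    exact h4 j

theorem branch (hS : S.Good I b0) (Φ : σ → PowerSeries B)
    (hΦ : ∀ g : MvPolynomial σ ℤ, toQ g ∈ I → aeval Φ g = 0)
    (hJ : IsUnit (aeval Φ (J S.F))) :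
    ∃ Ψ : σ → MvPowerSeries (Fin r) (PowerSeries B),
      (∀ l, MvPowerSeries.constantCoeff (Ψ l) = Φ l) ∧
      (∀ g : MvPolynomial σ ℤ, toQ g ∈ I → aeval Ψ g = 0) ∧
      aeval Ψ (lf (S.y 0) : MvPolynomial σ ℤ) =
        MvPowerSeries.C (aeval Φ (lf (S.y 0) : MvPolynomial σ ℤ)) ∧
      ∀ j : Fin r, aeval Ψ (lf (S.y j.succ) : MvPolynomial σ ℤ) =
        MvPowerSeries.C (aeval Φ (lf (S.y j.succ) : MvPolynomial σ ℤ)) +
          MvPowerSeries.X j := by
  have : IsAddTorsionFree (PowerSeries B) := inferInstanceAs (IsAddTorsionFree ((Unit →₀ ℕ) → B))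
  obtain ⟨Ψ, h1, h2, h3, h4⟩ := cur_lift hS (ρ := Fin r) Φ hΦ hJ
    (fun j => Fin.cases 0 (fun k => MvPowerSeries.X k) j) (fun j => by
      refine Fin.cases ?_ (fun k => ?_) j
      · exact map_zero _
      · exact MvPowerSeries.constantCoeff_X k)
  refine ⟨Ψ, h1, h2, ?_, fun j => ?_⟩
  · have h5 := h4 0
    rw [hS.form 0] at h5
    rw [h5]
    simp
  · have h5 := h4 j.succ
    rw [hS.form j.succ] at h5
    exact h5

end Pool.Agent.H37.NF
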