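import Pool.Agent.H37.NF.BrDefs
import Pool.Agent.H37.NF.Curve

/-! MODULE BrEx. Paper 3.7: existence of the branch at a good point.

`B = ℤ_[p]`; `u` is the inverse of the unit `P.1`, `z l = (P.2 l) * u`, and
`lam j = aeval z (eta_j) * (aeval z eta_0)⁻¹`. `curve` gives `Φ`, `branch` gives `Ψ`; everything is
reduced modulo `p`. -/

set_option autoImplicit false

namespace Pool.Agent.H37.NF

open MvPolynomial Pool.H76.NN

lemma map_aeval_int {τ A C : Type*} [CommRing A] [CommRing C] [Algebra ℤ A] [Algebra ℤ C]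
    (ρ : A →+* C) (z : τ → A) (g : MvPolynomial τ ℤ) :
    ρ (aeval z g) = aeval (fun l => ρ (z l)) g := by
  rw [MvPolynomial.map_aeval, aeval_def]
  have : ρ.comp (algebraMap ℤ A) = algebraMap ℤ C := Subsingleton.elim _ _
  rw [this]
  rfl

lemma aeval_eta {σ : Type} [Fintype σ] {A : Type*} [CommRing A] [Algebra ℤ A] (O : Pt σ)
    (y : σ → ℤ) (z : σ → A) :
    aeval z (eta O y) = (O.1 : A) * aeval z (lf y : MvPolynomial σ ℤ) - (lval y O : A) := by
  have h : ∀ n : ℤ, (algebraMap ℤ A) n = (n : A) := fun n => eq_intCast _ n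
  rw [eta, map_sub, map_mul, aeval_C, aeval_C, h, h]

lemma map_derivative {A C : Type*} [CommRing A] [CommRing C] (ρ : A →+* C) (f : PowerSeries A) :
    PowerSeries.map ρ (PowerSeries.derivative A f) =
      PowerSeries.derivative C (PowerSeries.map ρ f) := by
  ext n
  rw [PowerSeries.coeff_map, PowerSeries.coeff_derivative, PowerSeries.coeff_derivative,
    PowerSeries.coeff_map, map_mul, map_add, map_natCast, map_one]

lemma padic_unit {p : ℕ} [Fact p.Prime] {a : ℤ} (h : ¬ (p : ℤ) ∣ a) :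
    IsUnit ((a : ℤ) : ℤ_[p]) := by
  rw [PadicInt.isUnit_iff]
  by_contra hne
  have h1 : ‖((a : ℤ) : ℤ_[p])‖ < 1 := lt_of_le_of_ne (PadicInt.norm_le_one _) hne
  exact h ((PadicInt.norm_int_lt_one_iff_dvd a).mp h1)

lemma padic_unit_of_toZMod {p : ℕ} [Fact p.Prime] {x : ℤ_[p]}
    (h : PadicInt.toZMod x ≠ 0) : IsUnit x := by
  by_contra hne
  apply h
  have h1 : x ∈ IsLocalRing.maximalIdeal ℤ_[p] := hne
  rw [← PadicInt.ker_toZMod, RingHom.mem_ker] at h1
  exact h1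

variable {σ : Type} [Fintype σ] [DecidableEq σ] {r : ℕ} {S : Sys σ r}
  {I : Ideal (MvPolynomial σ ℚ)} {b0 : ℕ}

theorem exists_branch (hS : S.Good I b0) {p : ℕ} [Fact p.Prime] {P : Pt σ}
    (hP : GoodPt S I p P) : ∃ φ, Branch S I p (affp p P) φ := by
  obtain ⟨u', hu'⟩ := padic_unit (p := p) hP.P0
  let u : ℤ_[p] := ((u'⁻¹ : ℤ_[p]ˣ) : ℤ_[p])
  have hu : u * ((P.1 : ℤ) : ℤ_[p]) = 1 := by
    rw [← hu']
    exact Units.inv_mul u'
  let z : σ → ℤ_[p] := fun l => ((P.2 l : ℤ) : ℤ_[p]) * u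
  let ρ : ℤ_[p] →+* ZMod p := PadicInt.toZMod
  have hρu : ρ u = ((P.1 : ℤ) : ZMod p)⁻¹ := by
    apply eq_inv_of_mul_eq_one_left
    rw [← map_intCast ρ, ← map_mul, hu, map_one]
  have hρz : (fun l => ρ (z l)) = affp p P := by
    funext l
    change ρ (((P.2 l : ℤ) : ℤ_[p]) * u) = _
    rw [map_mul, map_intCast, hρu]
    rfl
  have hρ : ∀ g : MvPolynomial σ ℤ, ρ (aeval z g) = aeval (affp p P) g := by
    intro g
    rw [map_aeval_int, hρz]
  have hE : aeval (affp p P) (J S.F) * aeval (affp p P) S.om * aeval (affp p P) S.eta1 ≠ 0 := by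
    have h1 := hP.E0
    have h2 : S.E = J S.F * S.om * S.eta1 := rfl
    rw [h2, map_mul, map_mul] at h1
    exact h1
  have hJz : IsUnit (aeval z (J S.F)) := by
    apply padic_unit_of_toZMod
    have h1 := hρ (J S.F)
    change ρ _ ≠ 0
    rw [h1]
    intro h0
    rw [h0, zero_mul, zero_mul] at hE
    exact hE rfl
  have hez : IsUnit (aeval z S.eta1) := by
    apply padic_unit_of_toZMod
    have h1 := hρ S.eta1
    change ρ _ ≠ 0
    rw [h1]
    intro h0
    rw [h0, mul_zero] at hE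
    exact hE rfl
  obtain ⟨v', hv'⟩ := hez
  let v : ℤ_[p] := ((v'⁻¹ : ℤ_[p]ˣ) : ℤ_[p])
  have hv : v * aeval z S.eta1 = 1 := by
    rw [← hv']
    exact Units.inv_mul v'
  obtain ⟨lam, hlam, hlam0⟩ : ∃ lam : Fin (r + 1) → ℤ_[p],
      (∀ j, aeval z (eta S.O (S.y j)) = lam j * aeval z S.eta1) ∧ lam 0 = 1 := by
    refine ⟨fun j => aeval z (eta S.O (S.y j)) * v, ?_, ?_⟩
    · intro j
      change _ = aeval z (eta S.O (S.y j)) * v * aeval z S.eta1
      rw [mul_assoc, hv, mul_one]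
    · change aeval z S.eta1 * v = 1
      rw [mul_comm]
      exact hv
  have hzI : ∀ g : MvPolynomial σ ℤ, toQ g ∈ I → aeval z g = 0 := fun g hg =>
    aeval_eq_zero_of_onV hP.on hP.ne u hu g hg
  obtain ⟨Φ, hΦ0, hΦI, hΦD, hΦy⟩ := curve hS z hzI hJz lam
  have hccΦ : ∀ g : MvPolynomial σ ℤ, PowerSeries.constantCoeff (aeval Φ g) = aeval z g := by
    intro g
    rw [map_aeval_int]
    congr 1
    congr 1
    funext l
    exact hΦ0 l
  have hJΦ : IsUnit (aeval Φ (J S.F)) := by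
    rw [PowerSeries.isUnit_iff_constantCoeff, hccΦ]
    exact hJz
  obtain ⟨Ψ, hΨ0, hΨI, hΨy0, hΨy⟩ := branch hS Φ hΦI hJΦ
  -- the values of `eta_j` on the curve
  have hcast : ∀ n : ℤ, ((n : ℤ) : PowerSeries ℤ_[p]) = PowerSeries.C ((n : ℤ) : ℤ_[p]) :=
    fun n => (map_intCast _ n).symm
  have hcast2 : ∀ n : ℤ, ((n : ℤ) : MvPowerSeries (Fin r) (PowerSeries ℤ_[p])) =
      MvPowerSeries.C ((n : ℤ) : PowerSeries ℤ_[p]) :=
    fun n => (map_intCast _ n).symm
  have hη : ∀ j, aeval Φ (eta S.O (S.y j)) =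
      PowerSeries.C (lam j) * (PowerSeries.C (aeval z S.eta1) +
        PowerSeries.C ((S.O.1 : ℤ) : ℤ_[p]) * PowerSeries.X) := by
    intro j
    have h1 := hlam j
    rw [aeval_eta] at h1
    rw [aeval_eta, hΦy, hcast, hcast]
    have h2 : (PowerSeries.C (lam j) : PowerSeries ℤ_[p]) * PowerSeries.C (aeval z S.eta1) =
        PowerSeries.C ((S.O.1 : ℤ) : ℤ_[p]) *
          PowerSeries.C (aeval z (lf (S.y j) : MvPolynomial σ ℤ)) -
          PowerSeries.C ((lval (S.y j) S.O : ℤ) : ℤ_[p]) := by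
      rw [← map_mul, ← h1, map_sub, map_mul]
    rw [mul_add, mul_add, h2]
    ring
  have hη1 : aeval Φ S.eta1 = PowerSeries.C (aeval z S.eta1) +
        PowerSeries.C ((S.O.1 : ℤ) : ℤ_[p]) * PowerSeries.X := by
    have := hη 0
    rw [hlam0, map_one, one_mul] at this
    exact this
  have hηm : ∀ j, aeval Φ (eta S.O (S.y j)) = PowerSeries.C (lam j) * aeval Φ S.eta1 := by
    intro j
    rw [hη j, hη1]
  have hΨ1 : aeval Ψ S.eta1 = MvPowerSeries.C (aeval Φ S.eta1) := by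
    change aeval Ψ (eta S.O (S.y 0)) = MvPowerSeries.C (aeval Φ (eta S.O (S.y 0)))
    rw [aeval_eta, aeval_eta, hΨy0, map_sub, map_mul, hcast2, hcast2]
  have hΨj : ∀ j : Fin r, aeval Ψ (eta S.O (S.y j.succ)) =
      MvPowerSeries.C (PowerSeries.C (lam j.succ)) * aeval Ψ S.eta1 +
        MvPowerSeries.C (PowerSeries.C ((S.O.1 : ℤ) : ℤ_[p])) * MvPowerSeries.X j := by
    intro j
    have h1 : (MvPowerSeries.C (PowerSeries.C (lam j.succ)) :
        MvPowerSeries (Fin r) (PowerSeries ℤ_[p])) * aeval Ψ S.eta1 =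
        MvPowerSeries.C (aeval Φ (eta S.O (S.y j.succ))) := by
      rw [hΨ1, hηm, map_mul]
    rw [h1, aeval_eta, aeval_eta, hΨy, map_sub, map_mul, ← hcast, hcast2, hcast2]
    ring
  let f : PowerSeries ℤ_[p] →+* PowerSeries (ZMod p) := PowerSeries.map ρ
  let φ : MvPolynomial σ ℤ →+* PP r p :=
    (MvPowerSeries.map f).comp (aeval Ψ : MvPolynomial σ ℤ →ₐ[ℤ] _).toRingHom
  have hφ : ∀ g, φ g = MvPowerSeries.map f (aeval Ψ g) := fun g => rfl
  have hsl : ∀ g, sl r p (φ g) = f (aeval Φ g) := by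
    intro g
    rw [hφ]
    change MvPowerSeries.constantCoeff _ = _
    rw [MvPowerSeries.constantCoeff_map]
    congr 1
    rw [map_aeval_int]
    congr 1
    congr 1
    funext l
    exact hΨ0 l
  have hf1 : f (aeval Φ S.eta1) = PowerSeries.C (aeval (affp p P) S.eta1) +
      PowerSeries.C ((S.O.1 : ℤ) : ZMod p) * PowerSeries.X := by
    change PowerSeries.map ρ _ = _
    rw [hη1, map_add, map_mul, PowerSeries.map_C, PowerSeries.map_C, PowerSeries.map_X,
      map_intCast, hρ]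
  have hφ1 : φ S.eta1 = MvPowerSeries.C (f (aeval Φ S.eta1)) := by
    rw [hφ, hΨ1, MvPowerSeries.map_C]
  refine ⟨φ, ?_, ?_, ?_, ?_, ?_⟩
  · intro g
    rw [hsl, ← hρ, ← hccΦ]
    change PowerSeries.constantCoeff (PowerSeries.map ρ _) = _
    rw [← PowerSeries.coeff_zero_eq_constantCoeff_apply, PowerSeries.coeff_map,
      PowerSeries.coeff_zero_eq_constantCoeff_apply]
  · intro g hg
    rw [hφ, hΨI g hg, map_zero]
  · rw [hφ1, hf1]
  · intro j
    refine ⟨ρ (lam j.succ), ?_⟩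
    have hC1 : f (PowerSeries.C (lam j.succ)) = PowerSeries.C (ρ (lam j.succ)) :=
      PowerSeries.map_C _ _
    have hC2 : f (PowerSeries.C ((S.O.1 : ℤ) : ℤ_[p])) =
        PowerSeries.C ((S.O.1 : ℤ) : ZMod p) := by
      have h3 : f (PowerSeries.C ((S.O.1 : ℤ) : ℤ_[p])) =
          PowerSeries.C (ρ ((S.O.1 : ℤ) : ℤ_[p])) := PowerSeries.map_C _ _
      rw [h3, map_intCast]
    rw [hφ, hΨj, map_add, map_mul, map_mul, MvPowerSeries.map_C, MvPowerSeries.map_C,
      MvPowerSeries.map_X, hC1, hC2, ← hφ S.eta1]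
  · intro g
    rw [hsl, hsl, hsl, hsl]
    have h1 : aeval Φ (S.D g) = aeval Φ (J S.F) * aeval Φ S.eta1 *
        PowerSeries.derivative ℤ_[p] (aeval Φ g) := by
      rw [S.D_apply, map_sum]
      have h2 : ∀ j, aeval Φ (eta S.O (S.y j) * dj S.F (S.e j) g) =
          aeval Φ S.eta1 * (PowerSeries.C (lam j) * aeval Φ (dj S.F (S.e j) g)) := by
        intro j
        rw [map_mul, hηm]
        ring
      rw [Finset.sum_congr rfl (fun j _ => h2 j), ← Finset.mul_sum, ← hΦD]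
      ring
    rw [h1, map_mul, map_mul]
    congr 1
    exact map_derivative ρ _

end Pool.Agent.H37.NF
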