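import Pool.Agent.H37.NF.Defs

/-! MODULE Chain (about 90 lines). Chain rule and Cramer's rule for derivations.

`chain_rule`: induction on `g` (`MvPolynomial.induction_on`), Leibniz rule. `chain_cramer`: let `A` be the matrix `aeval Φ (JM F i l)`, `w l = D (Φ l)`. By the chain rule
`(A w) i = D (aeval Φ (F i))`. The right side is `∑ i, (A w) i * ∑ l, adj l i * dg l = ∑ l, dg l * (adj A w) l = ∑ l, dg l * det A * w l` (`Matrix.adjugate_mul`), which is `det A * D (aeval Φ g)`.
`aeval` commutes with `det` and `adjugate` (`RingHom.map_det`, `RingHom.map_adjugate`; use `dj_apply`). `map_J`, `map_dj`: `MvPolynomial.map φ` commutes with `pderiv` (`MvPolynomial.pderiv_map`), `det`, `adjugate`.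
`J_mem_of`... not needed. -/

set_option autoImplicit false

namespace Pool.Agent.H37.NF

open MvPolynomial

variable {σ B : Type*} [Fintype σ] [CommRing B]

theorem chain_rule {R : Type*} [CommRing R] [Algebra B R] (D : Derivation B R R) (Φ : σ → R)
    (g : MvPolynomial σ B) : D (aeval Φ g) = ∑ l, aeval Φ (pderiv l g) * D (Φ l) := by
  classical
  induction g using MvPolynomial.induction_on with
  | C a => simp
  | add p q hp hq =>
    simp only [map_add, hp, hq, add_mul, Finset.sum_add_distrib]
  | mul_X p i hp =>
    have h2 : ∀ l, aeval Φ (pderiv l (p * X i)) * D (Φ l)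
        = (if l = i then aeval Φ p * D (Φ l) else 0) + Φ i * (aeval Φ (pderiv l p) * D (Φ l)) := by
      intro l
      rw [Derivation.leibniz, smul_eq_mul, smul_eq_mul, map_add, map_mul, map_mul, aeval_X]
      by_cases hl : l = i
      · subst hl
        simp only [pderiv_X_self, map_one, if_true]
        ring
      · rw [pderiv_X_of_ne (Ne.symm hl), if_neg hl]
        simp only [map_zero]
        ring
    rw [Finset.sum_congr rfl fun l _ => h2 l, Finset.sum_add_distrib, ← Finset.mul_sum, ← hp,
      Finset.sum_ite_eq' Finset.univ i, if_pos (Finset.mem_univ i), map_mul, aeval_X,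
      Derivation.leibniz, smul_eq_mul, smul_eq_mul]

variable [DecidableEq σ]

theorem chain_cramer {R : Type*} [CommRing R] [Algebra B R] (D : Derivation B R R)
    (F : σ → MvPolynomial σ B) (Φ : σ → R) (g : MvPolynomial σ B) :
    aeval Φ (J F) * D (aeval Φ g) = ∑ i, D (aeval Φ (F i)) * aeval Φ (dj F i g) := by
  have hadj : ∀ l m, ∑ i, aeval Φ ((JM F).adjugate l i) * aeval Φ (pderiv m (F i))
      = if l = m then aeval Φ (J F) else 0 := by
    intro l m
    have h := congrFun (congrFun (Matrix.adjugate_mul (JM F)) l) m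
    rw [Matrix.mul_apply] at h
    have h2 := congrArg (aeval Φ) h
    rw [map_sum] at h2
    simp only [map_mul, JM_apply] at h2
    rw [h2, Matrix.smul_apply, Matrix.one_apply]
    by_cases hlm : l = m
    · simp [hlm, J]
    · simp [hlm]
  calc aeval Φ (J F) * D (aeval Φ g)
      = ∑ l, aeval Φ (pderiv l g) * (∑ m, (if l = m then aeval Φ (J F) else 0) * D (Φ m)) := by
        rw [chain_rule, Finset.mul_sum]
        refine Finset.sum_congr rfl fun l _ => ?_
        simp only [ite_mul, zero_mul, Finset.sum_ite_eq, Finset.mem_univ, if_true]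
        ring
    _ = ∑ l, aeval Φ (pderiv l g) * (∑ m, (∑ i, aeval Φ ((JM F).adjugate l i)
          * aeval Φ (pderiv m (F i))) * D (Φ m)) := by
        simp only [hadj]
    _ = ∑ i, D (aeval Φ (F i)) * aeval Φ (dj F i g) := by
        have hL : ∀ l, aeval Φ (pderiv l g) * (∑ m, (∑ i, aeval Φ ((JM F).adjugate l i)
            * aeval Φ (pderiv m (F i))) * D (Φ m))
            = ∑ i, D (aeval Φ (F i)) * (aeval Φ ((JM F).adjugate l i) * aeval Φ (pderiv l g)) := by
          intro l
          simp only [chain_rule D Φ (F _), Finset.sum_mul, Finset.mul_sum]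
          rw [Finset.sum_comm]
          refine Finset.sum_congr rfl fun i _ => Finset.sum_congr rfl fun m _ => ?_
          ring
        rw [Finset.sum_congr rfl fun l _ => hL l, Finset.sum_comm]
        refine Finset.sum_congr rfl fun i _ => ?_
        rw [dj_apply, map_sum, Finset.mul_sum]
        refine Finset.sum_congr rfl fun l _ => ?_
        rw [map_mul]

theorem map_J {B' : Type*} [CommRing B'] (φ : B →+* B') (F : σ → MvPolynomial σ B) :
    map φ (J F) = J fun i => map φ (F i) := by
  rw [J, J, RingHom.map_det]
  congr 1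
  ext1 i l
  rw [RingHom.mapMatrix_apply, Matrix.map_apply, JM_apply, JM_apply, pderiv_map]

theorem map_JM {B' : Type*} [CommRing B'] (φ : B →+* B') (F : σ → MvPolynomial σ B) :
    (map φ).mapMatrix (JM F) = JM fun i => map φ (F i) := by
  ext1 i l
  rw [RingHom.mapMatrix_apply, Matrix.map_apply, JM_apply, JM_apply, pderiv_map]

theorem map_dj {B' : Type*} [CommRing B'] (φ : B →+* B') (F : σ → MvPolynomial σ B) (i : σ)
    (g : MvPolynomial σ B) : map φ (dj F i g) = dj (fun i => map φ (F i)) i (map φ g) := by
  rw [dj_apply, dj_apply, map_sum]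
  refine Finset.sum_congr rfl fun l _ => ?_
  rw [map_mul, pderiv_map, ← map_JM, ← RingHom.map_adjugate, RingHom.mapMatrix_apply,
    Matrix.map_apply]

/-- helper34's Jacobian matrix at a point -/
theorem det_jac_eq (F : σ → MvPolynomial σ B) (P : σ → B) :
    (Pool.Agent.H34.NA.jac F P).det = eval P (J F) := by
  rw [J, RingHom.map_det]
  congr 1

end Pool.Agent.H37.NF
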