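import Pool.Agent.H37.NF.BrDefs

/-! MODULE ExW (about 130 lines). Chinese remainder theorem for the slices (paper 3.7 (3)), explicit.

Let `ψ_κ g = ψ κ g`. For `κ ∈ K` let `e_κ = ∏_(κ' ∈ K \ {κ}) (X l - C c)` with `l = l(κ,κ')` an index where `κ l ≠ κ' l` and `c : ℕ` (or `ℤ`) a lift of `κ' l` (`ZMod.val`, `ZMod.natCast_zmod_val`): the constant coefficient of `ψ_κ e_κ` is `aeval κ e_κ ≠ 0`, that of `ψ_κ' e_κ` is `0`, so `X^M ∣ ψ_κ' (e_κ ^ M)` for `κ' ≠ κ`,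
`κ' ∈ K`. Let `t_κ = t - C c` with `c` a lift of the constant coefficient of `ψ_κ t` (`t` the given polynomial with `ψ_κ t = C a + C u * X`, `u ≠ 0`): `ψ_κ t_κ = C u * X`. `Wp κ i = e_κ ^ M * t_κ ^ i`. Let `X^M ∣ ψ_κ (∑_κ' ∑_i C (x κ' i) * Wp κ' i)`; modulo `X^M` only `κ' = κ` remains:
`X^M ∣ (ψ_κ e_κ)^M * ∑_(i<M) C (x κ i * u^i) * X^i`; the first factor is a unit, so `X^M` divides the polynomial `∑_(i<M) (x κ i : ZMod p) u^i X^i`: all coefficients are `0` (coefficient at `i < M`), so `(x κ i : ZMod p) = 0`, `p ∣ x κ i`. -/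

set_option autoImplicit false

namespace Pool.Agent.H37.NF

open MvPolynomial

private theorem exw_lin {σ : Type} {p : ℕ} [Fact p.Prime] (κ κ' : σ → ZMod p) :
    ∃ L : MvPolynomial σ ℤ, κ ≠ κ' → aeval κ L ≠ (0 : ZMod p) ∧ aeval κ' L = (0 : ZMod p) := by
  by_cases h : ∃ l, κ l ≠ κ' l
  · obtain ⟨l, hl⟩ := h
    refine ⟨X l - C (((κ' l).val : ℕ) : ℤ), fun _ => ?_⟩
    have h1 : ((((κ' l).val : ℕ) : ℤ) : ZMod p) = κ' l := by
      rw [Int.cast_natCast, ZMod.natCast_zmod_val]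
    constructor
    · rw [map_sub, aeval_X, aeval_C, eq_intCast, h1]
      exact sub_ne_zero.2 hl
    · rw [map_sub, aeval_X, aeval_C, eq_intCast, h1, sub_self]
  · refine ⟨1, fun hne => ?_⟩
    exfalso
    apply h
    by_contra hcon
    push Not at hcon
    exact hne (funext hcon)

theorem exists_W {σ : Type} [Fintype σ] [DecidableEq σ] {p : ℕ} [Fact p.Prime]
    (K : Finset (σ → ZMod p)) (ψ : (σ → ZMod p) → MvPolynomial σ ℤ →+* PowerSeries (ZMod p))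
    (hψ : ∀ κ ∈ K, ∀ g, PowerSeries.constantCoeff (ψ κ g) = aeval κ g)
    (t : MvPolynomial σ ℤ)
    (ht : ∀ κ ∈ K, ∃ a u : ZMod p, u ≠ 0 ∧
      ψ κ t = PowerSeries.C a + PowerSeries.C u * PowerSeries.X) (M : ℕ) :
    ∃ Wp : (σ → ZMod p) → Fin M → MvPolynomial σ ℤ, ∀ κ ∈ K,
      ∀ x : (σ → ZMod p) → Fin M → ℤ,
        PowerSeries.X ^ M ∣ ψ κ (∑ κ' ∈ K, ∑ i, C (x κ' i) * Wp κ' i) →
        ∀ i, (p : ℤ) ∣ x κ i := by
  classical
  choose L hL using fun κ κ' : σ → ZMod p => exw_lin κ κ'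
  have ht' : ∀ κ : σ → ZMod p, ∃ a u : ZMod p, κ ∈ K → u ≠ 0 ∧
      ψ κ t = PowerSeries.C a + PowerSeries.C u * PowerSeries.X := by
    intro κ
    by_cases hκ : κ ∈ K
    · obtain ⟨a, u, h1, h2⟩ := ht κ hκ
      exact ⟨a, u, fun _ => ⟨h1, h2⟩⟩
    · exact ⟨0, 0, fun h => absurd h hκ⟩
  choose a u hau using ht'
  set E : (σ → ZMod p) → MvPolynomial σ ℤ := fun κ => ∏ κ' ∈ K.erase κ, L κ κ' with hE
  set tk : (σ → ZMod p) → MvPolynomial σ ℤ := fun κ => t - C (((a κ).val : ℕ) : ℤ) with htk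
  have hC : ∀ κ (z : ℤ), ψ κ (C z) = PowerSeries.C (z : ZMod p) := by
    intro κ z
    have h1 : (C z : MvPolynomial σ ℤ) = (z : MvPolynomial σ ℤ) := eq_intCast C z
    have h2 : (PowerSeries.C (z : ZMod p) : PowerSeries (ZMod p)) = (z : PowerSeries (ZMod p)) :=
      map_intCast PowerSeries.C z
    rw [h1, map_intCast, h2]
  have hEu : ∀ κ ∈ K, IsUnit (ψ κ (E κ)) := by
    intro κ hκ
    rw [PowerSeries.isUnit_iff_constantCoeff, hψ κ hκ, hE]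
    simp only [map_prod]
    rw [isUnit_iff_ne_zero, Finset.prod_ne_zero_iff]
    intro κ' hκ'
    exact (hL κ κ' (Finset.ne_of_mem_erase hκ').symm).1
  have hE0 : ∀ κ ∈ K, ∀ κ' ∈ K, κ' ≠ κ → PowerSeries.X ∣ ψ κ (E κ') := by
    intro κ hκ κ' _ hne
    rw [PowerSeries.X_dvd_iff, hψ κ hκ, hE]
    simp only [map_prod]
    exact Finset.prod_eq_zero (Finset.mem_erase.2 ⟨hne.symm, hκ⟩) (hL κ' κ hne).2
  have htk1 : ∀ κ ∈ K, ψ κ (tk κ) = PowerSeries.C (u κ) * PowerSeries.X := by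
    intro κ hκ
    rw [htk]
    simp only [map_sub]
    rw [(hau κ hκ).2, hC, Int.cast_natCast, ZMod.natCast_zmod_val, add_sub_cancel_left]
  refine ⟨fun κ i => E κ ^ M * tk κ ^ (i : ℕ), fun κ hκ x hx => ?_⟩
  -- only `κ` remains
  have hother : PowerSeries.X ^ M ∣ ψ κ (∑ κ' ∈ K.erase κ, ∑ i : Fin M,
      C (x κ' i) * (E κ' ^ M * tk κ' ^ (i : ℕ))) := by
    rw [map_sum]
    apply Finset.dvd_sum
    intro κ' hκ'
    rw [map_sum]
    apply Finset.dvd_sum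
    intro i _
    rw [map_mul, map_mul, map_pow]
    apply Dvd.dvd.mul_left
    apply Dvd.dvd.mul_right
    exact pow_dvd_pow_of_dvd (hE0 κ hκ κ' (Finset.mem_of_mem_erase hκ')
      (Finset.ne_of_mem_erase hκ')) M
  have hmain : PowerSeries.X ^ M ∣ ψ κ (∑ i : Fin M, C (x κ i) * (E κ ^ M * tk κ ^ (i : ℕ))) := by
    have h1 : ∑ κ' ∈ K, ∑ i : Fin M, C (x κ' i) * (E κ' ^ M * tk κ' ^ (i : ℕ)) =
        (∑ i : Fin M, C (x κ i) * (E κ ^ M * tk κ ^ (i : ℕ))) +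
        ∑ κ' ∈ K.erase κ, ∑ i : Fin M, C (x κ' i) * (E κ' ^ M * tk κ' ^ (i : ℕ)) :=
      (Finset.add_sum_erase K _ hκ).symm
    have hx' : PowerSeries.X ^ M ∣
        ψ κ (∑ κ' ∈ K, ∑ i : Fin M, C (x κ' i) * (E κ' ^ M * tk κ' ^ (i : ℕ))) := hx
    rw [h1, map_add] at hx'
    exact (dvd_add_left hother).1 hx'
  have hS : PowerSeries.X ^ M ∣ ∑ i : Fin M, PowerSeries.C ((x κ i : ZMod p) * u κ ^ (i : ℕ)) *
      PowerSeries.X ^ (i : ℕ) := by
    have h1 : ψ κ (∑ i : Fin M, C (x κ i) * (E κ ^ M * tk κ ^ (i : ℕ))) = ψ κ (E κ) ^ M *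
        ∑ i : Fin M, PowerSeries.C ((x κ i : ZMod p) * u κ ^ (i : ℕ)) *
      PowerSeries.X ^ (i : ℕ) := by
      rw [map_sum, Finset.mul_sum]
      apply Finset.sum_congr rfl
      intro i _
      rw [map_mul, map_mul, map_pow, map_pow, htk1 κ hκ, hC, map_mul, map_pow, mul_pow]
      ring
    rw [h1] at hmain
    exact ((hEu κ hκ).pow M).dvd_mul_left.1 hmain
  intro j
  rw [PowerSeries.X_pow_dvd_iff] at hS
  have h2 := hS j j.2
  rw [map_sum, Finset.sum_eq_single j] at h2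
  · rw [PowerSeries.coeff_C_mul, PowerSeries.coeff_X_pow, if_pos rfl, mul_one] at h2
    have h3 := (mul_eq_zero.1 h2).resolve_right (pow_ne_zero _ (hau κ hκ).1)
    exact (ZMod.intCast_zmod_eq_zero_iff_dvd _ _).1 h3
  · intro i _ hij
    rw [PowerSeries.coeff_C_mul, PowerSeries.coeff_X_pow, if_neg, mul_zero]
    intro h3
    exact hij (Fin.ext h3.symm)
  · intro h3
    exact absurd (Finset.mem_univ j) h3

end Pool.Agent.H37.NF
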