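import Pool.Agent.H37.NF.BrDefs

/-! MODULE Psi (about 90 lines). The polynomials `psi` at a branch.

`φ (psi S p j) = ∏_(c<p) (φ eta_(j+1) - c * φ eta1)` and `φ eta_(j+1) - c * φ eta1 = C (C (l - c)) * φ eta1 + C (C O_0) * X j` (`etas`). For the `c` with `(c : ZMod p) = l` (exactly one `c < p`) this is `C (C O_0) * X j`, a unit times `X j` (`O_0 ≠ 0` in `ZMod p`). For the others the constant coefficient of the constant
coefficient is `(l - c) * aeval a S.eta1 ≠ 0`: a unit (`MvPowerSeries.isUnit_iff_constantCoeff`, `PowerSeries.isUnit_iff_constantCoeff`). Split the product (`Finset.mul_prod_erase`). Degrees: `eta` has total degree `≤ 1`. -/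

set_option autoImplicit false

namespace Pool.Agent.H37.NF

open MvPolynomial Pool.H76.NN

variable {σ : Type} [Fintype σ] [DecidableEq σ] {r : ℕ} {S : Sys σ r}
  {I : Ideal (MvPolynomial σ ℚ)}

theorem psi_branch {p : ℕ} [Fact p.Prime] {a : σ → ZMod p} (ha : aeval a S.eta1 ≠ 0)
    (hO : (S.O.1 : ZMod p) ≠ 0) {φ : MvPolynomial σ ℤ →+* PP r p} (hφ : Branch S I p a φ)
    (j : Fin r) : ∃ u : PP r p, IsUnit u ∧ φ (psi S p j) = u * MvPowerSeries.X j := by
  sorry

theorem psi_degree (S : Sys σ r) (p : ℕ) (j : Fin r) : (psi S p j).totalDegree ≤ p := by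
  sorry

theorem totalDegree_eta_le (O : Pt σ) (y : σ → ℤ) : (eta O y).totalDegree ≤ 1 := by
  sorry

end Pool.Agent.H37.NF
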