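import Pool.Agent.H37.NF.Defs
import Pool.Agent.H76.NN.Basic

/-! MODULE RelCard (about 90 lines). Paper 3.7 (4): number of polynomials without relations prime to `p`.

The elements `ev I (toQ (v s))`, `s ∈ ι`, of `V I t` are linearly independent over `ℚ`: a nontrivial relation with rational coefficients can be multiplied by a positive integer and divided by a power of `p` (or by the gcd of the coefficients) to get integers `x s`, not all divisible by `p`, with `∑ x s * ev I (toQ (v s)) = 0`,
i.e. `toQ (∑ C (x s) * v s) ∈ I` (`ev I F = 0 ↔ F ∈ I` for `I` prime: kernel of `A → A/I → FractionRing`, injective since `A/I` is a domain; compare `ev_eq_zero` in `Pool/Agent/H76/NN/Basic.lean`, which may be imported). So `Fintype.card ι ≤ finrank (V I t) = hf I t` (`V I t` is finite dimensional: image of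
`MvPolynomial.restrictTotalDegree`; `LinearIndependent.fintype_card_le_finrank`). -/

set_option autoImplicit false

namespace Pool.Agent.H37.NF

open MvPolynomial Pool.H76.NN

variable {σ : Type} [Fintype σ] [DecidableEq σ]

omit [Fintype σ] [DecidableEq σ] in
private theorem RelCard_step {p : ℕ} (hp : 1 < p) (I : Ideal (MvPolynomial σ ℚ))
    {ι : Type} [Fintype ι] (v : ι → MvPolynomial σ ℤ)
    (h : ∀ x : ι → ℤ, toQ (∑ s, C (x s) * v s) ∈ I → ∀ s, (p : ℤ) ∣ x s) (n : ℕ) :
    ∀ x : ι → ℤ, toQ (∑ s, C (x s) * v s) ∈ I → ∀ s, ((p : ℤ) ^ n) ∣ x s := by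
  induction n with
  | zero => intro x _ s; simp
  | succ n ih =>
    intro x hx
    choose y hy using h x hx
    have h1 : toQ (∑ s, C (x s) * v s) = C ((p : ℕ) : ℚ) * toQ (∑ s, C (y s) * v s) := by
      have h2 : ∑ s, C (x s) * v s = C ((p : ℕ) : ℤ) * ∑ s, C (y s) * v s := by
        rw [Finset.mul_sum]
        refine Finset.sum_congr rfl fun s _ => ?_
        rw [hy s, C_mul]
        ring
      rw [h2, map_mul]
      congr 1
      rw [toQ, map_C]
      congr 1
    have hp0 : ((p : ℕ) : ℚ) ≠ 0 := by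
      have : 0 < p := by omega
      exact_mod_cast this.ne'
    have h3 : toQ (∑ s, C (y s) * v s) ∈ I := by
      have h4 := I.mul_mem_left (C (((p : ℕ) : ℚ)⁻¹)) hx
      rw [h1, ← mul_assoc, ← C_mul, inv_mul_cancel₀ hp0, C_1, one_mul] at h4
      exact h4
    intro s
    obtain ⟨z, hz⟩ := ih y h3 s
    refine ⟨z, ?_⟩
    rw [hy s, hz]
    ring

private theorem RelCard_zero {p : ℕ} (hp : 1 < p) (x : ℤ) (h : ∀ n : ℕ, ((p : ℤ) ^ n) ∣ x) :
    x = 0 := by
  by_contra hx
  have h1 := Int.natAbs_dvd_natAbs.2 (h x.natAbs)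
  rw [Int.natAbs_pow, Int.natAbs_natCast] at h1
  have h2 := Nat.le_of_dvd (Int.natAbs_pos.2 hx) h1
  have h3 := Nat.lt_pow_self hp (n := x.natAbs)
  omega

theorem rel_card {p : ℕ} (hp : 1 < p) (I : Ideal (MvPolynomial σ ℚ)) [I.IsPrime]
    {ι : Type} [Fintype ι] (v : ι → MvPolynomial σ ℤ) (t : ℕ)
    (ht : ∀ s, (v s).totalDegree ≤ t)
    (h : ∀ x : ι → ℤ, toQ (∑ s, C (x s) * v s) ∈ I → ∀ s, (p : ℤ) ∣ x s) :
    Fintype.card ι ≤ hf I t := by
  classical
  have hmem : ∀ s, ev I (toQ (v s)) ∈ V I t := by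
    intro s
    rw [mem_V]
    refine ⟨toQ (v s), ?_, rfl⟩
    have h1 : (toQ (v s)).support ⊆ (v s).support := support_map_subset _ _
    have h2 : (toQ (v s)).totalDegree ≤ (v s).totalDegree := by
      rw [totalDegree, totalDegree]
      exact Finset.sup_mono h1
    exact h2.trans (ht s)
  have hfin : Module.Finite ℚ (V I t) := V_finite I t
  have hli : LinearIndependent ℚ (fun s : ι => (⟨ev I (toQ (v s)), hmem s⟩ : V I t)) := by
    rw [Fintype.linearIndependent_iff]
    intro q hq
    have hq' : ∑ s, q s • ev I (toQ (v s)) = 0 := by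
      have := congrArg (Subtype.val) hq
      simpa using this
    obtain ⟨b, hb⟩ := IsLocalization.exist_integer_multiples_of_finite (nonZeroDivisors ℤ) q
    choose x hx using hb
    have hx' : ∀ s, ((x s : ℤ) : ℚ) = ((b : ℤ) : ℚ) * q s := by
      intro s
      have h2 : (algebraMap ℤ ℚ (x s)) = (x s : ℚ) := rfl
      rw [← h2, hx s, zsmul_eq_mul]
    have h1 : toQ (∑ s, C (x s) * v s) ∈ I := by
      rw [← ev_eq_zero, map_sum, map_sum]
      have h2 : ∀ s, ev I (toQ (C (x s) * v s))
          = algebraMap ℚ (FF I) ((b : ℤ) : ℚ) * (q s • ev I (toQ (v s))) := by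
        intro s
        have h5 : (Int.castRingHom ℚ) (x s) = ((b : ℤ) : ℚ) * q s := hx' s
        have h3 : toQ (C (x s) * v s) = C ((b : ℤ) : ℚ) * (q s • toQ (v s)) := by
          rw [map_mul, toQ, map_C, h5, smul_eq_C_mul, C_mul, mul_assoc]
        rw [h3, map_mul, map_smul, algHom_C]
      rw [Finset.sum_congr rfl fun s _ => h2 s, ← Finset.mul_sum, hq', mul_zero]
    intro s
    have h4 := RelCard_zero hp (x s) fun n => RelCard_step hp I v h n x h1 s
    have h5 := hx' s
    rw [h4, Int.cast_zero] at h5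
    have hb0 : ((b : ℤ) : ℚ) ≠ 0 := by
      exact_mod_cast nonZeroDivisors.coe_ne_zero b
    rcases mul_eq_zero.1 h5.symm with h6 | h6
    · exact absurd h6 hb0
    · exact h6
  exact hli.fintype_card_le_finrank

end Pool.Agent.H37.NF
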