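import Mathlib

/-! MODULE Graded (about 90 lines). Leading coefficients with respect to the variables (paper 3.7 (3)).

`ψ j = u j * X j`, so `∏ j, ψ j ^ a j = (∏ u j ^ a j) * ∏ X j ^ a j` and `∏ X j ^ a j = monomial a 1`. Take the coefficient at the exponent `a₀` (`Finsupp.equivFunOnFinite.symm a₀`) of `∑ a ∈ W, h a * (∏ u j ^ a j) * monomial a 1 = 0`. For `a ∈ W` with `∑ a < n0` the term is `0`. For `a` with `∑ a ≥ n0 = ∑ a₀`, `a ≠ a₀`:
`a ≤ a₀` is impossible, so the coefficient is `0` (`MvPowerSeries.coeff_mul_monomial`/`coeff_monomial_mul`). For `a = a₀` it is the constant coefficient of `h a₀ * ∏ u j ^ a₀ j`. The constant coefficient of a unit is a unit, `A` is a domain, so `constantCoeff (h a₀) = 0`. -/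

set_option autoImplicit false

namespace Pool.Agent.H37.NF

private theorem graded_prod {A : Type*} [CommRing A] {r : ℕ} (a : Fin r → ℕ) :
    ∏ j, (MvPowerSeries.X j : MvPowerSeries (Fin r) A) ^ a j =
      MvPowerSeries.monomial (Finsupp.equivFunOnFinite.symm a) 1 := by
  have h1 : ∀ j : Fin r, (MvPowerSeries.X j : MvPowerSeries (Fin r) A) ^ a j =
      MvPowerSeries.monomial (Finsupp.single j (a j)) 1 := fun j => MvPowerSeries.X_pow_eq j (a j)
  rw [Finset.prod_congr rfl fun j _ => h1 j]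
  rw [MvPowerSeries.prod_monomial, Finset.prod_const_one]
  have h2 : (∑ j : Fin r, Finsupp.single j (a j)) = Finsupp.equivFunOnFinite.symm a := by
    ext i
    rw [Finsupp.finsetSum_apply]
    simp [Finsupp.single_apply]
  rw [h2]

theorem graded {A : Type*} [CommRing A] [IsDomain A] {r : ℕ} (W : Finset (Fin r → ℕ))
    (h : (Fin r → ℕ) → MvPowerSeries (Fin r) A) (ψ : Fin r → MvPowerSeries (Fin r) A)
    (hψ : ∀ j, ∃ u, IsUnit u ∧ ψ j = u * MvPowerSeries.X j)
    (hsum : ∑ a ∈ W, h a * ∏ j, ψ j ^ a j = 0) (a₀ : Fin r → ℕ) (ha₀ : a₀ ∈ W)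
    (hmin : ∀ a ∈ W, ∑ j, a j < ∑ j, a₀ j → h a = 0) :
    MvPowerSeries.constantCoeff (h a₀) = 0 := by
  classical
  choose u hu hψ' using hψ
  have hterm : ∀ a : Fin r → ℕ, h a * ∏ j, ψ j ^ a j =
      (h a * ∏ j, u j ^ a j) *
        MvPowerSeries.monomial (Finsupp.equivFunOnFinite.symm a) 1 := by
    intro a
    rw [← graded_prod, mul_assoc, ← Finset.prod_mul_distrib]
    congr 1
    refine Finset.prod_congr rfl fun j _ => ?_
    rw [hψ' j, mul_pow]
  have h1 := congrArg (MvPowerSeries.coeff (Finsupp.equivFunOnFinite.symm a₀)) hsum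
  rw [map_sum, map_zero] at h1
  have h2 : ∀ a ∈ W, a ≠ a₀ →
      MvPowerSeries.coeff (Finsupp.equivFunOnFinite.symm a₀) (h a * ∏ j, ψ j ^ a j) = 0 := by
    intro a ha hne
    by_cases hlt : ∑ j, a j < ∑ j, a₀ j
    · rw [hmin a ha hlt, zero_mul, map_zero]
    · rw [hterm, MvPowerSeries.coeff_mul_monomial, if_neg]
      intro hle
      apply hne
      have hle' : ∀ j, a j ≤ a₀ j := fun j => hle j
      have hs : ∑ j, a j = ∑ j, a₀ j :=
        le_antisymm (Finset.sum_le_sum fun j _ => hle' j) (not_lt.mp hlt)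
      funext j
      exact (Finset.sum_eq_sum_iff_of_le fun j _ => hle' j).mp hs j (Finset.mem_univ _)
  rw [Finset.sum_eq_single_of_mem a₀ ha₀ h2, hterm, MvPowerSeries.coeff_mul_monomial,
    if_pos le_rfl, tsub_self, mul_one, MvPowerSeries.coeff_zero_eq_constantCoeff_apply,
    map_mul] at h1
  rcases mul_eq_zero.mp h1 with h3 | h3
  · exact h3
  · exfalso
    have h4 : IsUnit (∏ j, u j ^ a₀ j) := by
      rw [IsUnit.prod_univ_iff]
      exact fun j => (hu j).pow _
    exact (MvPowerSeries.isUnit_constantCoeff _ h4).ne_zero h3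

end Pool.Agent.H37.NF
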