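import Pool.Agent.H37.NF.BrDefs
import Pool.Agent.H37.NF.Graded

/-! MODULE RelDvd (about 170 lines). Paper 3.7 (3): integral relations modulo `I` are divisible by `p`.

The index set is `Ω ⊆ K × Fin M × (Fin r → ℕ) × ℕ` (finite), the relation `∑_(ω ∈ Ω) C (x ω) * v ω` with `v (κ,i,a,b) = Wp κ i * ∏ j, Ψ j ^ a j * G ^ b` (`x ω = 0` outside `Ω` is assumed). Suppose some `x ω` is not divisible by `p`; take `ω₁ = (κ₁,i₁,a₁,b₁)` with this property and `∑ a₁` minimal, and among the `ω` with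
`a = a₁` take one (call it `ω₁` again) with `b₁` minimal. Apply `φ κ₁` to the relation: `∑_a h a * ∏ j, (φ (Ψ j))^(a j) = 0` with `h a = ∑_((κ,i,b)) x(κ,i,a,b) φ(Wp κ i) φ(G)^b`; for `∑ a < ∑ a₁` all the `x(κ,i,a,b)` are divisible by `p`, so `h a = 0` (characteristic `p`: `(x : PP r p) = 0`). `graded` gives
`sl (h a₁) = 0`: `∑_((κ,i,b)) x(κ,i,a₁,b) sl φ(Wp κ i) * (sl φ G)^b = 0`. Terms with `b < b₁` vanish. So `(sl φ G)^(b₁) * (∑_((κ,i)) x(κ,i,a₁,b₁) sl φ(Wp κ i) + sl φ G * (..)) = 0`; the first factor is nonzero (domain), and `X^M` divides `sl φ G`, so `X^M` divides `sl φ (∑_κ ∑_i C (x(κ,i,a₁,b₁)) * Wp κ i)`.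
By the property `hW` of `Wp` at `κ₁`: `p ∣ x(κ₁,i₁,a₁,b₁)`, contradiction. -/

set_option autoImplicit false

namespace Pool.Agent.H37.NF

open MvPolynomial Pool.H76.NN

variable {σ : Type} [Fintype σ] [DecidableEq σ]

theorem rel_dvd {r p M : ℕ} [Fact p.Prime] (I : Ideal (MvPolynomial σ ℚ))
    (K : Finset (σ → ZMod p)) (φ : (σ → ZMod p) → MvPolynomial σ ℤ →+* PP r p)
    (hkill : ∀ κ ∈ K, ∀ g, toQ g ∈ I → φ κ g = 0)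
    (Ψ : Fin r → MvPolynomial σ ℤ)
    (hΨ : ∀ κ ∈ K, ∀ j, ∃ u : PP r p, IsUnit u ∧ φ κ (Ψ j) = u * MvPowerSeries.X j)
    (G : MvPolynomial σ ℤ)
    (hG : ∀ κ ∈ K, sl r p (φ κ G) ≠ 0 ∧ PowerSeries.X ^ M ∣ sl r p (φ κ G))
    (Wp : (σ → ZMod p) → Fin M → MvPolynomial σ ℤ)
    (hW : ∀ κ ∈ K, ∀ x : (σ → ZMod p) → Fin M → ℤ,
        PowerSeries.X ^ M ∣ sl r p (φ κ (∑ κ' ∈ K, ∑ i, C (x κ' i) * Wp κ' i)) →
        ∀ i, (p : ℤ) ∣ x κ i)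
    (U : Finset ((Fin r → ℕ) × ℕ)) (x : (σ → ZMod p) → Fin M → (Fin r → ℕ) × ℕ → ℤ)
    (hx : toQ (∑ κ ∈ K, ∑ i, ∑ w ∈ U, C (x κ i w) * (Wp κ i * (∏ j, Ψ j ^ w.1 j) * G ^ w.2)) ∈ I) :
    ∀ κ ∈ K, ∀ i, ∀ w ∈ U, (p : ℤ) ∣ x κ i w := by
  sorry

end Pool.Agent.H37.NF
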