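import Pool.Agent.H37.NF.Defs

/-! MODULE RowDet (about 170 lines). The determinant of 3.7 along a slice: (1) divisible by `X^M`, (2) nonzero.

(2) `det_const_row`: Suppose the determinant is `0`. The rows `G, F, D F, .., D^(M-1) F` are dependent over the domain `R` (`Matrix.exists_vecMul_eq_zero_iff`: a nonzero row vector `(c, c_0, .., c_(M-1))` with `c G_j = - ∑_{l<M} c_l D^l F_j`
for all `j`; change the signs: `c G_j = ∑ c_l D^l F_j`). The rows `F, .., D^M F` are independent (`det (wr D F) ≠ 0`), so `c ≠ 0`. Apply `D` (`D G_j = 0`) and multiply by `c`: `(D c) ∑_l c_l D^l F = c G`-free relation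
`∑_l (D c) c_l D^l F = ∑_l c (D c_l) D^l F + c c_l D^(l+1) F`. Compare the coefficients of `D^l F`, `l = M, M-1, .., 1` (independence of `F..D^M F`): `c c_(M-1) = 0`, then `(D c) c_l = c (D c_l) + c c_(l-1)`: by descending induction all `c_l = 0`. So
`c G_j = 0` for all `j`, contradiction. (`M = 0`: the matrix is `(G_0)`.)
(1) `X_pow_dvd_det`: (a) `coeff 0` of `F_j^p` is `coeff 0 (F_j)` (`ZMod.pow_card`), and `F_j^p - C (coeff 0 F_j)` is divisible by `X^p` (`F_j = C a + X h`, char `p`: `F_j^p = C a^p + X^p h^p`, `add_pow_char`). (b) Taylor: `X^M` divides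
`C (coeff 0 F) - ∑_{i<M} C ((-1)^i / i!) * X^i * F^(i)` (`F^(i)` = iterated derivative, `i < M < p` so `i!` is invertible): coefficient of `X^m` for `m < M`: `∑_{i<=m} (-1)^i choose(m,i) * coeff m F` = `0` if `m > 0`
(`Int.alternating_sum_range_choose`). (c) `F^(i)` is a combination (coefficients in `R` depending on `i, l` only) of `D^l F`, `l <= i`, because `D f = u f'` with `u` a unit. So the first row is, modulo `X^M`, a combination of the other rows:
`Matrix.det_updateRow_add..`/`det_updateRow_sum`, or: work in the quotient ring, or multiply: subtract the combination from the first row (`Matrix.det_updateRow_...`), then all entries of the first row are divisible by `X^M`. -/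

set_option autoImplicit false

namespace Pool.Agent.H37.NF

theorem det_const_row {R : Type*} [CommRing R] [IsDomain R] (D : Derivation ℤ R R) {M : ℕ}
    (F G : Fin (M + 1) → R) (hW : (wr D F).det ≠ 0) (hG : ∀ j, D (G j) = 0)
    (hG0 : ∃ j, G j ≠ 0) : (wrG D G F).det ≠ 0 := by
  classical
  intro hdet
  obtain ⟨v, hv0, hv⟩ := Matrix.exists_vecMul_eq_zero_iff.2 hdet
  -- independence of the rows `D^l F`
  have indep : ∀ b : ℕ → R, (∀ j, ∑ l ∈ Finset.range (M + 1), b l * D^[l] (F j) = 0) →
      ∀ l ≤ M, b l = 0 := by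
    intro b hb l hl
    have h1 : (fun i : Fin (M + 1) => b i) = 0 := by
      apply Matrix.eq_zero_of_vecMul_eq_zero hW
      funext j
      rw [Matrix.vecMul, dotProduct]
      simp only [wr_apply, Pi.zero_apply]
      rw [← hb j, ← Fin.sum_univ_eq_sum_range (fun l => b l * D^[l] (F j))]
    exact congrFun h1 ⟨l, by omega⟩
  set a : ℕ → R := fun l => if h : l < M then v ⟨l + 1, by omega⟩ else 0 with ha
  have haM : ∀ l, M ≤ l → a l = 0 := by
    intro l hl
    simp only [ha]
    rw [dif_neg (by omega)]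
  have hrel : ∀ j, v 0 * G j + ∑ l ∈ Finset.range (M + 1), a l * D^[l] (F j) = 0 := by
    intro j
    have h1 := congrFun hv j
    rw [Matrix.vecMul, dotProduct, Fin.sum_univ_succ] at h1
    simp only [wrG_zero, wrG_succ, Pi.zero_apply] at h1
    rw [← h1, Finset.sum_range_succ, haM M le_rfl, zero_mul, add_zero,
      ← Fin.sum_univ_eq_sum_range (fun l => a l * D^[l] (F j))]
    congr 1
    apply Finset.sum_congr rfl
    intro i _
    simp only [ha]
    rw [dif_pos i.2]
    rfl
  -- the derived relation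
  have hD2 : ∀ j, D (v 0) * G j + (∑ l ∈ Finset.range (M + 1), D (a l) * D^[l] (F j) +
      ∑ l ∈ Finset.range (M + 1), a l * D^[l + 1] (F j)) = 0 := by
    intro j
    have h1 := congrArg D (hrel j)
    rw [map_add, map_sum, map_zero, Derivation.leibniz, hG j, smul_zero, zero_add] at h1
    rw [← h1, smul_eq_mul, mul_comm (G j), ← Finset.sum_add_distrib]
    congr 1
    apply Finset.sum_congr rfl
    intro l _
    rw [Derivation.leibniz, Function.iterate_succ_apply', smul_eq_mul, smul_eq_mul]
    ring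
  have hshift : ∀ j, ∑ l ∈ Finset.range (M + 1), a l * D^[l + 1] (F j) =
      ∑ l ∈ Finset.range (M + 1), (if l = 0 then 0 else a (l - 1)) * D^[l] (F j) := by
    intro j
    rw [Finset.sum_range_succ, haM M le_rfl, zero_mul, add_zero, Finset.sum_range_succ']
    simp
  have hcomb : ∀ j, ∑ l ∈ Finset.range (M + 1), (v 0 * D (a l) - D (v 0) * a l +
      v 0 * (if l = 0 then 0 else a (l - 1))) * D^[l] (F j) = 0 := by
    intro j
    have h1 := hD2 j
    rw [hshift j] at h1
    have h2 := hrel j
    have h3 : ∑ l ∈ Finset.range (M + 1), (v 0 * D (a l) - D (v 0) * a l +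
      v 0 * (if l = 0 then 0 else a (l - 1))) * D^[l] (F j) =
      v 0 * (∑ l ∈ Finset.range (M + 1), D (a l) * D^[l] (F j)) -
      D (v 0) * (∑ l ∈ Finset.range (M + 1), a l * D^[l] (F j)) +
      v 0 * ∑ l ∈ Finset.range (M + 1), (if l = 0 then 0 else a (l - 1)) * D^[l] (F j) := by
      rw [Finset.mul_sum, Finset.mul_sum, Finset.mul_sum, ← Finset.sum_sub_distrib,
        ← Finset.sum_add_distrib]
      apply Finset.sum_congr rfl
      intro l _
      ring
    rw [h3]
    linear_combination v 0 * h1 - D (v 0) * h2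
  have hb := indep _ hcomb
  have hc0 : v 0 ≠ 0 := by
    intro h0
    have h1 : ∀ l ≤ M, a l = 0 := by
      apply indep
      intro j
      have := hrel j
      rwa [h0, zero_mul, zero_add] at this
    apply hv0
    funext i
    refine Fin.cases ?_ (fun i' => ?_) i
    · exact h0
    · have h2 := h1 i' (by omega)
      simp only [ha] at h2
      rw [dif_pos i'.2] at h2
      exact h2
  have hall : ∀ k l, l + k = M → a l = 0 := by
    intro k
    induction k with
    | zero => intro l hl; exact haM l (by omega)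
    | succ k ih =>
      intro l hl
      have h1 := hb (l + 1) (by omega)
      have h2 := ih (l + 1) (by omega)
      rw [h2, map_zero, mul_zero, mul_zero, sub_zero, zero_add, if_neg (by omega),
        Nat.add_sub_cancel] at h1
      exact (mul_eq_zero.1 h1).resolve_left hc0
  obtain ⟨j, hj⟩ := hG0
  have h1 := hrel j
  rw [Finset.sum_eq_zero, add_zero] at h1
  · exact (mul_ne_zero hc0 hj) h1
  · intro l hl
    rw [hall (M - l) l (by rw [Finset.mem_range] at hl; omega), zero_mul]

open PowerSeries in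
private theorem rowdet_iter {p : ℕ} [Fact p.Prime]
    (D : Derivation ℤ (PowerSeries (ZMod p)) (PowerSeries (ZMod p))) (w : PowerSeries (ZMod p))
    (hD : ∀ f, PowerSeries.derivative (ZMod p) f = w * D f) (i : ℕ) :
    ∃ r : ℕ → PowerSeries (ZMod p), (∀ l, i < l → r l = 0) ∧ ∀ f, ∀ N, i < N →
      (PowerSeries.derivative (ZMod p))^[i] f = ∑ l ∈ Finset.range N, r l * D^[l] f := by
  induction i with
  | zero =>
    refine ⟨fun l => if l = 0 then 1 else 0, fun l hl => if_neg (by omega), fun f N hN => ?_⟩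
    rw [Finset.sum_eq_single 0]
    · simp
    · intro b _ hb
      simp [hb]
    · intro h
      exact absurd (Finset.mem_range.2 hN) h
  | succ i ih =>
    obtain ⟨r, hr, h⟩ := ih
    refine ⟨fun l => PowerSeries.derivative (ZMod p) (r l) + (if l = 0 then 0 else r (l - 1) * w),
      fun l hl => ?_, fun f N hN => ?_⟩
    · show PowerSeries.derivative (ZMod p) (r l) + (if l = 0 then 0 else r (l - 1) * w) = 0
      rw [hr l (by omega), hr (l - 1) (by omega)]
      simp
    · obtain ⟨N', rfl⟩ : ∃ N', N = N' + 1 := ⟨N - 1, by omega⟩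
      rw [Function.iterate_succ_apply', h f (N' + 1) (by omega), map_sum]
      have h1 : ∀ l, PowerSeries.derivative (ZMod p) (r l * D^[l] f) =
          PowerSeries.derivative (ZMod p) (r l) * D^[l] f + r l * w * D^[l + 1] f := by
        intro l
        rw [Derivation.leibniz, hD, Function.iterate_succ_apply', smul_eq_mul, smul_eq_mul]
        ring
      simp only [h1]
      rw [Finset.sum_add_distrib]
      have h2 : ∑ l ∈ Finset.range (N' + 1), r l * w * D^[l + 1] f =
          ∑ l ∈ Finset.range (N' + 1), (if l = 0 then 0 else r (l - 1) * w) * D^[l] f := by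
        rw [Finset.sum_range_succ, hr N' (by omega), zero_mul, zero_mul, add_zero,
          Finset.sum_range_succ']
        simp
      rw [h2, ← Finset.sum_add_distrib]
      apply Finset.sum_congr rfl
      intro l _
      ring

open PowerSeries in
private theorem rowdet_taylor {p : ℕ} [Fact p.Prime] {M : ℕ} (hM : M < p)
    (f : PowerSeries (ZMod p)) :
    (X : PowerSeries (ZMod p)) ^ M ∣ C (coeff 0 f) - ∑ i ∈ Finset.range M,
      C ((-1) ^ i * ((i.factorial : ZMod p))⁻¹) * X ^ i * (PowerSeries.derivative (ZMod p))^[i] f := by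
  rw [X_pow_dvd_iff]
  intro m hm
  rw [map_sub, map_sum]
  have h1 : ∀ i ∈ Finset.range M, coeff m (C ((-1) ^ i * ((i.factorial : ZMod p))⁻¹) * X ^ i *
      (PowerSeries.derivative (ZMod p))^[i] f) = (-1) ^ i * (m.choose i : ZMod p) * coeff m f := by
    intro i hi
    rw [Finset.mem_range] at hi
    have hfac : ((i.factorial : ℕ) : ZMod p) ≠ 0 := by
      intro h0
      rw [ZMod.natCast_eq_zero_iff] at h0
      have := (Nat.Prime.dvd_factorial (Fact.out : p.Prime)).1 h0
      omega
    rw [mul_assoc, coeff_C_mul, coeff_X_pow_mul']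
    by_cases him : i ≤ m
    · rw [if_pos him, coeff_iterate_derivative]
      have h2 : m - i + i = m := by omega
      rw [Nat.ascFactorial_eq_factorial_mul_choose, h2]
      push_cast
      field_simp
    · rw [if_neg him, Nat.choose_eq_zero_of_lt (by omega)]
      simp
  rw [Finset.sum_congr rfl h1, ← Finset.sum_mul]
  have h3 : ∑ i ∈ Finset.range M, (-1 : ZMod p) ^ i * (m.choose i : ZMod p) =
      if m = 0 then 1 else 0 := by
    have h4 : ∑ i ∈ Finset.range M, (-1 : ZMod p) ^ i * (m.choose i : ZMod p) =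
        ∑ i ∈ Finset.range (m + 1), (-1 : ZMod p) ^ i * (m.choose i : ZMod p) := by
      symm
      apply Finset.sum_subset
      · intro x hx
        rw [Finset.mem_range] at *
        omega
      · intro x _ hx
        rw [Finset.mem_range] at hx
        rw [Nat.choose_eq_zero_of_lt (by omega)]
        simp
    rw [h4]
    have h5 := congrArg (fun z : ℤ => (z : ZMod p)) (Int.alternating_sum_range_choose (n := m))
    push_cast at h5
    exact h5
  rw [h3, coeff_C]
  by_cases hm0 : m = 0
  · subst hm0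
    simp
  · simp [hm0]

open PowerSeries in
private theorem rowdet_frob {p : ℕ} [Fact p.Prime] {M : ℕ} (hM : M < p)
    (f : PowerSeries (ZMod p)) :
    (X : PowerSeries (ZMod p)) ^ M ∣ f ^ p - C (coeff 0 f) := by
  have : CharP (PowerSeries (ZMod p)) p :=
    charP_of_injective_ringHom (PowerSeries.C_injective (R := ZMod p)) p
  have h1 : (X : PowerSeries (ZMod p)) ∣ f - C (coeff 0 f) := by
    rw [X_dvd_iff]
    simp
  obtain ⟨g, hg⟩ := h1
  have h2 : f = C (coeff 0 f) + X * g := by rw [← hg]; ring
  have h3 : f ^ p = C (coeff 0 f) + X ^ p * g ^ p := by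
    conv_lhs => rw [h2]
    rw [add_pow_char, ← map_pow, ZMod.pow_card, mul_pow]
  rw [h3, add_sub_cancel_left]
  exact Dvd.dvd.mul_right (pow_dvd_pow _ hM.le) _

open PowerSeries in
private theorem rowdet_comb {p : ℕ} [Fact p.Prime] {M : ℕ} (hM : M < p)
    (D : Derivation ℤ (PowerSeries (ZMod p)) (PowerSeries (ZMod p))) (w : PowerSeries (ZMod p))
    (hD : ∀ f, PowerSeries.derivative (ZMod p) f = w * D f) :
    ∃ e : ℕ → PowerSeries (ZMod p), ∀ f,
      (X : PowerSeries (ZMod p)) ^ M ∣ f ^ p - ∑ l ∈ Finset.range M, e l * D^[l] f := by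
  choose r hr h using rowdet_iter D w hD
  refine ⟨fun l => ∑ i ∈ Finset.range M,
    C ((-1) ^ i * ((i.factorial : ZMod p))⁻¹) * X ^ i * r i l, fun f => ?_⟩
  have h1 := dvd_add (rowdet_frob hM f) (rowdet_taylor hM f)
  have h2 : ∑ l ∈ Finset.range M, (∑ i ∈ Finset.range M,
      C ((-1) ^ i * ((i.factorial : ZMod p))⁻¹) * X ^ i * r i l) * D^[l] f =
      ∑ i ∈ Finset.range M, C ((-1) ^ i * ((i.factorial : ZMod p))⁻¹) * X ^ i *
        (PowerSeries.derivative (ZMod p))^[i] f := by
    simp only [Finset.sum_mul]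
    rw [Finset.sum_comm]
    apply Finset.sum_congr rfl
    intro i hi
    rw [h i f M (Finset.mem_range.1 hi), Finset.mul_sum]
    apply Finset.sum_congr rfl
    intro l _
    ring
  show (X : PowerSeries (ZMod p)) ^ M ∣ f ^ p - ∑ l ∈ Finset.range M, (∑ i ∈ Finset.range M,
      C ((-1) ^ i * ((i.factorial : ZMod p))⁻¹) * X ^ i * r i l) * D^[l] f
  rw [h2]
  have h3 : f ^ p - ∑ i ∈ Finset.range M, C ((-1) ^ i * ((i.factorial : ZMod p))⁻¹) * X ^ i *
        (PowerSeries.derivative (ZMod p))^[i] f = (f ^ p - C (coeff 0 f)) + (C (coeff 0 f) -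
        ∑ i ∈ Finset.range M, C ((-1) ^ i * ((i.factorial : ZMod p))⁻¹) * X ^ i *
        (PowerSeries.derivative (ZMod p))^[i] f) := by ring
  rw [h3]
  exact h1

private theorem rowdet_expand {R : Type*} [CommRing R] {M : ℕ} (D : R → R)
    (F : Fin (M + 1) → R) : ∃ m : Fin (M + 1) → R, ∀ G : Fin (M + 1) → R,
      (wrG D G F).det = ∑ j, m j * G j := by
  refine ⟨fun j => (-1) ^ (j : ℕ) *
    (Matrix.of fun (i' j' : Fin M) => D^[(i' : ℕ)] (F (j.succAbove j'))).det, fun G => ?_⟩
  rw [Matrix.det_succ_row_zero]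
  apply Finset.sum_congr rfl
  intro j _
  have h1 : (wrG D G F).submatrix Fin.succ j.succAbove =
      Matrix.of fun (i' j' : Fin M) => D^[(i' : ℕ)] (F (j.succAbove j')) := by
    ext i' j'
    rfl
  rw [h1, wrG_zero]
  ring

theorem X_pow_dvd_det {p : ℕ} [Fact p.Prime] {M : ℕ} (hM : M < p)
    (D : Derivation ℤ (PowerSeries (ZMod p)) (PowerSeries (ZMod p))) (u : PowerSeries (ZMod p))
    (hu : IsUnit u) (hD : ∀ f, D f = u * PowerSeries.derivative (ZMod p) f)
    (F : Fin (M + 1) → PowerSeries (ZMod p)) :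
    PowerSeries.X ^ M ∣ (wrG D (fun j => F j ^ p) F).det := by
  classical
  obtain ⟨w, hw⟩ := hu.exists_right_inv
  have hD' : ∀ f, PowerSeries.derivative (ZMod p) f = w * D f := by
    intro f
    rw [hD f, ← mul_assoc, mul_comm w u, hw, one_mul]
  obtain ⟨e, he⟩ := rowdet_comb hM D w hD'
  obtain ⟨m, hm⟩ := rowdet_expand (fun x => D x) F
  have hz : ∀ l, l < M → ∑ j, m j * D^[l] (F j) = 0 := by
    intro l hl
    rw [← hm (fun j => D^[l] (F j))]
    apply Matrix.det_zero_of_row_eq (i := 0) (j := (⟨l, hl⟩ : Fin M).succ)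
      (Fin.succ_ne_zero _).symm
    funext j
    rfl
  have h1 : (wrG D (fun j => F j ^ p) F).det =
      ∑ j, m j * (F j ^ p - ∑ l ∈ Finset.range M, e l * D^[l] (F j)) := by
    have h2 : ∑ j, m j * (F j ^ p - ∑ l ∈ Finset.range M, e l * D^[l] (F j)) =
        ∑ j, m j * F j ^ p - ∑ l ∈ Finset.range M, e l * ∑ j, m j * D^[l] (F j) := by
      simp only [mul_sub, Finset.sum_sub_distrib, Finset.mul_sum]
      congr 1
      rw [Finset.sum_comm]
      apply Finset.sum_congr rfl
      intro l _
      apply Finset.sum_congr rfl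
      intro j _
      ring
    have h4 : ∑ l ∈ Finset.range M, e l * ∑ j, m j * D^[l] (F j) = 0 := by
      apply Finset.sum_eq_zero
      intro l hl
      rw [hz l (Finset.mem_range.1 hl), mul_zero]
    rw [h2, h4, sub_zero]
    exact hm _
  rw [h1]
  exact Finset.dvd_sum fun j _ => Dvd.dvd.mul_left (he (F j)) _

end Pool.Agent.H37.NF
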