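import Pool.Agent.H37.NF.BrDefs
import Pool.Agent.H37.NF.RowDet

/-! MODULE SliceG (about 120 lines). Paper 3.7 (1), (2): the restriction of `G` to the slice.

Let `ψ g = sl (φ g)`, a ring homomorphism to `PowerSeries (ZMod p)`; `u = ψ (J S.F) * ψ S.eta1` is a unit (constant coefficient `aeval a (J S.F) * aeval a S.eta1 ≠ 0` since `aeval a S.E ≠ 0`). `D f = u * derivative f` is a derivation over `ℤ` (`u • (PowerSeries.derivative (ZMod p)).restrictScalars ℤ`) and `ψ (S.D g) = D (ψ g)`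
(`der`), so `ψ (S.D^[i] g) = D^[i] (ψ g)`. Hence `ψ S.om = (wr D F).det` and `ψ (S.G p) = (wrG D (fun j => F j ^ p) F).det` with `F j = ψ (S.f j)` (`RingHom.map_det`, `RingHom.mapMatrix_apply`; `wrG` row by row, `Fin.cases`). `(wr D F).det ≠ 0`: its constant coefficient is `aeval a S.om ≠ 0`.
`D (F j ^ p) = 0` (characteristic `p`). `F 0 ^ p = 1 ≠ 0` since `S.f 0 = 1` (`hS.ν0`). Use `det_const_row` and `X_pow_dvd_det`. -/

set_option autoImplicit false

namespace Pool.Agent.H37.NF

open MvPolynomial Pool.H76.NN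

variable {σ : Type} [Fintype σ] [DecidableEq σ] {r : ℕ} {S : Sys σ r}
  {I : Ideal (MvPolynomial σ ℚ)} {b0 : ℕ}

omit [Fintype σ] [DecidableEq σ] in
private theorem slice_toDer {R : Type*} [CommRing R] (d : R →+ R)
    (h : ∀ a b, d (a * b) = a * d b + b * d a) : ∃ D : Derivation ℤ R R, ∀ f, D f = d f :=
  ⟨Derivation.mk' d.toIntLinearMap fun a b => by
    rw [smul_eq_mul, smul_eq_mul]
    exact h a b, fun _ => rfl⟩

theorem slice_G (hS : S.Good I b0) {p : ℕ} [Fact p.Prime] (hM : S.M < p) {a : σ → ZMod p}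
    (ha : aeval a S.E ≠ 0) {φ : MvPolynomial σ ℤ →+* PP r p} (hφ : Branch S I p a φ) :
    sl r p (φ (S.G p)) ≠ 0 ∧ PowerSeries.X ^ S.M ∣ sl r p (φ (S.G p)) := by
  classical
  have hch : CharP (PowerSeries (ZMod p)) p :=
    charP_of_injective_ringHom (PowerSeries.C_injective (R := ZMod p)) p
  have hE : aeval a S.E = aeval a (J S.F) * aeval a S.om * aeval a S.eta1 := by
    unfold Sys.E
    rw [map_mul, map_mul]
  rw [hE] at ha
  have haJ : aeval a (J S.F) ≠ 0 := left_ne_zero_of_mul (left_ne_zero_of_mul ha)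
  have hao : aeval a S.om ≠ 0 := right_ne_zero_of_mul (left_ne_zero_of_mul ha)
  have hae : aeval a S.eta1 ≠ 0 := right_ne_zero_of_mul ha
  obtain ⟨ψ, hψ⟩ : ∃ ψ : MvPolynomial σ ℤ →+* PowerSeries (ZMod p), ψ = (sl r p).comp φ :=
    ⟨_, rfl⟩
  have hψ1 : ∀ g, sl r p (φ g) = ψ g := fun g => by
    rw [hψ]
    rfl
  have hpt : ∀ g, PowerSeries.constantCoeff (ψ g) = aeval a g := fun g => by
    rw [← hψ1]
    exact hφ.pt g
  have hu : IsUnit (ψ (J S.F) * ψ S.eta1) := by
    rw [PowerSeries.isUnit_iff_constantCoeff, map_mul, hpt, hpt]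
    exact (mul_ne_zero haJ hae).isUnit
  obtain ⟨D, hD⟩ : ∃ D : Derivation ℤ (PowerSeries (ZMod p)) (PowerSeries (ZMod p)),
      ∀ f, D f = (ψ (J S.F) * ψ S.eta1) * PowerSeries.derivative (ZMod p) f :=
    ⟨(ψ (J S.F) * ψ S.eta1) • (PowerSeries.derivative (ZMod p)).restrictScalars ℤ, fun f => rfl⟩
  have hder : ∀ g, ψ (S.D g) = D (ψ g) := fun g => by
    rw [hD, ← hψ1, ← hψ1 (J S.F), ← hψ1 S.eta1, ← hψ1 g]
    exact hφ.der g
  have hit : ∀ (i : ℕ) g, ψ (S.D^[i] g) = D^[i] (ψ g) := by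
    intro i
    induction i with
    | zero => intro g; rfl
    | succ i ih =>
      intro g
      rw [Function.iterate_succ_apply', Function.iterate_succ_apply', hder, ih]
  have hom : ψ S.om = (wr D fun j => ψ (S.f j)).det := by
    unfold Sys.om
    rw [RingHom.map_det]
    congr 1
    ext1 i j
    rw [RingHom.mapMatrix_apply, Matrix.map_apply, wr_apply, wr_apply, hit]
  have hG : ψ (S.G p) = (wrG D (fun j => ψ (S.f j) ^ p) fun j => ψ (S.f j)).det := by
    unfold Sys.G
    rw [RingHom.map_det]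
    congr 1
    ext1 i j
    rw [RingHom.mapMatrix_apply, Matrix.map_apply]
    refine Fin.cases ?_ (fun i' => ?_) i
    · rw [wrG_zero, wrG_zero, map_pow]
    · rw [wrG_succ, wrG_succ, hit]
  rw [hψ1, hG]
  constructor
  · obtain ⟨D', hD'⟩ := slice_toDer (R := PowerSeries (ZMod p)) (AddMonoidHom.mk' (fun f => D f)
      fun a b => map_add D a b) (fun a b => by
        change D (a * b) = a * D b + b * D a
        rw [Derivation.leibniz, smul_eq_mul, smul_eq_mul])
    have hDD : (fun f => D f) = fun f => D' f := funext fun f => (hD' f).symm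
    change (wrG (fun f => D f) (fun j => ψ (S.f j) ^ p) fun j => ψ (S.f j)).det ≠ 0
    change ψ S.om = (wr (fun f => D f) fun j => ψ (S.f j)).det at hom
    rw [hDD] at hom ⊢
    apply det_const_row (R := PowerSeries (ZMod p)) D'
    · change (wr (fun f => D' f) fun j => ψ (S.f j)).det ≠ 0
      rw [← hom]
      intro h
      apply hao
      rw [← hpt, h, map_zero]
    · intro j
      rw [hD']
      change D (ψ (S.f j) ^ p) = 0
      rw [Derivation.leibniz_pow, ← Nat.cast_smul_eq_nsmul (PowerSeries (ZMod p)),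
        CharP.cast_eq_zero, zero_smul]
    · refine ⟨0, ?_⟩
      have h1 : S.f 0 = 1 := by
        unfold Sys.f
        rw [hS.ν0, pow_zero, pow_zero, one_mul]
      rw [h1, map_one, one_pow]
      exact one_ne_zero
  · exact X_pow_dvd_det hM D _ hu hD _

end Pool.Agent.H37.NF
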