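import Pool.Agent.H37.NF.BrEx
import Pool.Agent.H37.NF.SliceG
import Pool.Agent.H37.NF.Psi
import Pool.Agent.H37.NF.ExW
import Pool.Agent.H37.NF.RelDvd
import Pool.Agent.H37.NF.RelCard
import Pool.Agent.H76.NN.ChA

/-! MODULE Classes (about 150 lines). Paper 3.7: the number of residue classes.

Let `K = GG.image (affp p)`. For `κ ∈ K` choose a good point of that class: `exists_branch` gives `φ κ` with `Branch S I p κ (φ κ)` (choose a default outside `K`), `aeval κ S.E ≠ 0`, so `aeval κ S.eta1 ≠ 0`, `(S.O.1 : ZMod p) ≠ 0` (if `K` is empty the statement is trivial). `exists_W` with `ψ κ = (sl r p).comp (φ κ)`,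
`t = S.eta1` (`eta0`) and `M = S.M`; `psi_branch`, `slice_G`. `rel_dvd` + `rel_card`: let `c` bound all `(Wp κ i).totalDegree` for `κ ∈ K`. For every finite `U ⊆ (Fin r → ℕ) × ℕ` with `p * ∑ w.1 + g0 * w.2 ≤ t` for `w ∈ U`: the family indexed by `K × Fin S.M × U` has degrees `≤ t + c` (`psi_degree`, `(S.G p).totalDegree ≤ g0`,
`totalDegree_mul_le`, `totalDegree_pow_le`), so `K.card * S.M * U.card ≤ hf I (t + c) ≤ δ * ((t + c) + c' + (r + 1)).choose (r + 1)`. `Pool.H76.NN.count_compare` with `T = K.card * S.M`, `q = r` gives the claim (`1 ≤ p`, `1 ≤ g0`). -/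

set_option autoImplicit false

namespace Pool.Agent.H37.NF

open MvPolynomial Pool.H76.NN

variable {σ : Type} [Fintype σ] [DecidableEq σ] {r : ℕ} {S : Sys σ r}
  {I : Ideal (MvPolynomial σ ℚ)} {b0 : ℕ}

theorem classes (hS : S.Good I b0) {p : ℕ} [Fact p.Prime] (hM : S.M < p) {δ c g0 : ℕ}
    (hδ : ∀ t, hf I t ≤ δ * (t + c + (r + 1)).choose (r + 1)) (hg : 1 ≤ g0)
    (hG : (S.G p).totalDegree ≤ g0) (GG : Finset (Pt σ))
    (hGG : ∀ P ∈ GG, GoodPt S I p P) :
    (GG.image (affp p)).card * S.M ≤ δ * p ^ r * g0 := by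
  classical
  have hp : p.Prime := Fact.out
  have := hS.prime
  rcases GG.eq_empty_or_nonempty with hemp | ⟨P0, hP0⟩
  · subst hemp; simp
  set K := GG.image (affp p) with hK
  have hO : (S.O.1 : ZMod p) ≠ 0 := by
    intro h
    exact (hGG P0 hP0).O0 ((ZMod.intCast_zmod_eq_zero_iff_dvd _ _).mp h)
  have hex : ∀ κ ∈ K, ∃ φ : MvPolynomial σ ℤ →+* PP r p, Branch S I p κ φ ∧ aeval κ S.E ≠ 0 := by
    intro κ hκ
    obtain ⟨P, hP, rfl⟩ := Finset.mem_image.mp hκ
    obtain ⟨φ, hφ⟩ := exists_branch hS (hGG P hP)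
    exact ⟨φ, hφ, (hGG P hP).E0⟩
  have : Nonempty (MvPolynomial σ ℤ →+* PP r p) := by
    obtain ⟨φ, _⟩ := hex _ (Finset.mem_image_of_mem (affp p) hP0)
    exact ⟨φ⟩
  choose! φ hφ hE using hex
  have heta : ∀ κ ∈ K, aeval κ S.eta1 ≠ 0 := by
    intro κ hκ h
    apply hE κ hκ
    unfold Sys.E
    rw [map_mul, h, mul_zero]
  obtain ⟨Wp, hWp⟩ := exists_W K (fun κ => (sl r p).comp (φ κ))
    (fun κ hκ g => (hφ κ hκ).pt g) S.eta1
    (fun κ hκ => ⟨aeval κ S.eta1, (S.O.1 : ZMod p), hO, by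
      rw [RingHom.comp_apply, (hφ κ hκ).eta0]
      exact MvPowerSeries.constantCoeff_C _⟩) S.M
  -- the degree bound
  set cW : ℕ := K.sup fun κ => Finset.univ.sup fun i => (Wp κ i).totalDegree with hcW
  have hcW' : ∀ κ ∈ K, ∀ i, (Wp κ i).totalDegree ≤ cW := by
    intro κ hκ i
    refine le_trans ?_ (Finset.le_sup (f := fun κ => Finset.univ.sup fun i => (Wp κ i).totalDegree) hκ)
    exact Finset.le_sup (f := fun i => (Wp κ i).totalDegree) (Finset.mem_univ i)
  have hmain : K.card * S.M ≤ δ * p ^ r * g0 := by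
    refine count_compare (c := cW + c) hp.one_le hg fun t U hU => ?_
    -- the family
    let v : K × Fin S.M × U → MvPolynomial σ ℤ := fun s =>
      Wp s.1 s.2.1 * (∏ j, psi S p j ^ s.2.2.1.1 j) * S.G p ^ s.2.2.1.2
    have hv : ∀ s, (v s).totalDegree ≤ t + cW := by
      rintro ⟨⟨κ, hκ⟩, i, ⟨w, hw⟩⟩
      show (Wp κ i * (∏ j, psi S p j ^ w.1 j) * S.G p ^ w.2).totalDegree ≤ t + cW
      have h1 := hcW' κ hκ i
      have h2 : (∏ j, psi S p j ^ w.1 j).totalDegree ≤ p * ∑ j, w.1 j := by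
        refine (totalDegree_finsetProd _ _).trans ?_
        rw [Finset.mul_sum]
        refine Finset.sum_le_sum fun j _ => ?_
        refine (totalDegree_pow _ _).trans ?_
        rw [mul_comm]
        exact Nat.mul_le_mul_right _ (psi_degree S p j)
      have h3 : (S.G p ^ w.2).totalDegree ≤ g0 * w.2 := by
        refine (totalDegree_pow _ _).trans ?_
        rw [mul_comm]
        exact Nat.mul_le_mul_right _ hG
      have h4 := hU w hw
      refine (totalDegree_mul _ _).trans ?_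
      have h5 := totalDegree_mul (Wp κ i) (∏ j, psi S p j ^ w.1 j)
      omega
    have hrel : ∀ x : K × Fin S.M × U → ℤ, toQ (∑ s, C (x s) * v s) ∈ I → ∀ s, (p : ℤ) ∣ x s := by
      intro x hx
      let x' : (σ → ZMod p) → Fin S.M → (Fin r → ℕ) × ℕ → ℤ := fun κ i w =>
        if h : κ ∈ K ∧ w ∈ U then x (⟨κ, h.1⟩, i, ⟨w, h.2⟩) else 0
      have hsum : ∑ s, C (x s) * v s = ∑ κ ∈ K, ∑ i, ∑ w ∈ U,
          C (x' κ i w) * (Wp κ i * (∏ j, psi S p j ^ w.1 j) * S.G p ^ w.2) := by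
        rw [Fintype.sum_prod_type]
        rw [← Finset.sum_coe_sort K]
        refine Finset.sum_congr rfl fun κ _ => ?_
        rw [Fintype.sum_prod_type]
        refine Finset.sum_congr rfl fun i _ => ?_
        rw [← Finset.sum_coe_sort U]
        refine Finset.sum_congr rfl fun w _ => ?_
        have : x' κ i w = x (κ, i, w) := by
          show (if h : (κ : σ → ZMod p) ∈ K ∧ (w : (Fin r → ℕ) × ℕ) ∈ U then _ else 0) = _
          rw [dif_pos ⟨κ.2, w.2⟩]
        rw [this]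
      rw [hsum] at hx
      have key := rel_dvd I K φ (fun κ hκ g hg => (hφ κ hκ).kill g hg) (psi S p)
        (fun κ hκ j => psi_branch (heta κ hκ) hO (hφ κ hκ) j) (S.G p)
        (fun κ hκ => slice_G hS hM (hE κ hκ) (hφ κ hκ)) Wp
        (fun κ hκ x hx => hWp κ hκ x hx) U x' hx
      rintro ⟨⟨κ, hκ⟩, i, ⟨w, hw⟩⟩
      have h1 := key κ hκ i w hw
      have : x' κ i w = x (⟨κ, hκ⟩, i, ⟨w, hw⟩) := by
        show (if h : κ ∈ K ∧ w ∈ U then _ else 0) = _
        rw [dif_pos ⟨hκ, hw⟩]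
      rwa [this] at h1
    have hcard := rel_card hp.one_lt I v (t + cW) hv hrel
    rw [Fintype.card_prod, Fintype.card_prod, Fintype.card_fin, Fintype.card_coe,
      Fintype.card_coe] at hcard
    calc K.card * S.M * U.card = K.card * (S.M * U.card) := by ring
      _ ≤ hf I (t + cW) := hcard
      _ ≤ δ * (t + cW + c + (r + 1)).choose (r + 1) := hδ _
      _ = δ * (t + (cW + c) + (r + 1)).choose (r + 1) := by rw [add_assoc t cW c]
  exact hmain

end Pool.Agent.H37.NF
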