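import Mathlib
import Pool.Agent.H34.NA.Formal
import Pool.Agent.H76.NN.Defs

/-! # Auxiliary polynomials (section 3 of `h76_n64_paper.md`): Jacobians and the derivation `DD`

A square system `F : σ → MvPolynomial σ B` (equations and linear forms together); the linear forms
are the members `F (e j)`, `j : Fin r`, for an injective `e : Fin r → σ`. `JM F` is the Jacobian
matrix, `J F` its determinant, `dj F i g` is the determinant of `JM F` with row `i` replaced by the
differential of `g` (a derivation in `g`). -/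

set_option autoImplicit false

namespace Pool.Agent.H37.NF

open MvPolynomial Pool.H76.NN

lemma der_sum {B A M ι : Type*} [CommSemiring B] [CommSemiring A] [Algebra B A] [AddCommMonoid M]
    [Module A M] [Module B M] [IsScalarTower B A M] (s : Finset ι) (D : ι → Derivation B A M)
    (g : A) : (∑ l ∈ s, D l) g = ∑ l ∈ s, D l g := by
  classical
  induction s using Finset.induction_on with
  | empty => simp
  | insert a s ha ih => rw [Finset.sum_insert ha, Finset.sum_insert ha, Derivation.add_apply, ih]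

section jac

variable {σ B : Type*} [Fintype σ] [DecidableEq σ] [CommRing B]

/-- the Jacobian matrix -/
noncomputable def JM (F : σ → MvPolynomial σ B) : Matrix σ σ (MvPolynomial σ B) :=
  Matrix.of fun i l => pderiv l (F i)

/-- the Jacobian determinant -/
noncomputable def J (F : σ → MvPolynomial σ B) : MvPolynomial σ B := (JM F).det

/-- the derivation `g ↦ det (JM F with row i replaced by dg)` -/
noncomputable def dj (F : σ → MvPolynomial σ B) (i : σ) :
    Derivation B (MvPolynomial σ B) (MvPolynomial σ B) :=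
  ∑ l, (JM F).adjugate l i • pderiv l

omit [Fintype σ] [DecidableEq σ] in
lemma JM_apply (F : σ → MvPolynomial σ B) (i l : σ) : JM F i l = pderiv l (F i) := rfl

lemma dj_apply (F : σ → MvPolynomial σ B) (i : σ) (g : MvPolynomial σ B) :
    dj F i g = ∑ l, (JM F).adjugate l i * pderiv l g := by
  rw [dj, der_sum]
  rfl

lemma dj_eq_det (F : σ → MvPolynomial σ B) (i : σ) (g : MvPolynomial σ B) :
    dj F i g = ((JM F).updateRow i fun l => pderiv l g).det := by
  rw [dj_apply, ← Matrix.cramer_transpose_apply, Matrix.cramer_eq_adjugate_mulVec,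
    ← Matrix.adjugate_transpose, Matrix.mulVec, dotProduct]
  rfl

end jac

section wr

variable {R : Type*}

/-- the matrix `(D^i (F j))` -/
def wr {M : ℕ} (D : R → R) (F : Fin M → R) : Matrix (Fin M) (Fin M) R :=
  Matrix.of fun i j => D^[(i : ℕ)] (F j)

/-- the matrix with row `0` equal to `G` and row `i + 1` equal to `D^i F` -/
def wrG {M : ℕ} (D : R → R) (G F : Fin (M + 1) → R) : Matrix (Fin (M + 1)) (Fin (M + 1)) R :=
  Matrix.of fun i j => Fin.cases (G j) (fun i' : Fin M => D^[(i' : ℕ)] (F j)) i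

lemma wr_apply {M : ℕ} (D : R → R) (F : Fin M → R) (i j : Fin M) :
    wr D F i j = D^[(i : ℕ)] (F j) := rfl

lemma wrG_zero {M : ℕ} (D : R → R) (G F : Fin (M + 1) → R) (j : Fin (M + 1)) :
    wrG D G F 0 j = G j := rfl

lemma wrG_succ {M : ℕ} (D : R → R) (G F : Fin (M + 1) → R) (i : Fin M) (j : Fin (M + 1)) :
    wrG D G F i.succ j = D^[(i : ℕ)] (F j) := rfl

end wr

section lin

variable {σ : Type} [Fintype σ] [DecidableEq σ]

/-- value of the linear form `y` at the vector part of the integral point `P` -/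
def lval (y : σ → ℤ) (P : Pt σ) : ℤ := ∑ l, y l * P.2 l

/-- `eta O y = O_0 * lf y - lval y O` -/
noncomputable def eta (O : Pt σ) (y : σ → ℤ) : MvPolynomial σ ℤ :=
  C O.1 * lf y - C (lval y O)

/-- integral polynomials as rational polynomials -/
noncomputable abbrev toQ : MvPolynomial σ ℤ →+* MvPolynomial σ ℚ :=
  MvPolynomial.map (Int.castRingHom ℚ)

/-- the derivation `DD g = ∑ j, eta_j * dj F (e j) g` -/
noncomputable def DD {r : ℕ} (F : σ → MvPolynomial σ ℤ) (e : Fin r → σ) (y : Fin r → σ → ℤ)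
    (O : Pt σ) : Derivation ℤ (MvPolynomial σ ℤ) (MvPolynomial σ ℤ) :=
  ∑ j, eta O (y j) • dj F (e j)

lemma DD_apply {r : ℕ} (F : σ → MvPolynomial σ ℤ) (e : Fin r → σ) (y : Fin r → σ → ℤ)
    (O : Pt σ) (g : MvPolynomial σ ℤ) :
    DD F e y O g = ∑ j, eta O (y j) * dj F (e j) g := by
  rw [DD, der_sum]
  rfl

end lin

section sys

open Finset

/-- The data of section 3: `F` system of integral polynomials, `e` the indices of the `r + 1`
linear forms `y`, `c` the form of the primitive element, `O` the base point, `ν` the `M + 1`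
exponents `(a, b)`. (`dim I = r + 1`.) -/
structure Sys (σ : Type) (r : ℕ) where
  F : σ → MvPolynomial σ ℤ
  e : Fin (r + 1) → σ
  y : Fin (r + 1) → σ → ℤ
  c : σ → ℤ
  O : Pt σ
  M : ℕ
  ν : Fin (M + 1) → ℕ × ℕ

namespace Sys

variable {σ : Type} [Fintype σ] [DecidableEq σ] {r : ℕ} (S : Sys σ r)

/-- the derivation `DD` -/
noncomputable def D : Derivation ℤ (MvPolynomial σ ℤ) (MvPolynomial σ ℤ) :=
  DD S.F S.e S.y S.O

/-- the functions `f_(a,b) = y_1^a * c^b` -/
noncomputable def f (j : Fin (S.M + 1)) : MvPolynomial σ ℤ :=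
  lf (S.y 0) ^ (S.ν j).1 * lf S.c ^ (S.ν j).2

/-- `omega` -/
noncomputable def om : MvPolynomial σ ℤ := (wr S.D S.f).det

/-- `eta_1` -/
noncomputable def eta1 : MvPolynomial σ ℤ := eta S.O (S.y 0)

/-- `E = J * omega * eta_1` -/
noncomputable def E : MvPolynomial σ ℤ := J S.F * S.om * S.eta1

/-- the determinant `G` of 3.7 -/
noncomputable def G (p : ℕ) : MvPolynomial σ ℤ :=
  (wrG S.D (fun j => S.f j ^ p) S.f).det

/-- the system over `ℚ` -/
noncomputable def FQ (i : σ) : MvPolynomial σ ℚ := toQ (S.F i)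

/-- the linear forms over `ℚ` -/
noncomputable def yQ (j : Fin (r + 1)) : MvPolynomial σ ℚ := toQ (lf (S.y j))

/-- the primitive element over `ℚ` -/
noncomputable def cQ : MvPolynomial σ ℚ := toQ (lf S.c)

/-- the hypotheses on the data, for the prime ideal `I` -/
structure Good (I : Ideal (MvPolynomial σ ℚ)) (b0 : ℕ) : Prop where
  prime : I.IsPrime
  inj : Function.Injective S.e
  form : ∀ j, S.F (S.e j) = lf (S.y j)
  eqs : ∀ i, i ∉ Set.range S.e → S.FQ i ∈ I
  der : ∀ j, ∀ g ∈ I, dj S.FQ (S.e j) g ∈ I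
  max : ∀ K : Ideal (MvPolynomial σ ℚ), K.IsPrime → I ≤ K →
    (∀ q : MvPolynomial (Fin (r + 1)) ℚ, aeval S.yQ q ∈ K → q = 0) → K = I
  pow : ∀ a : ℕ → MvPolynomial (Fin (r + 1)) ℚ,
    ∑ b ∈ range (b0 + 1), aeval S.yQ (a b) * S.cQ ^ b ∈ I → ∀ b ≤ b0, a b = 0
  O0 : S.O.1 ≠ 0
  Ovan : OnV I S.O
  JO : eval (aff S.O) (toQ (J S.F)) ≠ 0
  νinj : Function.Injective S.ν
  ν0 : S.ν 0 = (0, 0)
  νb : ∀ j, (S.ν j).2 ≤ b0

lemma D_apply (g : MvPolynomial σ ℤ) :
    S.D g = ∑ j, eta S.O (S.y j) * dj S.F (S.e j) g := DD_apply _ _ _ _ _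

end Sys

end sys

end Pool.Agent.H37.NF
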