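import Mathlib

/-! MODULE DegSum (about 130 lines). Sum of degrees of different exponents (3.8).

`card_simplex`: for every finite set `W` of vectors `a : Fin q → ℕ` with `∑ a ≤ s`: `W.card ≤ (s + q).choose q` (induction on `q`, or an injection into `Finset.powersetCard`/`Sym`: e.g. `Sym.card_sym_eq_choose` with the slack variable; compare
`exists_tuples` in `Pool/Agent/H76/NN/ChA.lean`). `degsum`: for a class `c` let `GG_c` be the members with `cl = c`; `∑_(j in GG_c) (g - |α j|)` (natural subtraction) is the number of pairs `(j, i)`, `j ∈ GG_c`, `i < g - |α j|`, which is at most the number of pairs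
`(a, i)`, `a : Fin r → ℕ`, `i : ℕ` with `|a| + i ≤ g - 1` (`α` is injective on the class), at most `(g - 1 + (r + 1)).choose (r + 1) = (g + r).choose (r + 1)` for `g ≥ 1` (`card_simplex` with `q = r + 1`). `g = 0` is trivial.
Then `g * GG_c.card ≤ ∑_(GG_c) (|α j| + (g - |α j|))`; sum over the classes (`Finset.sum_fiberwise_of_maps_to`, `Finset.card_eq_sum_card_image`). -/

set_option autoImplicit false

namespace Pool.Agent.H37.NF

theorem card_simplex {q s : ℕ} (W : Finset (Fin q → ℕ)) (hW : ∀ a ∈ W, ∑ i, a i ≤ s) :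
    W.card ≤ (s + q).choose q := by
  classical
  induction q generalizing s with
  | zero =>
    have h1 : W.card ≤ 1 := Finset.card_le_one.mpr fun a _ b _ => Subsingleton.elim a b
    simpa using h1
  | succ q ih =>
    have hmap : ∀ a ∈ W, s - a 0 ∈ Finset.range (s + 1) := fun a _ => by
      rw [Finset.mem_range]; omega
    rw [Finset.card_eq_sum_card_fiberwise hmap, show s + (q + 1) = s + q + 1 by ring,
      ← Nat.sum_range_add_choose]
    refine Finset.sum_le_sum fun x hx => ?_
    have hinj : Set.InjOn (fun a : Fin (q + 1) → ℕ => Fin.tail a)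
        (W.filter fun a => s - a 0 = x) := by
      intro a ha b hb hab
      simp only [Finset.coe_filter, Set.mem_ofPred_eq] at ha hb
      have h1 := hW a ha.1
      have h2 := hW b hb.1
      rw [Fin.sum_univ_succ] at h1 h2
      have h3 : a 0 = b 0 := by omega
      rw [← Fin.cons_self_tail a, ← Fin.cons_self_tail b, h3]
      have h4 : Fin.tail a = Fin.tail b := hab
      rw [h4]
    rw [← Finset.card_image_of_injOn hinj]
    refine ih _ fun b hb => ?_
    obtain ⟨a, ha, rfl⟩ := Finset.mem_image.mp hb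
    rw [Finset.mem_filter] at ha
    have h1 := hW a ha.1
    rw [Fin.sum_univ_succ] at h1
    have h2 : ∑ i, Fin.tail a i = ∑ i : Fin q, a i.succ := rfl
    omega

theorem degsum {r : ℕ} {ι κ : Type*} [DecidableEq κ] (GG : Finset ι) (cl : ι → κ)
    (α : ι → Fin r → ℕ)
    (hinj : ∀ i ∈ GG, ∀ j ∈ GG, cl i = cl j → α i = α j → i = j) (g : ℕ) :
    g * GG.card ≤ (∑ j ∈ GG, ∑ i, α j i) + (GG.image cl).card * (g + r).choose (r + 1) := by
  classical
  rcases Nat.eq_zero_or_pos g with hg | hg
  · subst hg; simp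
  have hcl : ∀ c ∈ GG.image cl,
      ∑ j ∈ GG.filter (fun j => cl j = c), (g - ∑ i, α j i) ≤ (g + r).choose (r + 1) := by
    intro c _
    have h1 : ∑ j ∈ GG.filter (fun j => cl j = c), (g - ∑ i, α j i)
        = ((GG.filter (fun j => cl j = c)).sigma fun j => Finset.range (g - ∑ i, α j i)).card := by
      rw [Finset.card_sigma]
      exact Finset.sum_congr rfl fun j _ => (Finset.card_range _).symm
    have hinj2 : Set.InjOn (fun p : (_ : ι) × ℕ => (Fin.cons p.2 (α p.1) : Fin (r + 1) → ℕ))
        ((GG.filter (fun j => cl j = c)).sigma fun j => Finset.range (g - ∑ i, α j i)) := by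
      rintro ⟨a, x⟩ ha ⟨b, y⟩ hb hab
      simp only [Finset.coe_sigma, Set.mem_sigma_iff, Finset.coe_filter, Set.mem_ofPred_eq] at ha hb
      obtain ⟨hxy, hα⟩ := Fin.cons_inj.mp hab
      have hj := hinj a ha.1.1 b hb.1.1 (by rw [ha.1.2, hb.1.2]) hα
      simp only at hxy
      subst hj
      subst hxy
      rfl
    rw [h1, ← Finset.card_image_of_injOn hinj2]
    have h2 : g + r = g - 1 + (r + 1) := by omega
    rw [h2]
    refine card_simplex _ fun v hv => ?_
    obtain ⟨⟨a, x⟩, hp, rfl⟩ := Finset.mem_image.mp hv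
    rw [Finset.mem_sigma, Finset.mem_range] at hp
    have h3 := hp.2
    simp only at h3
    rw [Fin.sum_univ_succ]
    simp only [Fin.cons_zero, Fin.cons_succ]
    omega
  have hs : ∑ j ∈ GG, (g - ∑ i, α j i) ≤ (GG.image cl).card * (g + r).choose (r + 1) := by
    rw [← Finset.sum_fiberwise_of_maps_to (g := cl) (t := GG.image cl)
      (fun j hj => Finset.mem_image_of_mem cl hj)]
    refine (Finset.sum_le_sum hcl).trans ?_
    rw [Finset.sum_const, smul_eq_mul]
  calc g * GG.card = ∑ _j ∈ GG, g := by rw [Finset.sum_const, smul_eq_mul, mul_comm]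
    _ ≤ ∑ j ∈ GG, ((∑ i, α j i) + (g - ∑ i, α j i)) := Finset.sum_le_sum fun j _ => by omega
    _ = (∑ j ∈ GG, ∑ i, α j i) + ∑ j ∈ GG, (g - ∑ i, α j i) := Finset.sum_add_distrib
    _ ≤ _ := Nat.add_le_add_left hs _

end Pool.Agent.H37.NF
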