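import Pool.Agent.H37.NF.DegSum

/-! MODULE DetCol (about 140 lines). Determinants whose columns are polynomial values at points divisible by `π` (3.8).

Write `A i j = ∑_(α in supp) coeff α (Z (cl j) i) * (c j * ∏ l, (t j l)^(α l))` for `j` in `GG` (finite set `Ω` of exponents `Fin r →₀ ℕ` containing all supports). `det A = det Aᵀ`, multilinear in the rows of `Aᵀ` (= columns of `A`); expand the rows with `j` in `GG`
(`MultilinearMap.map_sum_finset` or `map_sum` applied to `Matrix.detRowAlternating`; for `j` not in `GG` use a one-element index set). A term is given by a function `α : GG → Ω`; the `j`-th row is `(c j * ∏ (t j l)^(α j l)) • (coeff (α j) (Z (cl j) i))_i`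
(`AlternatingMap.map_smul_univ`, or `Matrix.det_mul_row`/`det_mul_column`). If `cl j = cl j'` and `α j = α j'` for two different `j, j'` in `GG`, two rows of the remaining determinant are equal: the term is `0` (`Matrix.det_zero_of_row_eq`). Otherwise `degsum` gives
`g * GG.card ≤ ∑_(GG) |α j| + T * choose`, so `N ≤ ∑_(GG) |α j|`, and the product of the scalars is divisible by `π^N = 0`. -/

set_option autoImplicit false

namespace Pool.Agent.H37.NF

open MvPolynomial

theorem det_zero_of_classes {B : Type*} [CommRing B] {s r : ℕ} {κ : Type*} [DecidableEq κ]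
    (π : B) (N : ℕ) (hπ : π ^ N = 0) (A : Matrix (Fin s) (Fin s) B) (GG : Finset (Fin s))
    (cl : Fin s → κ) (Z : κ → Fin s → MvPolynomial (Fin r) B) (t : Fin s → Fin r → B)
    (ht : ∀ j ∈ GG, ∀ i, π ∣ t j i) (c : Fin s → B)
    (hA : ∀ j ∈ GG, ∀ i, A i j = c j * eval (t j) (Z (cl j) i)) (g : ℕ)
    (hN : N + (GG.image cl).card * (g + r).choose (r + 1) ≤ g * GG.card) : A.det = 0 := by
  classical
  -- all exponents
  set Ω : Finset (Fin r →₀ ℕ) := GG.biUnion fun j => Finset.univ.biUnion fun i =>
    (Z (cl j) i).support with hΩ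
  -- scalars and vectors
  set sc : Fin s → (Fin r →₀ ℕ) → B := fun j α =>
    if j ∈ GG then c j * ∏ l, t j l ^ α l else 1 with hsc
  set w : Fin s → (Fin r →₀ ℕ) → Fin s → B := fun j α =>
    if j ∈ GG then fun i => coeff α (Z (cl j) i) else fun i => A i j with hw
  set S : Fin s → Finset (Fin r →₀ ℕ) := fun j => if j ∈ GG then Ω else {0} with hS
  have hrow : (fun j => (fun i => A i j : Fin s → B)) = fun j => ∑ α ∈ S j, sc j α • w j α := by
    funext j i
    by_cases hj : j ∈ GG
    · simp only [hS, hsc, hw, if_pos hj]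
      rw [Finset.sum_apply]
      simp only [Pi.smul_apply, smul_eq_mul]
      rw [hA j hj i, eval_eq', Finset.mul_sum]
      have hsub : (Z (cl j) i).support ⊆ Ω := by
        intro α hα
        rw [hΩ, Finset.mem_biUnion]
        exact ⟨j, hj, Finset.mem_biUnion.mpr ⟨i, Finset.mem_univ _, hα⟩⟩
      rw [Finset.sum_subset hsub]
      · exact Finset.sum_congr rfl fun α _ => by ring
      · intro α _ hα
        rw [notMem_support_iff.mp hα]
        ring
    · simp only [hS, hsc, hw, if_neg hj]
      rw [Finset.sum_singleton, one_smul]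
  have h0 : A.det = (Matrix.detRowAlternating (R := B) (n := Fin s)).toMultilinearMap
      (fun j => (fun i => A i j : Fin s → B)) := by
    rw [← Matrix.det_transpose]
    rfl
  rw [h0, hrow, MultilinearMap.map_sum_finset]
  refine Finset.sum_eq_zero fun β _ => ?_
  rw [MultilinearMap.map_smul_univ]
  by_cases hrep : ∃ j ∈ GG, ∃ j' ∈ GG, cl j = cl j' ∧ (β j : Fin r → ℕ) = β j' ∧ j ≠ j'
  · obtain ⟨j, hj, j', hj', h1, h2, hne⟩ := hrep
    have h3 : (Matrix.detRowAlternating (R := B) (n := Fin s)).toMultilinearMap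
        (fun j => w j (β j)) = 0 := by
      refine AlternatingMap.map_eq_zero_of_eq _ _ ?_ hne
      have h4 : β j = β j' := DFunLike.coe_injective h2
      simp only [hw, if_pos hj, if_pos hj']
      rw [h1, h4]
    rw [h3, smul_zero]
  · have hinj : ∀ i ∈ GG, ∀ j ∈ GG, cl i = cl j →
        (fun l => β i l : Fin r → ℕ) = (fun l => β j l) → i = j := by
      intro i hi j hj h1 h2
      by_contra hne
      exact hrep ⟨i, hi, j, hj, h1, h2, hne⟩
    have h5 := degsum GG cl (fun j l => β j l) hinj g
    have h6 : N ≤ ∑ j ∈ GG, ∑ i, β j i := by omega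
    have h7 : ∏ j, sc j (β j) = ∏ j ∈ GG, (c j * ∏ l, t j l ^ β j l) := by
      rw [← Finset.prod_subset (Finset.subset_univ GG)]
      · exact Finset.prod_congr rfl fun j hj => by simp only [hsc, if_pos hj]
      · intro j _ hj
        simp only [hsc, if_neg hj]
    have h8 : π ^ (∑ j ∈ GG, ∑ i, β j i) ∣ ∏ j, sc j (β j) := by
      rw [h7, ← Finset.prod_pow_eq_pow_sum]
      refine Finset.prod_dvd_prod_of_dvd _ _ fun j hj => ?_
      refine Dvd.dvd.mul_left ?_ _
      rw [← Finset.prod_pow_eq_pow_sum]
      exact Finset.prod_dvd_prod_of_dvd _ _ fun l _ => pow_dvd_pow_of_dvd (ht j hj l) _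
    have h9 : ∏ j, sc j (β j) = 0 := by
      have h10 : π ^ (∑ j ∈ GG, ∑ i, β j i) = 0 := pow_eq_zero_of_le h6 hπ
      rw [h10, zero_dvd_iff] at h8
      exact h8
    rw [h9, zero_smul]

end Pool.Agent.H37.NF
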