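import Pool.Agent.H37.NF.Chain
import Pool.Agent.H34.NA.Hensel

/-! MODULE Newt (about 130 lines). Polynomial parametrisation of the solutions near a point (nilpotent Newton iteration), for 3.8.

Let `m₀ = fun i l => eval P (pderiv l (F i))`, an invertible matrix (`IsUnit (eval P (J F))`, `eval P (J F) = det m₀`, `RingHom.map_det`), `N` its inverse (`Matrix.nonsing_inv`). Define polynomial vectors `Z_k : σ → MvPolynomial (Fin r) B`:
`Z_0 l = C (P l)`, `Z_(k+1) l = Z_k l - ∑ i, C (N l i) * (aeval Z_k (F i) - C (eval P (F i)) - T i)`, where `T i = X j` if `i = e j`, `T i = 0` if `i` is not in the range of `e`. Let `z` be as in the statement and `t j = eval z (F (e j)) - eval P (F (e j))`, which is divisible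
by `π` (`eval_sub_mem`). Claim by induction: `π^(k+1)` divides `z l - eval t (Z_k l)` for all `l`. `k = 0`: hypothesis. Step: put `w = eval t (Z_k ·)` (a point of `B^σ`), `h = z - w`, divisible by `π^(k+1)`. By `taylor_one` (ideal `span {π^(k+1)}`)
`F_i(z) - F_i(w) - ∑ l, h l * eval w (pderiv l (F i))` is in `span {π^(k+1)}^2`, so divisible by `π^(k+2)` (`2(k+1) ≥ k+2`); `eval w (pderiv l (F i)) - m₀ i l` is divisible by `π` (`w ≡ P` mod `π`). `F_i(z) = F_i(P) + T_i(t)` for all `i`. So
`F_i(w) - F_i(P) - T_i(t) ≡ - ∑ l, m₀ i l * h l` mod `π^(k+2)`, and `eval t (Z_(k+1) l) ≡ w l + h l = z l`. For `π^(k+1) = 0` this is the claim. -/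

set_option autoImplicit false

namespace Pool.Agent.H37.NF

open MvPolynomial

private theorem newt_comp {B : Type*} [CommRing B] {σ : Type*} {r : ℕ} (t : Fin r → B)
    (Z : σ → MvPolynomial (Fin r) B) (g : MvPolynomial σ B) :
    eval t (aeval Z g) = eval (fun l => eval t (Z l)) g := by
  induction g using MvPolynomial.induction_on with
  | C a => simp
  | add p q hp hq => simp only [map_add, hp, hq]
  | mul_X p i hp => simp only [map_mul, aeval_X, eval_X, hp]

/-- the Newton iterates -/
private noncomputable def newtZ {B : Type*} [CommRing B] {σ : Type*} [Fintype σ] {r : ℕ}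
    (F : σ → MvPolynomial σ B) (T : σ → MvPolynomial (Fin r) B) (P : σ → B) (N : Matrix σ σ B) :
    ℕ → σ → MvPolynomial (Fin r) B
  | 0 => fun l => C (P l)
  | k + 1 => fun l => newtZ F T P N k l -
      ∑ i, C (N l i) * (aeval (newtZ F T P N k) (F i) - C (eval P (F i)) - T i)

private theorem newt_step {B : Type*} [CommRing B] {σ : Type*} [Fintype σ] [DecidableEq σ] {r : ℕ}
    (F : σ → MvPolynomial σ B) (T : σ → MvPolynomial (Fin r) B) (P : σ → B) (N : Matrix σ σ B)
    (hN : N * Matrix.of (fun i l => eval P (pderiv l (F i))) = 1) (π : B) (z : σ → B)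
    (t : Fin r → B) (hz : ∀ l, π ∣ z l - P l)
    (hT : ∀ i, eval z (F i) - eval P (F i) = eval t (T i)) (k : ℕ) :
    ∀ l, π ^ (k + 1) ∣ z l - eval t (newtZ F T P N k l) := by
  induction k with
  | zero =>
    intro l
    rw [zero_add, pow_one, newtZ, eval_C]
    exact hz l
  | succ k ih =>
    intro l
    set w : σ → B := fun l => eval t (newtZ F T P N k l) with hw
    have hπw : ∀ l, π ∣ w l - P l := by
      intro l
      have h1 : π ∣ z l - w l := (dvd_pow_self π (Nat.succ_ne_zero k)).trans (ih l)
      have h2 := dvd_sub (hz l) h1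
      rwa [sub_sub_sub_cancel_left] at h2
    have key : ∀ i, π ^ (k + 2) ∣ (eval w (F i) - eval P (F i) - eval t (T i)) +
        ∑ b, eval P (pderiv b (F i)) * (z b - w b) := by
      intro i
      have h1 := Pool.Agent.H34.NA.taylor_one (Ideal.span {π ^ (k + 1)}) w z
        (fun b => Ideal.mem_span_singleton.mpr (ih b)) (F i)
      rw [Ideal.span_singleton_pow, Ideal.mem_span_singleton, ← pow_mul] at h1
      have h2 : π ^ (k + 2) ∣ eval z (F i) - eval w (F i) -
          ∑ b, (z b - w b) * eval w (pderiv b (F i)) :=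
        (pow_dvd_pow π (by omega)).trans h1
      have h3 : π ^ (k + 2) ∣ ∑ b, (z b - w b) *
          (eval w (pderiv b (F i)) - eval P (pderiv b (F i))) := by
        refine Finset.dvd_sum fun b _ => ?_
        have h4 : π ∣ eval w (pderiv b (F i)) - eval P (pderiv b (F i)) :=
          Ideal.mem_span_singleton.mp (Pool.Agent.H34.NA.eval_sub_mem (Ideal.span {π}) P w
            (fun b => Ideal.mem_span_singleton.mpr (hπw b)) _)
        rw [show k + 2 = (k + 1) + 1 by omega, pow_succ]
        exact mul_dvd_mul (ih b) h4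
      have h5 : (eval w (F i) - eval P (F i) - eval t (T i)) +
          ∑ b, eval P (pderiv b (F i)) * (z b - w b) =
          -(eval z (F i) - eval w (F i) - ∑ b, (z b - w b) * eval w (pderiv b (F i))) -
          ∑ b, (z b - w b) * (eval w (pderiv b (F i)) - eval P (pderiv b (F i))) := by
        rw [← hT i]
        simp only [mul_sub, Finset.sum_sub_distrib]
        have h6 : ∑ b, (z b - w b) * eval P (pderiv b (F i)) =
            ∑ b, eval P (pderiv b (F i)) * (z b - w b) :=
          Finset.sum_congr rfl fun b _ => mul_comm _ _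
        simp only [mul_sub, Finset.sum_sub_distrib] at h6
        linear_combination -h6
      rw [h5]
      exact dvd_sub ((dvd_neg).mpr h2) h3
    have h7 : ∑ i, N l i * ∑ b, eval P (pderiv b (F i)) * (z b - w b) = z l - w l := by
      have h8 : ∀ i, N l i * ∑ b, eval P (pderiv b (F i)) * (z b - w b) =
          ∑ b, N l i * eval P (pderiv b (F i)) * (z b - w b) := by
        intro i
        rw [Finset.mul_sum]
        exact Finset.sum_congr rfl fun b _ => by ring
      rw [Finset.sum_congr rfl fun i _ => h8 i, Finset.sum_comm]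
      have h9 : ∀ b, ∑ i, N l i * eval P (pderiv b (F i)) * (z b - w b) =
          (1 : Matrix σ σ B) l b * (z b - w b) := by
        intro b
        rw [← hN, Matrix.mul_apply, Finset.sum_mul]
        rfl
      rw [Finset.sum_congr rfl fun b _ => h9 b]
      simp only [Matrix.one_apply, ite_mul, one_mul, zero_mul, Finset.sum_ite_eq,
        Finset.mem_univ, if_true]
    have h10 : z l - eval t (newtZ F T P N (k + 1) l) =
        ∑ i, N l i * ((eval w (F i) - eval P (F i) - eval t (T i)) +
          ∑ b, eval P (pderiv b (F i)) * (z b - w b)) := by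
      simp only [mul_add, Finset.sum_add_distrib]
      rw [h7, newtZ]
      simp only [map_sub, map_sum, map_mul, eval_C]
      have h11 : ∀ i, eval t (aeval (newtZ F T P N k) (F i)) = eval w (F i) :=
        fun i => newt_comp t _ _
      simp only [h11]
      change z l - (w l - _) = _
      ring
    rw [h10]
    exact Finset.dvd_sum fun i _ => (key i).mul_left _

theorem param {B : Type*} [CommRing B] {σ : Type*} [Fintype σ] [DecidableEq σ] {r : ℕ}
    (F : σ → MvPolynomial σ B) (e : Fin r → σ) (he : Function.Injective e) (P : σ → B)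
    (hJ : IsUnit (eval P (J F))) (π : B) (hπ : IsNilpotent π) :
    ∃ Z : σ → MvPolynomial (Fin r) B, ∀ z : σ → B, (∀ l, π ∣ z l - P l) →
      (∀ i, i ∉ Set.range e → eval z (F i) = eval P (F i)) →
      ∀ l, z l = eval (fun j => eval z (F (e j)) - eval P (F (e j))) (Z l) := by
  obtain ⟨n, hn⟩ := hπ
  set m₀ : Matrix σ σ B := Matrix.of fun i l => eval P (pderiv l (F i)) with hm₀
  have hdet : m₀.det = eval P (J F) := by
    rw [J, RingHom.map_det]
    congr 1
  have hu : IsUnit m₀.det := hdet ▸ hJ
  have hN : m₀⁻¹ * m₀ = 1 := Matrix.nonsing_inv_mul _ hu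
  set T : σ → MvPolynomial (Fin r) B := fun i => ∑ j, if e j = i then X j else 0 with hTdef
  refine ⟨newtZ F T P m₀⁻¹ n, fun z hz hF l => ?_⟩
  have hT : ∀ i, eval z (F i) - eval P (F i) =
      eval (fun j => eval z (F (e j)) - eval P (F (e j))) (T i) := by
    intro i
    rw [hTdef]
    simp only [map_sum]
    by_cases hi : i ∈ Set.range e
    · obtain ⟨j, rfl⟩ := hi
      rw [Finset.sum_eq_single j]
      · simp
      · intro j' _ hj'
        rw [if_neg fun h => hj' (he h), map_zero]
      · intro h
        exact absurd (Finset.mem_univ _) h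
    · rw [hF i hi, sub_self, Finset.sum_eq_zero]
      intro j _
      rw [if_neg fun h => hi ⟨j, h⟩, map_zero]
  have h1 := newt_step F T P m₀⁻¹ hN π z _ hz hT n l
  rw [pow_succ, hn, zero_mul, zero_dvd_iff, sub_eq_zero] at h1
  exact h1

end Pool.Agent.H37.NF
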