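import Pool.Agent.H37.NF.Hv
import Pool.Agent.H37.NF.Newt
import Pool.Agent.H37.NF.DetCol

/-! MODULE DetDvd (about 160 lines). Paper 3.8: `p^N` divides the determinant of the values.

`affp p P` is the reduction of `aff P` modulo `p` (`p` not dividing `P.1`). Let `N ≥ 1` (the case `N = 0` is trivial), `B = ZMod (p^N)`, `π = (p : B)`, `π^N = 0`. An integer prime to `p` is a unit of `B` (`ZMod.isUnit_iff_coprime` / `ZMod.unitOfCoprime`). For `j` in `GG` let
`u j` be the inverse of `(P j).1` in `B` and `z j l = (P j).2 l * u j`. By `hv_cast`: `(hv D (m i) (P j) : B) = (P j).1^D * aeval (z j) (m i)`. For `i` not in the range of `e`: `aeval (z j) (F i) = 0` (`hv_eq_zero_iff`, `hv_cast`). For each class `κ` (value of `affp p`) choose a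
member `j*` of `GG` of that class; `aeval (z j*) (J F)` is a unit (`hv_cast` with `t = totalDegree`: `(hv .. : B)` is a unit). Apply `param` to `F` mapped to `B` (`map_J`; `aeval z F = eval z (map _ F)`), base point `z j*`, `π`: it gives `Z_κ`. For `j` in the class of `j*`: `π` divides `z j l - z j* l`
(both are `≡ affp` modulo `p`: apply the ring hom `ZMod (p^N) → ZMod p` (`ZMod.castHom`), whose kernel is generated by `p`), so `z j = eval (t j) Z_κ` with `t j i = eval (z j) (F (e i)) - eval (z j*) (F (e i))` divisible by `π`, and `aeval (z j) (m i) = eval (t j) (W_κ i)`,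
`W_κ i = aeval Z_κ (m i)`. `det_zero_of_classes` with `c j = (P j).1^D` gives `det = 0` in `B`, i.e. `p^N` divides the integral determinant (`Int.cast_det`-type lemma: `RingHom.map_det`, `ZMod.intCast_zmod_eq_zero_iff_dvd`/`ZMod.intCast_eq_zero_iff_dvd`). -/

set_option autoImplicit false

namespace Pool.Agent.H37.NF

open MvPolynomial Pool.H76.NN

variable {σ : Type} [Fintype σ] [DecidableEq σ]

/-- reduction of the affine point modulo `p` -/
def affp (p : ℕ) (P : Pt σ) : σ → ZMod p := fun l => (P.2 l : ZMod p) * (P.1 : ZMod p)⁻¹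

omit [Fintype σ] [DecidableEq σ] in
theorem aeval_int_eq {B : Type*} [CommRing B] (z : σ → B) (g : MvPolynomial σ ℤ) :
    aeval z g = eval z (map (Int.castRingHom B) g) := by
  rw [eval_map, aeval_def]
  rfl

theorem zmod_unit {p N : ℕ} [Fact p.Prime] {a : ℤ} (h : ¬ (p : ℤ) ∣ a) :
    IsUnit (a : ZMod (p ^ N)) := by
  rw [ZMod.coe_int_isUnit_iff_isCoprime]
  have hp : Prime (p : ℤ) := Nat.prime_iff_prime_int.mp (Fact.out : p.Prime)
  have h1 : IsCoprime (p : ℤ) a := (Prime.coprime_iff_not_dvd hp).mpr h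
  have h2 : ((p ^ N : ℕ) : ℤ) = (p : ℤ) ^ N := by push_cast; rfl
  rw [h2]
  exact h1.pow_left

theorem dvd_of_cast {p N : ℕ} [Fact p.Prime] (hN : N ≠ 0) (x : ZMod (p ^ N))
    (h : ZMod.castHom (dvd_pow_self p hN) (ZMod p) x = 0) : (p : ZMod (p ^ N)) ∣ x := by
  obtain ⟨n, rfl⟩ := ZMod.intCast_surjective x
  rw [map_intCast, ZMod.intCast_zmod_eq_zero_iff_dvd] at h
  obtain ⟨c, rfl⟩ := h
  exact ⟨(c : ZMod (p ^ N)), by push_cast; rfl⟩

theorem det_dvd {p : ℕ} [Fact p.Prime] {r s : ℕ} (F : σ → MvPolynomial σ ℤ) (e : Fin r → σ)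
    (he : Function.Injective e) (P : Fin s → Pt σ) (m : Fin s → MvPolynomial σ ℤ) (D : ℕ)
    (hm : ∀ i, (m i).totalDegree ≤ D) (GG : Finset (Fin s))
    (h0 : ∀ j ∈ GG, (P j).1 ≠ 0) (h1 : ∀ j ∈ GG, ¬ (p : ℤ) ∣ (P j).1)
    (hJ : ∀ j ∈ GG, ¬ (p : ℤ) ∣ hv (J F).totalDegree (J F) (P j))
    (hV : ∀ j ∈ GG, ∀ i, i ∉ Set.range e → eval (aff (P j)) (toQ (F i)) = 0) (g N : ℕ)
    (hN : N + (GG.image fun j => affp p (P j)).card * (g + r).choose (r + 1) ≤ g * GG.card) :
    (p : ℤ) ^ N ∣ (Matrix.of fun i j => hv D (m i) (P j)).det := by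
  rcases Nat.eq_zero_or_pos N with hN0 | hNpos
  · subst hN0
    simp
  have hN0 : N ≠ 0 := hNpos.ne'
  set B := ZMod (p ^ N) with hB
  let φ : ℤ →+* B := Int.castRingHom B
  let u : Fin s → B := fun j => Ring.inverse ((P j).1 : B)
  let z : Fin s → σ → B := fun j l => ((P j).2 l : B) * u j
  have hu : ∀ j ∈ GG, u j * ((P j).1 : B) = 1 := fun j hj =>
    Ring.inverse_mul_cancel _ (zmod_unit (h1 j hj))
  have hpN : ((p : B)) ^ N = 0 := by
    have : ((p ^ N : ℕ) : B) = 0 := ZMod.natCast_self _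
    rw [← this]; push_cast; rfl
  let ψ : B →+* ZMod p := ZMod.castHom (dvd_pow_self p hN0) (ZMod p)
  have hψ : ∀ j ∈ GG, ∀ l, ψ (z j l) = affp p (P j) l := by
    intro j hj l
    have h2 := congrArg ψ (hu j hj)
    rw [map_mul, map_one, map_intCast] at h2
    have h3 : ψ (u j) = ((P j).1 : ZMod p)⁻¹ := eq_inv_of_mul_eq_one_left h2
    show ψ (((P j).2 l : B) * u j) = _
    rw [map_mul, map_intCast, h3]
    rfl
  have hval : ∀ j ∈ GG, ∀ (g : MvPolynomial σ ℤ) (t : ℕ), g.totalDegree ≤ t →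
      ((hv t g (P j) : ℤ) : B) = ((P j).1 : B) ^ t * eval (z j) (map φ g) := by
    intro j hj g t ht
    rw [hv_cast g ht (P j) (u j) (hu j hj), aeval_int_eq]
  have hzero : ∀ j ∈ GG, ∀ i, i ∉ Set.range e → eval (z j) (map φ (F i)) = 0 := by
    intro j hj i hi
    have h2 := hval j hj (F i) _ le_rfl
    rw [(hv_eq_zero_iff (F i) le_rfl (P j) (h0 j hj)).mpr (hV j hj i hi), Int.cast_zero] at h2
    exact ((zmod_unit (N := N) (h1 j hj)).pow _).mul_right_eq_zero.mp h2.symm
  have key : ∀ k : σ → ZMod p, ∃ (Zk : σ → MvPolynomial (Fin r) B) (v : Fin r → B),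
      ∀ j ∈ GG, affp p (P j) = k →
        (∀ l, z j l = eval (fun i => eval (z j) (map φ (F (e i))) - v i) (Zk l)) ∧
        ∀ i, (p : B) ∣ eval (z j) (map φ (F (e i))) - v i := by
    intro k
    by_cases hk : ∃ j0 ∈ GG, affp p (P j0) = k
    · obtain ⟨j0, hj0, hk0⟩ := hk
      have hunit : IsUnit (eval (z j0) (J fun i => map φ (F i))) := by
        rw [← map_J]
        have h2 := hval j0 hj0 (J F) _ le_rfl
        have h3 : IsUnit (((P j0).1 : B) ^ (J F).totalDegree * eval (z j0) (map φ (J F))) := by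
          rw [← h2]
          exact zmod_unit (hJ j0 hj0)
        exact isUnit_of_mul_isUnit_right h3
      obtain ⟨Z, hZ⟩ := param (fun i => map φ (F i)) e he (z j0) hunit (p : B) ⟨N, hpN⟩
      refine ⟨Z, fun i => eval (z j0) (map φ (F (e i))), fun j hj hjk => ?_⟩
      have hdiv : ∀ l, (p : B) ∣ z j l - z j0 l := by
        intro l
        apply dvd_of_cast hN0
        show ψ (z j l - z j0 l) = 0
        rw [map_sub, hψ j hj, hψ j0 hj0, hjk, hk0, sub_self]
      refine ⟨hZ (z j) hdiv fun i hi => ?_, fun i => ?_⟩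
      · rw [hzero j hj i hi, hzero j0 hj0 i hi]
      · have h4 := Pool.Agent.H34.NA.eval_sub_mem (Ideal.span {(p : B)}) (z j0) (z j)
          (fun l => Ideal.mem_span_singleton.mpr (hdiv l)) (map φ (F (e i)))
        exact Ideal.mem_span_singleton.mp h4
    · exact ⟨0, 0, fun j hj hjk => absurd ⟨j, hj, hjk⟩ hk⟩
  choose Zk v hZv using key
  have hdet : (Matrix.of fun i j => ((hv D (m i) (P j) : ℤ) : B)).det = 0 := by
    refine det_zero_of_classes (p : B) N hpN _ GG (fun j => affp p (P j))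
      (fun k i => aeval (Zk k) (map φ (m i)))
      (fun j i => eval (z j) (map φ (F (e i))) - v (affp p (P j)) i)
      (fun j hj i => (hZv _ j hj rfl).2 i) (fun j => ((P j).1 : B) ^ D) ?_ g ?_
    · intro j hj i
      rw [Matrix.of_apply, hval j hj (m i) D (hm i)]
      congr 1
      have h5 : z j = fun l => eval (fun i => eval (z j) (map φ (F (e i)))
          - v (affp p (P j)) i) (Zk (affp p (P j)) l) := funext (hZv _ j hj rfl).1
      show eval (z j) (map φ (m i)) = eval (fun i => eval (z j) (map φ (F (e i)))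
          - v (affp p (P j)) i) (aeval (Zk (affp p (P j))) (map φ (m i)))
      rw [← aeval_eq_eval (fun i => eval (z j) (map φ (F (e i))) - v (affp p (P j)) i)]
      rw [comp_aeval_apply, aeval_eq_eval, aeval_eq_eval]
      exact congrArg (fun w => eval w (map φ (m i))) h5
    · convert hN
  have h6 : (((Matrix.of fun i j => hv D (m i) (P j)).det : ℤ) : B) = 0 := by
    rw [← hdet]
    have := RingHom.map_det φ (Matrix.of fun i j => hv D (m i) (P j))
    exact this
  have h7 := (ZMod.intCast_zmod_eq_zero_iff_dvd _ _).mp h6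
  simpa using h7

end Pool.Agent.H37.NF
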