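import Pool.Agent.H37.NF.Defs

/-! MODULE LamInd (about 150 lines). Homogenisation, and algebraic independence of `a_j + lamG_j τ`.

`F0 r` = rational functions in `r` variables over `ℚ`; `lamG = (1, X_1, .., X_r)`. `exists_homog`: `chat = ∑_(m in supp c) coeff m c * Y_0^(d - |m|) * ∏ Y_(i+1)^(m i)` (monomials of `MvPolynomial (Fin (r+1)) ℚ`); the evaluation at `t * lamG`: each monomial has degree `d`.
`lamG_homog_inj`: for `h` homogeneous of degree `d`: the coefficient of `X^m` (`m : Fin r →₀ ℕ`) of `aeval (Fin.cons 1 X) h` (in `MvPolynomial (Fin r) ℚ`) is the coefficient of `h` at `Y_0^(d-|m|) Y^m`, because two exponents of degree `d` which agree at the indices `j.succ` are equal; and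
`algebraMap (MvPolynomial (Fin r) ℚ) (F0 r)` is injective. `lam_indep`: let `q' = aeval (fun j => X j + C (a j)) q` (`q' = 0` iff `q = 0`: inverse substitution). `aeval (fun j => C (lamG j) * X) q' = 0` in `PowerSeries (F0 r)`; the coefficient of `X^d` of the left side is
`aeval lamG (homogeneousComponent d q')` (`MvPolynomial.sum_homogeneousComponent`, homogeneous polynomials: `aeval (fun j => C (lamG j) * X) h = C (aeval lamG h) * X^d`), so all components are `0` by `lamG_homog_inj`. -/

set_option autoImplicit false

namespace Pool.Agent.H37.NF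

open MvPolynomial

/-- rational functions in `r` variables -/
abbrev F0 (r : ℕ) : Type := FractionRing (MvPolynomial (Fin r) ℚ)

/-- the direction `(1, X_1, .., X_r)` -/
noncomputable def lamG (r : ℕ) : Fin (r + 1) → F0 r :=
  Fin.cons 1 fun j => algebraMap (MvPolynomial (Fin r) ℚ) (F0 r) (X j)

private noncomputable def dehom (r : ℕ) : Fin (r + 1) → MvPolynomial (Fin r) ℚ :=
  Fin.cons 1 fun j => X j

private theorem dehom_monomial {r : ℕ} (n : Fin (r + 1) →₀ ℕ) (a : ℚ) :
    aeval (dehom r) (monomial n a) = monomial (Finsupp.tail n) a := by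
  rw [aeval_monomial, monomial_eq, Finsupp.prod_fintype _ _ (fun i => pow_zero _),
    Finsupp.prod_fintype _ _ (fun i => pow_zero _), Fin.prod_univ_succ]
  simp only [dehom, Fin.cons_zero, Fin.cons_succ, one_pow, one_mul, Finsupp.tail_apply]
  rfl

private theorem lamG_aeval {r : ℕ} (h : MvPolynomial (Fin (r + 1)) ℚ) :
    aeval (lamG r) h = algebraMap (MvPolynomial (Fin r) ℚ) (F0 r) (aeval (dehom r) h) := by
  rw [← MvPolynomial.aeval_algebraMap_apply]
  congr 1
  congr 1
  funext j
  refine Fin.cases ?_ (fun j => ?_) j
  · simp [lamG, dehom]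
  · simp [lamG, dehom]

private theorem tail_degree {r : ℕ} (n : Fin (r + 1) →₀ ℕ) :
    n.degree = n 0 + (Finsupp.tail n).degree := by
  rw [Finsupp.degree_eq_sum, Finsupp.degree_eq_sum, Fin.sum_univ_succ]
  rfl

theorem exists_homog {r d : ℕ} (c : MvPolynomial (Fin r) ℚ) (hc : c.totalDegree ≤ d) :
    ∃ h : MvPolynomial (Fin (r + 1)) ℚ, h.IsHomogeneous d ∧
      aeval (lamG r) h = algebraMap (MvPolynomial (Fin r) ℚ) (F0 r) c := by
  classical
  refine ⟨∑ m ∈ c.support, monomial (Finsupp.cons (d - m.degree) m) (coeff m c), ?_, ?_⟩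
  · apply IsHomogeneous.sum
    intro m hm
    apply isHomogeneous_monomial
    rw [tail_degree, Finsupp.cons_zero, Finsupp.tail_cons]
    have h1 : m.degree ≤ d := by
      refine le_trans ?_ hc
      exact le_totalDegree hm
    omega
  · rw [lamG_aeval, map_sum]
    simp only [dehom_monomial, Finsupp.tail_cons]
    rw [← as_sum]

theorem lamG_homog_inj {r d : ℕ} (h : MvPolynomial (Fin (r + 1)) ℚ) (hh : h.IsHomogeneous d)
    (h0 : aeval (lamG r) h = 0) : h = 0 := by
  classical
  rw [lamG_aeval] at h0
  have h1 : aeval (dehom r) h = 0 := by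
    apply IsFractionRing.injective (MvPolynomial (Fin r) ℚ) (F0 r)
    rw [h0, map_zero]
  by_contra hne
  obtain ⟨m, hm⟩ := MvPolynomial.ne_zero_iff.1 hne
  have h2 : coeff (Finsupp.tail m) (aeval (dehom r) h) = coeff m h := by
    conv_lhs => rw [h.as_sum]
    rw [map_sum, coeff_sum]
    simp only [dehom_monomial, coeff_monomial]
    rw [Finset.sum_eq_single m]
    · simp
    · intro n hn hnm
      rw [if_neg]
      intro ht
      apply hnm
      have d1 : n.degree = d := by
        have := hh (mem_support_iff.1 hn)
        rwa [Finsupp.degree_eq_weight_one]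
      have d2 : m.degree = d := by
        have := hh hm
        rwa [Finsupp.degree_eq_weight_one]
      rw [tail_degree] at d1 d2
      have h3 : n 0 = m 0 := by
        rw [ht] at d1
        omega
      rw [← Finsupp.cons_tail n, ← Finsupp.cons_tail m, h3, ht]
    · intro hn
      rw [if_pos rfl]
      simpa using hn
  rw [h1, coeff_zero] at h2
  exact hm h2.symm

/-- homogeneous polynomials at a scaled vector -/
theorem aeval_smul_homog {A : Type*} [CommRing A] [Algebra ℚ A] {n d : ℕ}
    (h : MvPolynomial (Fin n) ℚ) (hh : h.IsHomogeneous d) (t : A) (v : Fin n → A) :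
    aeval (fun i => t * v i) h = t ^ d * aeval v h := by
  classical
  rw [aeval_def, aeval_def, eval₂_eq', eval₂_eq', Finset.mul_sum]
  apply Finset.sum_congr rfl
  intro m hm
  have d0 : m.degree = d := by
    have := hh (mem_support_iff.1 hm)
    rwa [Finsupp.degree_eq_weight_one]
  have d1 : ∑ i, m i = d := by
    rwa [Finsupp.degree_eq_sum] at d0
  have h1 : ∏ i, (t * v i) ^ m i = t ^ d * ∏ i, v i ^ m i := by
    simp only [mul_pow]
    rw [Finset.prod_mul_distrib, Finset.prod_pow_eq_pow_sum, d1]
  rw [h1]
  ring

theorem lam_indep {r : ℕ} (q : MvPolynomial (Fin (r + 1)) ℚ) (a : Fin (r + 1) → F0 r)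
    (ha : ∀ j, ∃ c : ℚ, a j = algebraMap ℚ (F0 r) c)
    (h : aeval (fun j => PowerSeries.C (a j) + PowerSeries.C (lamG r j) * PowerSeries.X) q = 0) :
    q = 0 := by
  classical
  choose c hc using ha
  set q' : MvPolynomial (Fin (r + 1)) ℚ := aeval (fun j => X j + C (c j)) q with hq'
  have hback : aeval (fun j => X j - C (c j)) q' = q := by
    have h1 : (aeval (fun j => (X j - C (c j) : MvPolynomial (Fin (r + 1)) ℚ))).comp
        (aeval (fun j => (X j + C (c j) : MvPolynomial (Fin (r + 1)) ℚ))) =
        AlgHom.id ℚ (MvPolynomial (Fin (r + 1)) ℚ) := by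
      apply MvPolynomial.algHom_ext
      intro j
      simp
    exact DFunLike.congr_fun h1 q
  have hsub : aeval (fun j => (PowerSeries.X : PowerSeries (F0 r)) *
      PowerSeries.C (lamG r j)) q' = 0 := by
    have h1 : (aeval (fun j => (PowerSeries.X : PowerSeries (F0 r)) *
        PowerSeries.C (lamG r j))).comp
        (aeval (fun j => (X j + C (c j) : MvPolynomial (Fin (r + 1)) ℚ))) =
        aeval (fun j => PowerSeries.C (a j) + PowerSeries.C (lamG r j) * PowerSeries.X) := by
      apply MvPolynomial.algHom_ext
      intro j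
      rw [AlgHom.comp_apply, aeval_X, map_add, aeval_X, aeval_X, hc j]
      have h2 : aeval (fun j => (PowerSeries.X : PowerSeries (F0 r)) *
        PowerSeries.C (lamG r j)) (C (c j) : MvPolynomial (Fin (r + 1)) ℚ) =
        PowerSeries.C (algebraMap ℚ (F0 r) (c j)) := by
        rw [MvPolynomial.aeval_C, PowerSeries.algebraMap_apply]
      rw [h2]
      ring
    rw [← h, ← h1]
    rfl
  have hcomp : ∀ i, homogeneousComponent i q' = 0 := by
    intro d
    have h1 : aeval (lamG r) (homogeneousComponent d q') = 0 := by
      set N := max (q'.totalDegree + 1) (d + 1) with hN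
      have hsum : ∑ i ∈ Finset.range N, homogeneousComponent i q' = q' := by
        conv_rhs => rw [← sum_homogeneousComponent q']
        symm
        apply Finset.sum_subset
        · intro x hx
          rw [Finset.mem_range] at *
          omega
        · intro x _ hx
          rw [Finset.mem_range] at hx
          exact homogeneousComponent_eq_zero _ _ (by omega)
      have h2 : ∑ i ∈ Finset.range N, (PowerSeries.X : PowerSeries (F0 r)) ^ i *
          PowerSeries.C (aeval (lamG r) (homogeneousComponent i q')) = 0 := by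
        rw [← hsub]
        conv_rhs => rw [← hsum]
        rw [map_sum]
        apply Finset.sum_congr rfl
        intro i _
        rw [aeval_smul_homog _ (homogeneousComponent_isHomogeneous i q')]
        congr 1
        exact (MvPolynomial.aeval_algebraMap_apply (PowerSeries (F0 r)) (lamG r) _).symm
      have h3 := congrArg (PowerSeries.coeff d) h2
      rw [map_sum, map_zero] at h3
      rw [← h3, Finset.sum_eq_single d]
      · rw [mul_comm, PowerSeries.coeff_C_mul, PowerSeries.coeff_X_pow, if_pos rfl, mul_one]
      · intro b _ hb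
        rw [mul_comm, PowerSeries.coeff_C_mul, PowerSeries.coeff_X_pow, if_neg (Ne.symm hb),
          mul_zero]
      · intro hd
        exact absurd (Finset.mem_range.2 (by omega)) hd
    exact lamG_homog_inj _ (homogeneousComponent_isHomogeneous d q') h1
  have hq0 : q' = 0 := by
    rw [← sum_homogeneousComponent q']
    exact Finset.sum_eq_zero fun i _ => hcomp i
  rw [← hback, hq0, map_zero]

end Pool.Agent.H37.NF
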