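import Pool.Agent.H37.NF.Curve
import Pool.Agent.H37.NF.LamInd

/-! MODULE Gen (about 160 lines). Paper 3.4: the generic curve through `O`.

`B = F0 r` (a field of characteristic 0, torsion free). `z l = algebraMap ℚ (F0 r) (aff S.O l)`; `aeval z g = algebraMap ℚ (F0 r) (eval (aff S.O) (toQ g))` for `g` integral: `0` if `toQ g ∈ I` (`hS.Ovan`), nonzero (a unit) for `g = J S.F` (`hS.JO`). `curve` with `lam = lamG r` gives `Φ`.
(kernel) Let `K` be the kernel of `aeval Φ : MvPolynomial σ ℚ → PowerSeries (F0 r)` (a domain), a prime ideal. `I ≤ K`: for `g ∈ I` some nonzero integer multiple of `g` is `toQ g'`, `toQ g' ∈ I`, `aeval Φ g' = 0` (`aeval Φ (toQ g') = aeval Φ g'`). If `aeval S.yQ q ∈ K` then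
`aeval (fun j => aeval Φ (lf (S.y j))) q = 0`, `aeval Φ (lf (S.y j)) = C (a j) + C (lamG j) * X` with `a j` rational: `q = 0` by `lam_indep`. So `K = I` (`hS.max`).
(eta) `aeval Φ (eta O (y j)) = C O_0 * (C (a j) + C (lamG j) * X) - C (lval (y j) O)`, and `O_0 * a j = lval (y j) O` (`a j = ∑ y j l * aff O l`): `= C O_0 * C (lamG j) * X`. (der) `aeval Φ (S.D g) = ∑ j, aeval Φ (eta ..) * aeval Φ (dj S.F (S.e j) g)
= C O_0 * X * ∑ j, C (lamG j) * aeval Φ (dj ..) = C O_0 * X * (aeval Φ (J S.F) * derivative (aeval Φ g))` by the Cramer item of `curve`. -/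

set_option autoImplicit false

namespace Pool.Agent.H37.NF

open MvPolynomial Pool.H76.NN

variable {σ : Type} [Fintype σ] [DecidableEq σ] {r : ℕ} {S : Sys σ r}
  {I : Ideal (MvPolynomial σ ℚ)} {b0 : ℕ}

omit [Fintype σ] [DecidableEq σ] in
private theorem Gen_aeval_toQ {A : Type*} [CommRing A] [Algebra ℚ A] {iA : Algebra ℤ A}
    (Φ : σ → A) (g : MvPolynomial σ ℤ) : aeval Φ (toQ g) = aeval Φ g := by
  rw [aeval_def, aeval_def, toQ, eval₂_map]
  congr 1
  exact RingHom.ext_int _ _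

omit [Fintype σ] [DecidableEq σ] in
private theorem Gen_aeval_z {A : Type*} [CommRing A] [Algebra ℚ A] {iA : Algebra ℤ A}
    (v : σ → ℚ) (g : MvPolynomial σ ℤ) :
    aeval (fun l => algebraMap ℚ A (v l)) g = algebraMap ℚ A (eval v (toQ g)) := by
  rw [← Gen_aeval_toQ, aeval_def, ← coe_eval₂Hom, ← MvPolynomial.eval₂_id,
    MvPolynomial.hom_eval₂]
  rfl

omit [Fintype σ] [DecidableEq σ] in
private theorem Gen_denom (g : MvPolynomial σ ℚ) :
    ∃ (b : ℤ) (g' : MvPolynomial σ ℤ), b ≠ 0 ∧ toQ g' = C (b : ℚ) * g := by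
  classical
  obtain ⟨b, hb⟩ := IsLocalization.exist_integer_multiples_of_finset (nonZeroDivisors ℤ)
    (g.support.image fun m => coeff m g)
  have h1 : ∀ m : σ →₀ ℕ, ∃ c : ℤ, m ∈ g.support → (c : ℚ) = ((b : ℤ) : ℚ) * coeff m g := by
    intro m
    by_cases hm : m ∈ g.support
    · obtain ⟨c, hc⟩ := hb _ (Finset.mem_image.2 ⟨m, hm, rfl⟩)
      refine ⟨c, fun _ => ?_⟩
      have h2 : (algebraMap ℤ ℚ c) = (c : ℚ) := rfl
      rw [← h2, hc, zsmul_eq_mul]
    · exact ⟨0, fun h => absurd h hm⟩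
  choose c hc using h1
  refine ⟨b, ∑ m ∈ g.support, monomial m (c m), nonZeroDivisors.coe_ne_zero b, ?_⟩
  rw [map_sum]
  conv_rhs => rw [g.as_sum, Finset.mul_sum]
  refine Finset.sum_congr rfl fun m hm => ?_
  rw [toQ, map_monomial, C_mul_monomial]
  congr 1
  exact hc m hm

theorem generic_curve (hS : S.Good I b0) :
    ∃ Φ : σ → PowerSeries (F0 r),
      (∀ g : MvPolynomial σ ℚ, aeval Φ g = 0 ↔ g ∈ I) ∧
      (∀ g : MvPolynomial σ ℤ, aeval Φ g = 0 ↔ toQ g ∈ I) ∧
      (∀ j, aeval Φ (eta S.O (S.y j)) =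
        PowerSeries.C ((S.O.1 : F0 r)) * PowerSeries.C (lamG r j) * PowerSeries.X) ∧
      (∀ g : MvPolynomial σ ℤ, aeval Φ (S.D g) =
        PowerSeries.C ((S.O.1 : F0 r)) * aeval Φ (J S.F) *
          (PowerSeries.X * PowerSeries.derivative (F0 r) (aeval Φ g))) ∧
      aeval Φ (J S.F) ≠ 0 := by
  have : CharZero (F0 r) := algebraRat.charZero _
  obtain ⟨Φ, -, hc2, hc3, hc4⟩ := curve (B := F0 r) hS
    (fun l => algebraMap ℚ (F0 r) (aff S.O l))
    (fun g hg => by rw [Gen_aeval_z, hS.Ovan _ hg, map_zero])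
    (by
      rw [Gen_aeval_z]
      exact (isUnit_iff_ne_zero.2 hS.JO).map (algebraMap ℚ (F0 r)))
    (lamG r)
  have hΦ2 : ∀ g : MvPolynomial σ ℤ, toQ g ∈ I → aeval Φ (toQ g) = 0 := fun g hg =>
    (Gen_aeval_toQ Φ g).trans (hc2 g hg)
  set a : Fin (r + 1) → ℚ := fun j => eval (aff S.O) (toQ (lf (S.y j))) with ha
  have hy : ∀ j, aeval Φ (toQ (lf (S.y j) : MvPolynomial σ ℤ)) =
      PowerSeries.C (algebraMap ℚ (F0 r) (a j)) +
        PowerSeries.C (lamG r j) * PowerSeries.X := by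
    intro j
    refine (Gen_aeval_toQ Φ _).trans ((hc4 j).trans ?_)
    rw [Gen_aeval_z]
  have hΦ3 : ∀ g : MvPolynomial σ ℤ, aeval Φ (toQ (J S.F)) *
      PowerSeries.derivative (F0 r) (aeval Φ (toQ g)) =
        ∑ j, PowerSeries.C (lamG r j) * aeval Φ (toQ (dj S.F (S.e j) g)) := by
    intro g
    have h := hc3 g
    rw [← Gen_aeval_toQ, ← Gen_aeval_toQ] at h
    rw [h]
    refine Finset.sum_congr rfl fun j _ => ?_
    congr 1
    exact (Gen_aeval_toQ Φ _).symm
  set K : Ideal (MvPolynomial σ ℚ) :=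
    RingHom.ker (aeval Φ : MvPolynomial σ ℚ →ₐ[ℚ] PowerSeries (F0 r)) with hK
  have hKp : K.IsPrime := RingHom.ker_isPrime _
  have hIK : I ≤ K := by
    intro g hg
    obtain ⟨b, g', hb, hg'⟩ := Gen_denom g
    have h1 : toQ g' ∈ I := by
      rw [hg']
      exact I.mul_mem_left _ hg
    have h2 := hΦ2 g' h1
    rw [hg', map_mul, mul_eq_zero] at h2
    rw [hK, RingHom.mem_ker]
    refine h2.resolve_left ?_
    rw [algHom_C]
    intro h3
    have h4 := (map_eq_zero_iff (algebraMap ℚ (PowerSeries (F0 r)))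
      (algebraMap ℚ (PowerSeries (F0 r))).injective).1 h3
    exact hb (by exact_mod_cast h4)
  have hmax : K = I := by
    refine hS.max K hKp hIK fun q hq => ?_
    rw [hK, RingHom.mem_ker] at hq
    refine lam_indep q (fun j => algebraMap ℚ (F0 r) (a j)) (fun j => ⟨a j, rfl⟩) ?_
    have h1 : (fun j => PowerSeries.C (algebraMap ℚ (F0 r) (a j)) +
        PowerSeries.C (lamG r j) * PowerSeries.X) = fun j => aeval Φ (S.yQ j) := by
      funext j
      rw [Sys.yQ, hy]
    rw [h1]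
    rw [← comp_aeval_apply]
    exact hq
  have hfirst : ∀ g : MvPolynomial σ ℚ, aeval Φ g = 0 ↔ g ∈ I := by
    intro g
    rw [← hmax, hK, RingHom.mem_ker]
  have hsecond : ∀ g : MvPolynomial σ ℤ, aeval Φ g = 0 ↔ toQ g ∈ I := by
    intro g
    rw [← Gen_aeval_toQ, hfirst]
  have heta : ∀ j, aeval Φ (eta S.O (S.y j)) =
      PowerSeries.C ((S.O.1 : F0 r)) * PowerSeries.C (lamG r j) * PowerSeries.X := by
    intro j
    have h0 : (S.O.1 : ℚ) ≠ 0 := by exact_mod_cast hS.O0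
    have h1 : (S.O.1 : ℚ) * a j = (lval (S.y j) S.O : ℚ) := by
      rw [ha]
      simp only [lf, lval, toQ, map_sum, map_mul, map_C, map_X, eval_C, eval_X, Int.coe_castRingHom]
      push_cast
      rw [Finset.mul_sum]
      refine Finset.sum_congr rfl fun l _ => ?_
      rw [aff]
      field_simp
    have h2 : ((S.O.1 : ℤ) : F0 r) * algebraMap ℚ (F0 r) (a j) = (lval (S.y j) S.O : F0 r) := by
      have := congrArg (algebraMap ℚ (F0 r)) h1
      rw [map_mul, map_intCast, map_intCast] at this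
      exact this
    have h3 : aeval Φ (toQ (eta S.O (S.y j))) = PowerSeries.C ((S.O.1 : ℤ) : F0 r) *
        aeval Φ (toQ (lf (S.y j) : MvPolynomial σ ℤ)) -
          PowerSeries.C ((lval (S.y j) S.O : ℤ) : F0 r) := by
      have hC : ∀ n : ℤ, aeval Φ (toQ (C n : MvPolynomial σ ℤ))
          = PowerSeries.C ((n : ℤ) : F0 r) := by
        intro n
        rw [toQ, map_C, algHom_C, eq_intCast, map_intCast, map_intCast]
      rw [eta, map_sub, map_mul, map_sub, map_mul, hC, hC]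
    rw [← Gen_aeval_toQ, h3, hy, ← h2, map_mul]
    ring
  refine ⟨Φ, hfirst, hsecond, heta, fun g => ?_, fun h => ?_⟩
  · rw [Sys.D_apply, map_sum]
    have h1 : ∀ j, aeval Φ (eta S.O (S.y j) * dj S.F (S.e j) g)
        = PowerSeries.C ((S.O.1 : F0 r)) * PowerSeries.X *
          (PowerSeries.C (lamG r j) * aeval Φ (toQ (dj S.F (S.e j) g))) := by
      intro j
      rw [map_mul, heta, ← Gen_aeval_toQ]
      ring
    rw [Finset.sum_congr rfl fun j _ => h1 j, ← Finset.mul_sum, ← hΦ3, ← Gen_aeval_toQ,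
      ← Gen_aeval_toQ]
    ring
  · exact hS.JO (hS.Ovan _ ((hsecond _).1 h))

end Pool.Agent.H37.NF
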