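import Pool.Agent.H37.NF.Defs

/-! MODULE Hv (about 120 lines). Homogenised values of integral polynomials.

`hv t g P = ∑ m ∈ g.support, g.coeff m * (P.1 ^ (t - m.degree) * ∏ i, P.2 i ^ m i)` (`Pool.H76.NN.hv`). For `m` in the support `m.degree ≤ g.totalDegree ≤ t` (`MvPolynomial.le_totalDegree`, `Finsupp.degree`), so in a ring where `u * P.1 = 1`:
`P.1^(t - d) * ∏ (P.2 i)^(m i) = P.1^t * ∏ (P.2 i * u)^(m i)`. `hv_rat` is the case `u = (P.1)⁻¹` in `ℚ`. The others follow. `abs_hv_le`: every monomial is at most `B^t` in absolute value (`1 ≤ B`). `aff_unit`: a point with `p` not dividing `P.1`. -/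

set_option autoImplicit false

namespace Pool.Agent.H37.NF

open MvPolynomial Pool.H76.NN

variable {σ : Type} [Fintype σ] [DecidableEq σ]

omit [DecidableEq σ] in
private theorem hv_term {B : Type*} [CommRing B] (g : MvPolynomial σ ℤ) {t : ℕ}
    (ht : g.totalDegree ≤ t) (P : Pt σ) (u : B) (hu : u * (P.1 : B) = 1) (m : σ →₀ ℕ)
    (hm : m ∈ g.support) :
    (P.1 : B) ^ (t - m.degree) * ∏ i, (P.2 i : B) ^ m i =
      (P.1 : B) ^ t * ∏ i, ((P.2 i : B) * u) ^ m i := by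
  have hd : m.degree ≤ t := (le_totalDegree hm).trans ht
  have h1 : ∏ i, ((P.2 i : B) * u) ^ m i = (∏ i, (P.2 i : B) ^ m i) * u ^ m.degree := by
    rw [Finsupp.degree_eq_sum, ← Finset.prod_pow_eq_pow_sum, ← Finset.prod_mul_distrib]
    exact Finset.prod_congr rfl fun i _ => mul_pow _ _ _
  have h2 : (P.1 : B) ^ t = (P.1 : B) ^ (t - m.degree) * (P.1 : B) ^ m.degree := by
    rw [← pow_add, Nat.sub_add_cancel hd]
  have h3 : (P.1 : B) ^ m.degree * u ^ m.degree = 1 := by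
    rw [← mul_pow, mul_comm, hu, one_pow]
  rw [h1, h2]
  linear_combination (-(P.1 : B) ^ (t - m.degree) * (∏ i, (P.2 i : B) ^ m i)) * h3

theorem hv_cast {B : Type*} [CommRing B] (g : MvPolynomial σ ℤ) {t : ℕ} (ht : g.totalDegree ≤ t)
    (P : Pt σ) (u : B) (hu : u * (P.1 : B) = 1) :
    ((hv t g P : ℤ) : B) = (P.1 : B) ^ t * aeval (fun l => (P.2 l : B) * u) g := by
  unfold hv
  rw [aeval_def, eval₂_eq', Finset.mul_sum, Int.cast_sum]
  apply Finset.sum_congr rfl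
  intro m hm
  have h := hv_term g ht P u hu m hm
  rw [Int.cast_mul, Int.cast_mul, Int.cast_pow, Int.cast_prod, algebraMap_int_eq, eq_intCast]
  simp only [Int.cast_pow]
  rw [h]
  ring

theorem hv_rat (g : MvPolynomial σ ℤ) {t : ℕ} (ht : g.totalDegree ≤ t) (P : Pt σ)
    (h0 : P.1 ≠ 0) : ((hv t g P : ℤ) : ℚ) = (P.1 : ℚ) ^ t * eval (aff P) (toQ g) := by
  have h1 : (P.1 : ℚ) ≠ 0 := Int.cast_ne_zero.2 h0
  rw [hv_cast g ht P ((P.1 : ℚ)⁻¹) (inv_mul_cancel₀ h1), eval_map, aeval_def, algebraMap_int_eq]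
  rfl

theorem hv_eq_zero_iff (g : MvPolynomial σ ℤ) {t : ℕ} (ht : g.totalDegree ≤ t) (P : Pt σ)
    (h0 : P.1 ≠ 0) : hv t g P = 0 ↔ eval (aff P) (toQ g) = 0 := by
  have h1 : (P.1 : ℚ) ≠ 0 := Int.cast_ne_zero.2 h0
  have h := hv_rat g ht P h0
  constructor
  · intro h2
    rw [h2, Int.cast_zero] at h
    exact (mul_eq_zero.1 h.symm).resolve_left (pow_ne_zero _ h1)
  · intro h2
    rw [h2, mul_zero] at h
    exact_mod_cast h

theorem hv_mul (g h : MvPolynomial σ ℤ) {s t : ℕ} (hs : g.totalDegree ≤ s)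
    (ht : h.totalDegree ≤ t) (P : Pt σ) (h0 : P.1 ≠ 0) :
    hv (s + t) (g * h) P = hv s g P * hv t h P := by
  have h1 : ((hv (s + t) (g * h) P : ℤ) : ℚ) = ((hv s g P * hv t h P : ℤ) : ℚ) := by
    rw [hv_rat (g * h) ((totalDegree_mul g h).trans (Nat.add_le_add hs ht)) P h0, Int.cast_mul,
      hv_rat g hs P h0, hv_rat h ht P h0, map_mul, map_mul, pow_add]
    ring
  exact_mod_cast h1

theorem hv_succ (g : MvPolynomial σ ℤ) {s t : ℕ} (hs : g.totalDegree ≤ s) (hst : s ≤ t)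
    (P : Pt σ) (h0 : P.1 ≠ 0) : hv t g P = P.1 ^ (t - s) * hv s g P := by
  have h1 : ((hv t g P : ℤ) : ℚ) = ((P.1 ^ (t - s) * hv s g P : ℤ) : ℚ) := by
    rw [hv_rat g (hs.trans hst) P h0, Int.cast_mul, hv_rat g hs P h0, Int.cast_pow, ← mul_assoc,
      ← pow_add, Nat.sub_add_cancel hst]
  exact_mod_cast h1

theorem abs_hv_le (g : MvPolynomial σ ℤ) {t : ℕ} (ht : g.totalDegree ≤ t) (P : Pt σ) {B : ℕ}
    (hB : 1 ≤ B) (hP : Ht P B) : |hv t g P| ≤ l1 g * (B : ℤ) ^ t := by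
  unfold hv l1
  rw [Finset.sum_mul]
  refine (Finset.abs_sum_le_sum_abs _ _).trans (Finset.sum_le_sum ?_)
  intro m hm
  have hd : m.degree ≤ t := (le_totalDegree hm).trans ht
  rw [abs_mul]
  apply mul_le_mul_of_nonneg_left _ (abs_nonneg _)
  rw [abs_mul, abs_pow, Finset.abs_prod]
  have h1 : (B : ℤ) ^ t = (B : ℤ) ^ (t - m.degree) * ∏ i, (B : ℤ) ^ m i := by
    rw [Finset.prod_pow_eq_pow_sum, ← Finsupp.degree_eq_sum, ← pow_add, Nat.sub_add_cancel hd]
  rw [h1]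
  apply mul_le_mul
  · exact pow_le_pow_left₀ (abs_nonneg _) hP.1 _
  · apply Finset.prod_le_prod
    · intro i _
      exact abs_nonneg _
    · intro i _
      rw [abs_pow]
      exact pow_le_pow_left₀ (abs_nonneg _) (hP.2 i) _
  · exact Finset.prod_nonneg fun i _ => abs_nonneg _
  · positivity

/-- value in a ring in which `P.1` is a unit, of a polynomial in `I`. -/
theorem aeval_eq_zero_of_onV {B : Type*} [CommRing B] {I : Ideal (MvPolynomial σ ℚ)}
    {P : Pt σ} (hP : OnV I P) (h0 : P.1 ≠ 0) (u : B) (hu : u * (P.1 : B) = 1)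
    (g : MvPolynomial σ ℤ) (hg : toQ g ∈ I) : aeval (fun l => (P.2 l : B) * u) g = 0 := by
  have h1 : hv g.totalDegree g P = 0 := (hv_eq_zero_iff g le_rfl P h0).2 (hP _ hg)
  have h2 := hv_cast g le_rfl P u hu
  rw [h1, Int.cast_zero] at h2
  have h3 : u ^ g.totalDegree * (P.1 : B) ^ g.totalDegree = 1 := by
    rw [← mul_pow, hu, one_pow]
  calc aeval (fun l => (P.2 l : B) * u) g
      = (u ^ g.totalDegree * (P.1 : B) ^ g.totalDegree) * aeval (fun l => (P.2 l : B) * u) g := by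
        rw [h3, one_mul]
    _ = u ^ g.totalDegree * ((P.1 : B) ^ g.totalDegree * aeval (fun l => (P.2 l : B) * u) g) :=
        mul_assoc _ _ _
    _ = 0 := by rw [← h2, mul_zero]

end Pool.Agent.H37.NF
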