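import Mathlib

/-! MODULE TopDeg (about 100 lines). A relation between homogeneous polynomials after an affine substitution.

Suppose some `h j ≠ 0`, `j ∈ T`; choose one with `a j` maximal (`Finset.exists_max_image` on the nonzero ones). Write `s j = aeval (fun i => C u * X i - C (v i)) (h j)`. Its homogeneous component of degree `d` is `C (u^d) * h j`, all other components have degree `< d` (`s j - C (u^d) * h j` has total degree `< d`
if `d > 0`, is `0` if `d = 0`: prove it for monomials). So the homogeneous component of degree `d + a j0` of `∑ j ∈ T, s j * X 0 ^ a j` is `C (u^d) * h j0 * X 0 ^ a j0`: for `j ≠ j0` with `h j ≠ 0` we have `a j < a j0` (`a` injective on `T`), total degree `≤ d + a j < d + a j0`. It is nonzero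
(domain, `u ≠ 0`), contradiction. -/

set_option autoImplicit false

namespace Pool.Agent.H37.NF

open MvPolynomial

private lemma TopDeg_prod {σ R : Type*} [CommRing R] (A B : σ → R) (m : σ → ℕ) (s : Finset σ) :
    (∏ i ∈ s, (Polynomial.C (A i) * Polynomial.X + Polynomial.C (B i)) ^ m i).natDegree ≤
      ∑ i ∈ s, m i ∧
    (∏ i ∈ s, (Polynomial.C (A i) * Polynomial.X + Polynomial.C (B i)) ^ m i).coeff
      (∑ i ∈ s, m i) = ∏ i ∈ s, A i ^ m i := by
  classical
  induction s using Finset.induction_on with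
  | empty => simp
  | insert i s hi ih =>
    have h1 : ((Polynomial.C (A i) * Polynomial.X + Polynomial.C (B i)) : Polynomial R).natDegree
        ≤ 1 := Polynomial.natDegree_linear_le
    have h2 : ((Polynomial.C (A i) * Polynomial.X + Polynomial.C (B i)) ^ m i :
        Polynomial R).natDegree ≤ m i := by
      refine Polynomial.natDegree_pow_le.trans ?_
      exact (Nat.mul_le_mul_left _ h1).trans (by omega)
    have h3 : ((Polynomial.C (A i) * Polynomial.X + Polynomial.C (B i)) ^ m i :
        Polynomial R).coeff (m i) = A i ^ m i := by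
      have h4 := Polynomial.coeff_pow_of_natDegree_le (m := m i) h1
      rw [mul_one] at h4
      rw [h4]
      simp
    rw [Finset.prod_insert hi, Finset.sum_insert hi, Finset.prod_insert hi]
    refine ⟨Polynomial.natDegree_mul_le_of_le h2 ih.1, ?_⟩
    rw [Polynomial.coeff_mul_add_eq_of_natDegree_le h2 ih.1, h3, ih.2]

private lemma TopDeg_key {σ R : Type*} [CommRing R] [Algebra ℚ R] (A B : σ → R)
    (d : ℕ) (p : MvPolynomial σ ℚ) (hp : p.IsHomogeneous d) :
    (aeval (fun i => Polynomial.C (A i) * Polynomial.X + Polynomial.C (B i)) p :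
      Polynomial R).natDegree ≤ d ∧
    (aeval (fun i => Polynomial.C (A i) * Polynomial.X + Polynomial.C (B i)) p :
      Polynomial R).coeff d = aeval A p := by
  have hm : ∀ m ∈ p.support,
      (aeval (fun i => Polynomial.C (A i) * Polynomial.X + Polynomial.C (B i))
        (monomial m (coeff m p)) : Polynomial R).natDegree ≤ d ∧
      (aeval (fun i => Polynomial.C (A i) * Polynomial.X + Polynomial.C (B i))
        (monomial m (coeff m p)) : Polynomial R).coeff d = aeval A (monomial m (coeff m p)) := by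
    intro m hmp
    have hd : ∑ i ∈ m.support, m i = d := by
      have h1 := hp (mem_support_iff.1 hmp)
      rw [← h1, Finsupp.weight_apply, Finsupp.sum]
      refine Finset.sum_congr rfl fun i _ => ?_
      simp
    have h2 := TopDeg_prod A B m m.support
    rw [hd] at h2
    rw [aeval_monomial, aeval_monomial, Finsupp.prod, Finsupp.prod,
      IsScalarTower.algebraMap_apply ℚ R (Polynomial R), Polynomial.algebraMap_eq]
    refine ⟨(Polynomial.natDegree_C_mul_le _ _).trans h2.1, ?_⟩
    rw [Polynomial.coeff_C_mul, h2.2]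
  constructor
  · conv_lhs => rw [p.as_sum, map_sum]
    exact Polynomial.natDegree_sum_le_of_forall_le _ _ fun m hmp => (hm m hmp).1
  · conv_lhs => rw [p.as_sum, map_sum, Polynomial.finsetSum_coeff]
    conv_rhs => rw [p.as_sum, map_sum]
    exact Finset.sum_congr rfl fun m hmp => (hm m hmp).2

private lemma TopDeg_inj {n : ℕ} (u : ℚ) (hu : u ≠ 0) (p : MvPolynomial (Fin (n + 1)) ℚ)
    (h : aeval (fun i => C u * X i : Fin (n + 1) → MvPolynomial (Fin (n + 1)) ℚ) p = 0) :
    p = 0 := by
  have h1 : (aeval (fun i => C u⁻¹ * X i : Fin (n + 1) → MvPolynomial (Fin (n + 1)) ℚ)).comp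
      (aeval (fun i => C u * X i : Fin (n + 1) → MvPolynomial (Fin (n + 1)) ℚ)) =
      AlgHom.id ℚ _ := by
    ext1 i
    rw [AlgHom.comp_apply, aeval_X, map_mul, aeval_X, aeval_C, algebraMap_eq, ← mul_assoc,
      ← C_mul, mul_inv_cancel₀ hu, C_1, one_mul]
    rfl
  have h2 := congrArg (fun φ => φ p) h1
  simp only [AlgHom.comp_apply, h, map_zero] at h2
  exact h2.symm

theorem top_degree {n d : ℕ} {ι : Type*} (T : Finset ι)
    (h : ι → MvPolynomial (Fin (n + 1)) ℚ) (hh : ∀ j ∈ T, (h j).IsHomogeneous d)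
    (a : ι → ℕ) (ha : ∀ i ∈ T, ∀ j ∈ T, a i = a j → i = j) (u : ℚ) (hu : u ≠ 0)
    (v : Fin (n + 1) → ℚ)
    (h0 : ∑ j ∈ T, aeval (fun i => C u * X i - C (v i) : Fin (n + 1) → MvPolynomial (Fin (n + 1)) ℚ)
      (h j) * X 0 ^ a j = 0) : ∀ j ∈ T, h j = 0 := by
  classical
  by_contra hcon
  push Not at hcon
  obtain ⟨j1, hj1, hne1⟩ := hcon
  obtain ⟨j0, hj0, hmax⟩ := Finset.exists_max_image (T.filter fun j => h j ≠ 0) a
    ⟨j1, Finset.mem_filter.2 ⟨hj1, hne1⟩⟩
  rw [Finset.mem_filter] at hj0
  let φ : MvPolynomial (Fin (n + 1)) ℚ →ₐ[ℚ] Polynomial (MvPolynomial (Fin (n + 1)) ℚ) :=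
    aeval fun i => Polynomial.C (X i) * Polynomial.X
  have hφX : ∀ i, φ (X i) = Polynomial.C (X i) * Polynomial.X := fun i => aeval_X _ i
  have hφC : ∀ c : ℚ, φ (C c) = Polynomial.C (C c) := fun c => by
    rw [← algebraMap_eq, AlgHom.commutes]
    rfl
  let q : ι → Polynomial (MvPolynomial (Fin (n + 1)) ℚ) := fun j =>
    aeval (fun i => Polynomial.C (C u * X i) * Polynomial.X + Polynomial.C (-(C (v i)))) (h j)
  have hφ : ∀ j, φ (aeval (fun i => C u * X i - C (v i) : Fin (n + 1) →
      MvPolynomial (Fin (n + 1)) ℚ) (h j)) = q j := by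
    intro j
    rw [← AlgHom.comp_apply]
    congr 1
    ext1 i
    rw [AlgHom.comp_apply, aeval_X, aeval_X, map_sub, map_mul]
    rw [hφX, hφC, hφC, Polynomial.C_mul, Polynomial.C_neg]
    ring
  have h1 := congrArg φ h0
  rw [map_sum, map_zero] at h1
  have h2 := congrArg (fun P => Polynomial.coeff P (d + a j0)) h1
  simp only [Polynomial.finsetSum_coeff, Polynomial.coeff_zero] at h2
  have hterm : ∀ j, φ (aeval (fun i => C u * X i - C (v i) : Fin (n + 1) →
      MvPolynomial (Fin (n + 1)) ℚ) (h j) * X 0 ^ a j) =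
      q j * Polynomial.C (X 0 ^ a j) * Polynomial.X ^ a j := by
    intro j
    rw [map_mul, hφ, map_pow, hφX, mul_pow, Polynomial.C_pow, mul_assoc]
  rw [Finset.sum_eq_single_of_mem j0 hj0.1] at h2
  · rw [hterm, Polynomial.coeff_mul_X_pow, Polynomial.coeff_mul_C,
      (TopDeg_key _ _ d (h j0) (hh j0 hj0.1)).2] at h2
    rcases mul_eq_zero.1 h2 with h3 | h3
    · exact hj0.2 (TopDeg_inj u hu _ h3)
    · exact pow_ne_zero (a j0) (X_ne_zero (R := ℚ) (0 : Fin (n + 1))) h3
  · intro j hj hjne
    rw [hterm]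
    by_cases hz : h j = 0
    · have : q j = 0 := by
        simp only [q, hz, map_zero]
      rw [this, zero_mul, zero_mul, Polynomial.coeff_zero]
    · have hlt : a j < a j0 := lt_of_le_of_ne (hmax j (Finset.mem_filter.2 ⟨hj, hz⟩))
        fun he => hjne (ha j hj j0 hj0.1 he)
      refine Polynomial.coeff_eq_zero_of_natDegree_lt ?_
      have hq : (q j).natDegree ≤ d := (TopDeg_key _ _ d (h j) (hh j hj)).1
      have h5 : (q j * Polynomial.C (X 0 ^ a j : MvPolynomial (Fin (n + 1)) ℚ)).natDegree ≤ d :=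
        (Polynomial.natDegree_mul_C_le _ _).trans hq
      have h6 : (q j * Polynomial.C (X 0 ^ a j : MvPolynomial (Fin (n + 1)) ℚ) *
          Polynomial.X ^ a j).natDegree ≤ d + a j :=
        Polynomial.natDegree_mul_le_of_le h5 (Polynomial.natDegree_X_pow_le _)
      omega

end Pool.Agent.H37.NF
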