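import Pool.Agent.H37.NF.Gen
import Pool.Agent.H37.NF.TopDeg

/-! MODULE Indep (about 170 lines). Paper 3.5 (a): the series `aeval Φ (S.f j)` are linearly independent over `F0 r`.

Let `∑ j, c j • aeval Φ (S.f j) = 0` with `c j ∈ F0 r`. Multiplying by a common denominator (`IsLocalization.exist_integer_multiples_of_finset` or `..of_fintype`) we may assume `c j = algebraMap (cc j)`, `cc j : MvPolynomial (Fin r) ℚ`. Let `d` bound the total degrees, `h j` homogeneous of degree `d`
with `aeval (lamG r) (h j) = c j` (`exists_homog`). Put `G = ∑ j, aeval (fun i => toQ (eta S.O (S.y i))) (h j) * toQ (S.f j)` in `MvPolynomial σ ℚ`. `aeval Φ G = ∑ j, aeval (fun i => (C O_0 * X) * C (lamG i)) (h j) * aeval Φ (S.f j) = (C O_0 * X)^d * ∑ j, C (c j) * aeval Φ (S.f j) = 0`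
(`aeval_smul_homog`, `hη`), so `G ∈ I` (`hk`). Now `toQ (eta S.O (S.y i)) = C O_0 * S.yQ i - C v_i`, `v_i = lval (S.y i) S.O`, and `toQ (S.f j) = S.yQ 0 ^ a_j * S.cQ ^ b_j`, `(a_j, b_j) = S.ν j`. Hence `G = ∑_(b ≤ b0) aeval S.yQ (p b) * S.cQ ^ b` with
`p b = ∑_(j : b_j = b) aeval (fun i => C O_0 * X i - C v_i) (h j) * X 0 ^ a_j`. By `hS.pow` every `p b = 0`; `top_degree` (for fixed `b` the `a_j` are different, `hS.νinj`) gives `h j = 0` for all `j`, so `c j = 0`. -/

set_option autoImplicit false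

namespace Pool.Agent.H37.NF

open MvPolynomial Pool.H76.NN

variable {σ : Type} [Fintype σ] [DecidableEq σ] {r : ℕ} {S : Sys σ r}
  {I : Ideal (MvPolynomial σ ℚ)} {b0 : ℕ}

omit [Fintype σ] [DecidableEq σ] in
lemma indep_toQ (Φ : σ → PowerSeries (F0 r)) (g : MvPolynomial σ ℤ) :
    aeval Φ (toQ g) = aeval Φ g := by
  rw [aeval_def, aeval_def, toQ, eval₂_map]
  congr 1
  exact RingHom.ext_int _ _

lemma indep_C (h : MvPolynomial (Fin (r + 1)) ℚ) :
    aeval (fun i => (PowerSeries.C (lamG r i) : PowerSeries (F0 r))) h =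
      PowerSeries.C (aeval (lamG r) h) := by
  have h1 := comp_aeval_apply (lamG r)
    ((PowerSeries.C : F0 r →+* PowerSeries (F0 r)).toRatAlgHom) h
  exact h1.symm

theorem f_indep (hS : S.Good I b0) (Φ : σ → PowerSeries (F0 r))
    (hk : ∀ g : MvPolynomial σ ℚ, aeval Φ g = 0 ↔ g ∈ I)
    (hη : ∀ j, aeval Φ (eta S.O (S.y j)) =
        PowerSeries.C ((S.O.1 : F0 r)) * PowerSeries.C (lamG r j) * PowerSeries.X) :
    LinearIndependent (F0 r) fun j => aeval Φ (S.f j) := by
  classical
  rw [Fintype.linearIndependent_iff]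
  intro c hc
  -- clear denominators
  obtain ⟨b, hb⟩ := IsLocalization.exist_integer_multiples_of_finite
    (nonZeroDivisors (MvPolynomial (Fin r) ℚ)) c
  choose cc hcc using hb
  have hb0 : algebraMap (MvPolynomial (Fin r) ℚ) (F0 r) b ≠ 0 := by
    have h1 : (b : MvPolynomial (Fin r) ℚ) ≠ 0 := nonZeroDivisors.ne_zero b.2
    intro h2
    exact h1 ((IsFractionRing.injective (MvPolynomial (Fin r) ℚ) (F0 r))
      (by rw [h2, map_zero]))
  have hcc' : ∀ j, algebraMap (MvPolynomial (Fin r) ℚ) (F0 r) (cc j) =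
      algebraMap (MvPolynomial (Fin r) ℚ) (F0 r) b * c j := by
    intro j
    rw [hcc j, Algebra.smul_def]
  -- homogenise
  set d := ∑ j, (cc j).totalDegree with hd
  have hex : ∀ j, ∃ h : MvPolynomial (Fin (r + 1)) ℚ, h.IsHomogeneous d ∧
      aeval (lamG r) h = algebraMap (MvPolynomial (Fin r) ℚ) (F0 r) (cc j) := fun j =>
    exists_homog (cc j) (Finset.single_le_sum (f := fun j => (cc j).totalDegree)
      (fun _ _ => Nat.zero_le _) (Finset.mem_univ j))
  choose h hh1 hh2 using hex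
  set G : MvPolynomial σ ℚ := ∑ j, aeval (fun i => toQ (eta S.O (S.y i))) (h j) * toQ (S.f j)
    with hG
  have hG0 : aeval Φ G = 0 := by
    rw [hG, map_sum]
    have h1 : ∀ j ∈ (Finset.univ : Finset (Fin (S.M + 1))),
        aeval Φ (aeval (fun i => toQ (eta S.O (S.y i))) (h j) * toQ (S.f j)) =
        (PowerSeries.C ((S.O.1 : F0 r)) * PowerSeries.X) ^ d *
          PowerSeries.C (algebraMap (MvPolynomial (Fin r) ℚ) (F0 r) b) *
            (c j • aeval Φ (S.f j)) := by
      intro j _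
      rw [map_mul, comp_aeval_apply, indep_toQ]
      have h2 : (fun i => aeval Φ (toQ (eta S.O (S.y i)))) = fun i =>
          (PowerSeries.C ((S.O.1 : F0 r)) * PowerSeries.X) * PowerSeries.C (lamG r i) := by
        funext i
        rw [indep_toQ, hη]
        ring
      rw [h2, aeval_smul_homog (h j) (hh1 j), indep_C, hh2, hcc', map_mul,
        PowerSeries.smul_eq_C_mul]
      ring
    rw [Finset.sum_congr rfl h1, ← Finset.mul_sum, hc, mul_zero]
  have hGI : G ∈ I := (hk G).1 hG0
  -- expand in powers of the primitive element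
  set s : (Fin (r + 1) → MvPolynomial (Fin (r + 1)) ℚ) := fun i =>
    C (S.O.1 : ℚ) * X i - C (lval (S.y i) S.O : ℚ) with hs
  set p : ℕ → MvPolynomial (Fin (r + 1)) ℚ := fun b =>
    ∑ j ∈ Finset.univ.filter (fun j => (S.ν j).2 = b), aeval s (h j) * X 0 ^ (S.ν j).1 with hp
  have hGp : G = ∑ b ∈ Finset.range (b0 + 1), aeval S.yQ (p b) * S.cQ ^ b := by
    have h1 : ∀ b ∈ Finset.range (b0 + 1), aeval S.yQ (p b) * S.cQ ^ b =
        ∑ j ∈ Finset.univ.filter (fun j => (S.ν j).2 = b),
          aeval (fun i => toQ (eta S.O (S.y i))) (h j) * toQ (S.f j) := by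
      intro b _
      rw [hp]
      simp only
      rw [map_sum, Finset.sum_mul]
      refine Finset.sum_congr rfl fun j hj => ?_
      rw [Finset.mem_filter] at hj
      rw [map_mul, comp_aeval_apply, map_pow, aeval_X]
      have h2 : (fun i => aeval S.yQ (s i)) = fun i => toQ (eta S.O (S.y i)) := by
        funext i
        rw [hs]
        simp only
        rw [map_sub, map_mul, aeval_X, aeval_C, aeval_C]
        unfold eta Sys.yQ toQ
        rw [map_sub, map_mul, MvPolynomial.map_C, MvPolynomial.map_C]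
        simp [MvPolynomial.algebraMap_eq]
      rw [h2]
      have h3 : toQ (S.f j) = S.yQ 0 ^ (S.ν j).1 * S.cQ ^ (S.ν j).2 := by
        unfold Sys.f Sys.yQ Sys.cQ
        rw [map_mul, map_pow, map_pow]
      rw [h3, hj.2]
      ring
    rw [Finset.sum_congr rfl h1, hG]
    exact (Finset.sum_fiberwise_of_maps_to (fun j _ => Finset.mem_range.2
      (Nat.lt_succ_of_le (hS.νb j))) _).symm
  rw [hGp] at hGI
  have hp0 := hS.pow p hGI
  intro j
  have h1 := top_degree (d := d) (Finset.univ.filter (fun i => (S.ν i).2 = (S.ν j).2)) h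
    (fun i _ => hh1 i) (fun i => (S.ν i).1) (by
      intro i hi i' hi' hii'
      rw [Finset.mem_filter] at hi hi'
      exact hS.νinj (Prod.ext hii' (hi.2.trans hi'.2.symm))) (S.O.1 : ℚ)
    (by exact_mod_cast hS.O0) (fun i => (lval (S.y i) S.O : ℚ)) (hp0 _ (hS.νb j)) j
    (Finset.mem_filter.2 ⟨Finset.mem_univ _, rfl⟩)
  have h2 := hh2 j
  rw [h1, map_zero, hcc' j] at h2
  exact (mul_eq_zero.1 h2.symm).resolve_left hb0

end Pool.Agent.H37.NF
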