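import Pool.Agent.H37.NF.Defs

/-! MODULE L1 (about 170 lines). The norm `l1` (sum of the absolute values of the coefficients, `Pool.H76.NN.l1`) of integral polynomials.

`l1 g = ∑ m ∈ s, |coeff m g|` for every finite `s` containing the support (`l1_eq_sum`). Triangle inequality; `l1 (monomial m a) = |a|`; multiplicativity: expand both factors as sums of monomials. `pderiv i (monomial m a) = monomial (m - single i 1) (a * m i)`,
`m i ≤ totalDegree`. `l1_det`: Leibniz formula (`Matrix.det_apply`), `(Fintype.card ι)!` permutations, each product at most `∏ b i`. `l1_dj`: `dj F i g = det (updateRow ..)` (`dj_eq_det`): rows `k ≠ i` have entries `pderiv l (F k)` with `l1 ≤ d * A`, row `i` has entries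
`pderiv l g` with `l1 ≤ totalDegree g * l1 g`; `(card σ)! (dA)^(card σ - 1) * totalDegree g * l1 g` (here `1 ≤ d * A`, so the exponent may be `card σ`). Degrees: `totalDegree (pderiv l g) ≤ totalDegree g - 1`; determinants of matrices with entries of degree `≤ d`. -/

set_option autoImplicit false

namespace Pool.Agent.H37.NF

open MvPolynomial Pool.H76.NN

variable {σ : Type} [Fintype σ] [DecidableEq σ]

omit [Fintype σ] [DecidableEq σ] in
theorem l1_eq_sum' (g : MvPolynomial σ ℤ) (s : Finset (σ →₀ ℕ)) (h : g.support ⊆ s) :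
    l1 g = ∑ m ∈ s, |g.coeff m| := by
  refine Finset.sum_subset h fun m _ hm => ?_
  rw [MvPolynomial.notMem_support_iff.1 hm, abs_zero]

omit [Fintype σ] [DecidableEq σ] in
theorem l1_nonneg (g : MvPolynomial σ ℤ) : 0 ≤ l1 g :=
  Finset.sum_nonneg fun _ _ => abs_nonneg _

omit [Fintype σ] [DecidableEq σ] in
theorem one_le_l1 {g : MvPolynomial σ ℤ} (hg : g ≠ 0) : 1 ≤ l1 g := by
  obtain ⟨m, hm⟩ := MvPolynomial.support_nonempty.2 hg
  have h1 : 1 ≤ |g.coeff m| := Int.one_le_abs (MvPolynomial.mem_support_iff.1 hm)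
  exact h1.trans (Finset.single_le_sum (f := fun m => |g.coeff m|) (fun _ _ => abs_nonneg _) hm)

omit [Fintype σ] [DecidableEq σ] in
theorem l1_monomial' (m : σ →₀ ℕ) (a : ℤ) : l1 (monomial m a : MvPolynomial σ ℤ) = |a| := by
  classical
  rw [l1_eq_sum' _ {m} support_monomial_subset, Finset.sum_singleton, coeff_monomial, if_pos rfl]

omit [Fintype σ] [DecidableEq σ] in
theorem l1_C (a : ℤ) : l1 (C a : MvPolynomial σ ℤ) = |a| := l1_monomial' 0 a

omit [Fintype σ] [DecidableEq σ] in
theorem l1_zero' : l1 (0 : MvPolynomial σ ℤ) = 0 := by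
  simp [l1]

omit [Fintype σ] [DecidableEq σ] in
theorem l1_add (g h : MvPolynomial σ ℤ) : l1 (g + h) ≤ l1 g + l1 h := by
  classical
  rw [l1_eq_sum' (g + h) (g.support ∪ h.support) support_add,
    l1_eq_sum' g (g.support ∪ h.support) Finset.subset_union_left,
    l1_eq_sum' h (g.support ∪ h.support) Finset.subset_union_right, ← Finset.sum_add_distrib]
  refine Finset.sum_le_sum fun m _ => ?_
  rw [coeff_add]
  exact abs_add_le _ _

omit [Fintype σ] [DecidableEq σ] in
theorem l1_neg' (g : MvPolynomial σ ℤ) : l1 (-g) = l1 g := by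
  unfold l1
  rw [support_neg]
  refine Finset.sum_congr rfl fun m _ => ?_
  rw [coeff_neg, abs_neg]

omit [Fintype σ] [DecidableEq σ] in
theorem l1_sub (g h : MvPolynomial σ ℤ) : l1 (g - h) ≤ l1 g + l1 h := by
  rw [sub_eq_add_neg, ← l1_neg' h]
  exact l1_add _ _

omit [Fintype σ] [DecidableEq σ] in
theorem l1_sum {ι : Type*} (s : Finset ι) (g : ι → MvPolynomial σ ℤ) :
    l1 (∑ i ∈ s, g i) ≤ ∑ i ∈ s, l1 (g i) := by
  classical
  induction s using Finset.induction_on with
  | empty => simp [l1_zero']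
  | insert a s ha ih =>
    rw [Finset.sum_insert ha, Finset.sum_insert ha]
    exact (l1_add _ _).trans (by linarith)

omit [Fintype σ] [DecidableEq σ] in
theorem l1_mul (g h : MvPolynomial σ ℤ) : l1 (g * h) ≤ l1 g * l1 h := by
  have e : g * h = ∑ m ∈ g.support, ∑ n ∈ h.support,
      monomial (m + n) (g.coeff m * h.coeff n) := by
    conv_lhs => rw [g.as_sum, h.as_sum]
    rw [Finset.sum_mul_sum]
    refine Finset.sum_congr rfl fun m _ => Finset.sum_congr rfl fun n _ => ?_
    rw [monomial_mul]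
  rw [e]
  refine (l1_sum _ _).trans ?_
  have e2 : l1 g * l1 h = ∑ m ∈ g.support, ∑ n ∈ h.support, |g.coeff m * h.coeff n| := by
    unfold l1
    rw [Finset.sum_mul_sum]
    refine Finset.sum_congr rfl fun m _ => Finset.sum_congr rfl fun n _ => ?_
    rw [abs_mul]
  rw [e2]
  refine Finset.sum_le_sum fun m _ => (l1_sum _ _).trans ?_
  refine Finset.sum_le_sum fun n _ => ?_
  rw [l1_monomial']

omit [Fintype σ] [DecidableEq σ] in
theorem l1_pow (g : MvPolynomial σ ℤ) (k : ℕ) : l1 (g ^ k) ≤ l1 g ^ k := by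
  induction k with
  | zero =>
    have : l1 (1 : MvPolynomial σ ℤ) = 1 := by
      rw [← C_1, l1_C, abs_one]
    rw [pow_zero, pow_zero, this]
  | succ k ih =>
    rw [pow_succ, pow_succ]
    exact (l1_mul _ _).trans (mul_le_mul_of_nonneg_right ih (l1_nonneg g))

omit [Fintype σ] [DecidableEq σ] in
theorem l1_prod' {ι : Type*} (s : Finset ι) (g : ι → MvPolynomial σ ℤ) :
    l1 (∏ i ∈ s, g i) ≤ ∏ i ∈ s, l1 (g i) := by
  classical
  induction s using Finset.induction_on with
  | empty =>
    have : l1 (1 : MvPolynomial σ ℤ) = 1 := by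
      rw [← C_1, l1_C, abs_one]
    rw [Finset.prod_empty, Finset.prod_empty, this]
  | insert a s ha ih =>
    rw [Finset.prod_insert ha, Finset.prod_insert ha]
    exact (l1_mul _ _).trans (mul_le_mul_of_nonneg_left ih (l1_nonneg _))

theorem l1_lf (y : σ → ℤ) : l1 (lf y) ≤ ∑ i, |y i| := by
  unfold lf
  refine (l1_sum _ _).trans (Finset.sum_le_sum fun i _ => ?_)
  refine (l1_mul _ _).trans ?_
  have : l1 (X i : MvPolynomial σ ℤ) = 1 := (l1_monomial' _ 1).trans abs_one
  rw [l1_C, this, mul_one]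

omit [Fintype σ] in
theorem pderiv_eq_sum' {B : Type*} [CommRing B] (i : σ) (g : MvPolynomial σ B) :
    pderiv i g = ∑ m ∈ g.support, monomial (m - Finsupp.single i 1) (g.coeff m * (m i : B)) := by
  conv_lhs => rw [g.as_sum]
  rw [map_sum]
  refine Finset.sum_congr rfl fun m _ => ?_
  rw [pderiv_monomial]

omit [Fintype σ] [DecidableEq σ] in
theorem apply_le_totalDegree' {B : Type*} [CommRing B] (i : σ) (g : MvPolynomial σ B)
    (m : σ →₀ ℕ) (hm : m ∈ g.support) : m i ≤ g.totalDegree := by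
  refine le_trans ?_ (le_totalDegree hm)
  exact Finsupp.le_degree i m

omit [Fintype σ] in
theorem l1_pderiv (i : σ) (g : MvPolynomial σ ℤ) :
    l1 (pderiv i g) ≤ (g.totalDegree : ℤ) * l1 g := by
  rw [pderiv_eq_sum']
  refine (l1_sum _ _).trans ?_
  unfold l1
  rw [Finset.mul_sum]
  refine Finset.sum_le_sum fun m hm => ?_
  have h := l1_monomial' (m - Finsupp.single i 1) (g.coeff m * (m i : ℤ))
  unfold l1 at h
  rw [h, abs_mul, mul_comm]
  refine mul_le_mul_of_nonneg_right ?_ (abs_nonneg _)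
  rw [Nat.abs_cast]
  exact_mod_cast apply_le_totalDegree' i g m hm

omit [Fintype σ] [DecidableEq σ] in
theorem l1_det {ι : Type*} [Fintype ι] [DecidableEq ι] (A : Matrix ι ι (MvPolynomial σ ℤ))
    (b : ι → ℤ) (hb : ∀ i, 0 ≤ b i) (h : ∀ i j, l1 (A i j) ≤ b i) :
    l1 A.det ≤ ((Fintype.card ι).factorial : ℤ) * ∏ i, b i := by
  rw [Matrix.det_apply]
  refine (l1_sum _ _).trans ?_
  have h1 : ∀ τ : Equiv.Perm ι, l1 (Equiv.Perm.sign τ • ∏ i, A (τ i) i) ≤ ∏ i, b i := by
    intro τ
    have h2 : l1 (Equiv.Perm.sign τ • ∏ i, A (τ i) i) = l1 (∏ i, A (τ i) i) := by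
      rcases Int.units_eq_one_or (Equiv.Perm.sign τ) with h3 | h3
      · rw [h3, one_smul]
      · rw [h3, Units.neg_smul, one_smul, l1_neg']
    rw [h2]
    refine (l1_prod' _ _).trans ?_
    have h3 : ∏ i, b i = ∏ i, b (τ i) := (Equiv.prod_comp τ b).symm
    rw [h3]
    exact Finset.prod_le_prod (fun i _ => l1_nonneg _) fun i _ => h _ _
  refine (Finset.sum_le_sum fun τ _ => h1 τ).trans ?_
  rw [Finset.sum_const, Finset.card_univ, Fintype.card_perm, nsmul_eq_mul]

omit [Fintype σ] in
theorem totalDegree_pderiv_le {B : Type*} [CommRing B] (i : σ) (g : MvPolynomial σ B) :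
    (pderiv i g).totalDegree ≤ g.totalDegree - 1 := by
  rw [pderiv_eq_sum']
  refine totalDegree_finsetSum_le fun m hm => ?_
  by_cases h0 : m i = 0
  · rw [h0, Nat.cast_zero, mul_zero, map_zero, totalDegree_zero]
    exact Nat.zero_le _
  · refine (totalDegree_monomial_le _ _).trans ?_
    have h1 : m - Finsupp.single i 1 + Finsupp.single i 1 = m := by
      refine tsub_add_cancel_of_le ?_
      rw [Finsupp.single_le_iff]
      omega
    have h2 : (m - Finsupp.single i 1).degree + (Finsupp.single i 1 : σ →₀ ℕ).degree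
        = m.degree := by
      rw [← map_add, h1]
    rw [Finsupp.degree_single] at h2
    have h3 : m.degree ≤ g.totalDegree := le_totalDegree hm
    have h4 : ((m - Finsupp.single i 1).sum fun _ ↦ id) = (m - Finsupp.single i 1).degree := rfl
    rw [h4]
    omega

omit [Fintype σ] [DecidableEq σ] in
theorem totalDegree_det_le {B : Type*} [CommRing B] {ι : Type*} [Fintype ι] [DecidableEq ι]
    (A : Matrix ι ι (MvPolynomial σ B)) (d : ι → ℕ) (h : ∀ i j, (A i j).totalDegree ≤ d i) :
    A.det.totalDegree ≤ ∑ i, d i := by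
  rw [Matrix.det_apply]
  refine totalDegree_finsetSum_le fun τ _ => ?_
  have h2 : (Equiv.Perm.sign τ • ∏ i, A (τ i) i).totalDegree = (∏ i, A (τ i) i).totalDegree := by
    rcases Int.units_eq_one_or (Equiv.Perm.sign τ) with h3 | h3
    · rw [h3, one_smul]
    · rw [h3, Units.neg_smul, one_smul, totalDegree_neg]
  rw [h2]
  refine (totalDegree_finsetProd _ _).trans ?_
  have h3 : ∑ i, d i = ∑ i, d (τ i) := (Equiv.sum_comp τ d).symm
  rw [h3]
  exact Finset.sum_le_sum fun i _ => h _ _

theorem l1_JM' (F : σ → MvPolynomial σ ℤ) {d : ℕ} {A : ℤ}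
    (h1 : ∀ i, (F i).totalDegree ≤ d) (h2 : ∀ i, l1 (F i) ≤ A) (i j : σ) :
    l1 (JM F i j) ≤ d * A := by
  refine (l1_pderiv j (F i)).trans ?_
  refine mul_le_mul ?_ (h2 i) (l1_nonneg _) (Int.natCast_nonneg _)
  exact_mod_cast h1 i

theorem l1_J (F : σ → MvPolynomial σ ℤ) {d : ℕ} {A : ℤ} (hA : 1 ≤ A) (hd : 1 ≤ d)
    (h1 : ∀ i, (F i).totalDegree ≤ d) (h2 : ∀ i, l1 (F i) ≤ A) :
    l1 (J F) ≤ ((Fintype.card σ).factorial : ℤ) * (d * A) ^ Fintype.card σ := by
  have h0 : (0 : ℤ) ≤ d * A := mul_nonneg (Int.natCast_nonneg _) (by linarith)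
  have h := l1_det (JM F) (fun _ => (d : ℤ) * A) (fun _ => h0) (fun i j => l1_JM' F h1 h2 i j)
  rw [Finset.prod_const, Finset.card_univ] at h
  exact h

theorem l1_dj (F : σ → MvPolynomial σ ℤ) {d : ℕ} {A : ℤ} (hA : 1 ≤ A) (hd : 1 ≤ d)
    (h1 : ∀ i, (F i).totalDegree ≤ d) (h2 : ∀ i, l1 (F i) ≤ A) (i : σ)
    (g : MvPolynomial σ ℤ) :
    l1 (dj F i g) ≤
      ((Fintype.card σ).factorial : ℤ) * (d * A) ^ Fintype.card σ * (g.totalDegree * l1 g) := by
  have h0 : (1 : ℤ) ≤ d * A := by
    have : (1 : ℤ) ≤ d := by exact_mod_cast hd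
    nlinarith
  have hg : (0 : ℤ) ≤ g.totalDegree * l1 g := mul_nonneg (Int.natCast_nonneg _) (l1_nonneg _)
  rw [dj_eq_det]
  have h := l1_det ((JM F).updateRow i fun l => pderiv l g)
    (Function.update (fun _ => (d : ℤ) * A) i (g.totalDegree * l1 g)) ?_ ?_
  · refine h.trans ?_
    rw [mul_assoc]
    refine mul_le_mul_of_nonneg_left ?_ (Int.natCast_nonneg _)
    rw [Finset.prod_update_of_mem (Finset.mem_univ i), Finset.prod_const, mul_comm]
    refine mul_le_mul_of_nonneg_right ?_ hg
    refine pow_le_pow_right₀ h0 ?_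
    exact (Finset.card_le_card Finset.sdiff_subset).trans_eq Finset.card_univ
  · intro k
    by_cases hk : k = i
    · subst hk
      rw [Function.update_self]
      exact hg
    · rw [Function.update_of_ne hk]
      linarith
  · intro k j
    by_cases hk : k = i
    · subst hk
      rw [Function.update_self, Matrix.updateRow_self]
      exact l1_pderiv j g
    · rw [Function.update_of_ne hk, Matrix.updateRow_ne hk]
      exact l1_JM' F h1 h2 k j

theorem totalDegree_J_le {B : Type*} [CommRing B] (F : σ → MvPolynomial σ B) {d : ℕ}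
    (h1 : ∀ i, (F i).totalDegree ≤ d) : (J F).totalDegree ≤ Fintype.card σ * d := by
  have h := totalDegree_det_le (JM F) (fun _ => d) fun i j =>
    (totalDegree_pderiv_le j (F i)).trans ((Nat.sub_le _ _).trans (h1 i))
  rw [Finset.sum_const, Finset.card_univ, smul_eq_mul] at h
  exact h

/-- `dj` raises the degree by at most `card σ * d - 1`: `deg (dj F i g) + 1 ≤ deg g + card σ * d` (`d ≥ 1`), stated
without the subtraction. -/
theorem totalDegree_dj_le {B : Type*} [CommRing B] (F : σ → MvPolynomial σ B) {d : ℕ}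
    (hd : 1 ≤ d) (h1 : ∀ i, (F i).totalDegree ≤ d) (i : σ) (g : MvPolynomial σ B) :
    (dj F i g).totalDegree ≤ g.totalDegree + (Fintype.card σ * d - 1) := by
  rw [dj_eq_det]
  have h := totalDegree_det_le ((JM F).updateRow i fun l => pderiv l g)
    (Function.update (fun _ => d - 1) i (g.totalDegree - 1)) ?_
  · refine h.trans ?_
    rw [Finset.sum_update_of_mem (Finset.mem_univ i), Finset.sum_const, smul_eq_mul]
    have hc : (Finset.univ \ {i} : Finset σ).card + 1 = Fintype.card σ := by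
      rw [Finset.card_sdiff_of_subset (Finset.subset_univ _), Finset.card_univ,
        Finset.card_singleton]
      have := Fintype.card_pos_iff.2 ⟨i⟩
      omega
    rw [← hc]
    set c := (Finset.univ \ {i} : Finset σ).card
    obtain ⟨e, rfl⟩ : ∃ e, d = e + 1 := ⟨d - 1, by omega⟩
    have h3 : (c + 1) * (e + 1) = c * e + c + e + 1 := by ring
    rw [h3]
    simp only [Nat.add_sub_cancel]
    omega
  · intro k j
    by_cases hk : k = i
    · subst hk
      rw [Function.update_self, Matrix.updateRow_self]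
      exact totalDegree_pderiv_le j g
    · rw [Function.update_of_ne hk, Matrix.updateRow_ne hk]
      exact (totalDegree_pderiv_le j (F k)).trans (Nat.sub_le_sub_right (h1 k) 1)

end Pool.Agent.H37.NF
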