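import Pool.Agent.H37.NF.Defs

/-! MODULE Wron.  Wronskians (sections 3.5 (b), (c) of the paper). -/

set_option autoImplicit false

namespace Pool.Agent.H37.NF

open Finset

section smul

variable {R : Type*} [CommRing R]

lemma wr_coeffs (θ D : Derivation ℤ R R) (u : R) (hD : ∀ f, D f = u * θ f) (i : ℕ) :
    ∃ a : ℕ → R, a i = u ^ i ∧ (∀ l, i < l → a l = 0) ∧
      ∀ f, (⇑D)^[i] f = ∑ l ∈ range (i + 1), a l * (⇑θ)^[l] f := by
  induction i with
  | zero =>
    refine ⟨fun l => if l = 0 then 1 else 0, by simp, ?_, ?_⟩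
    · intro l hl
      simp [hl.ne']
    · intro f
      simp
  | succ i ih =>
    obtain ⟨a, h1, h2, h3⟩ := ih
    refine ⟨fun l => u * (θ (a l) + (if l = 0 then 0 else a (l - 1))), ?_, ?_, ?_⟩
    · have : a (i + 1) = 0 := h2 _ (Nat.lt_succ_self i)
      simp only [this, map_zero, Nat.succ_ne_zero, if_false, Nat.add_sub_cancel, h1, zero_add]
      ring
    · intro l hl
      have e1 : a l = 0 := h2 _ (by omega)
      have e2 : a (l - 1) = 0 := h2 _ (by omega)
      have e3 : l ≠ 0 := by omega
      simp only [e1, e2, e3, map_zero, if_false, add_zero, mul_zero]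
    · intro f
      rw [Function.iterate_succ_apply', h3, hD, map_sum]
      have hL : ∀ l, θ (a l * (⇑θ)^[l] f) =
          θ (a l) * (⇑θ)^[l] f + a l * (⇑θ)^[l + 1] f := by
        intro l
        rw [Derivation.leibniz, Function.iterate_succ_apply', smul_eq_mul, smul_eq_mul]
        ring
      rw [Finset.sum_congr rfl (fun l _ => hL l), Finset.sum_add_distrib]
      have hz : a (i + 1) = 0 := h2 _ (Nat.lt_succ_self i)
      have e1 : ∑ l ∈ range (i + 1 + 1), θ (a l) * (⇑θ)^[l] f =
          ∑ l ∈ range (i + 1), θ (a l) * (⇑θ)^[l] f := by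
        rw [Finset.sum_range_succ, hz, map_zero, zero_mul, add_zero]
      have e2 : ∑ l ∈ range (i + 1 + 1), (if l = 0 then (0 : R) else a (l - 1)) * (⇑θ)^[l] f =
          ∑ l ∈ range (i + 1), a l * (⇑θ)^[l + 1] f := by
        rw [Finset.sum_range_succ']
        simp
      rw [← e1, ← e2, ← Finset.sum_add_distrib, Finset.mul_sum]
      refine Finset.sum_congr rfl fun l _ => ?_
      ring

theorem wr_smul (θ D : Derivation ℤ R R) (u : R)
    (hD : ∀ f, D f = u * θ f) {M : ℕ} (g : Fin M → R) :
    (wr D g).det = u ^ (∑ i : Fin M, (i : ℕ)) * (wr θ g).det := by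
  choose a h1 h2 h3 using wr_coeffs θ D u hD
  have key : wr D g = (Matrix.of fun i l : Fin M => a i l) * wr θ g := by
    ext i j
    rw [Matrix.mul_apply, wr_apply, h3]
    simp only [Matrix.of_apply, wr_apply]
    rw [Fin.sum_univ_eq_sum_range (fun l => a i l * (⇑θ)^[l] (g j)) M]
    refine Finset.sum_subset ?_ ?_
    · intro l hl
      have := i.2
      rw [Finset.mem_range] at hl ⊢
      omega
    · intro l _ hl
      rw [Finset.mem_range] at hl
      rw [h2 _ _ (by omega), zero_mul]
  rw [key, Matrix.det_mul, Matrix.det_of_lowerTriangular]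
  · simp only [Matrix.of_apply, h1]
    rw [Finset.prod_pow_eq_pow_sum]
  · intro i j hij
    exact h2 _ _ hij

end smul

section wron

variable {k : Type*} [Field k]

lemma theta_iter (θ : PowerSeries k → PowerSeries k)
    (hθ : ∀ f, θ f = PowerSeries.X * PowerSeries.derivative k f) (n : ℕ) (u : PowerSeries k)
    (i : ℕ) : ∃ w : PowerSeries k, θ^[i] (PowerSeries.X ^ n * u) = PowerSeries.X ^ n * w ∧
      PowerSeries.constantCoeff w = (n : k) ^ i * PowerSeries.constantCoeff u := by
  induction i with
  | zero => exact ⟨u, rfl, by simp⟩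
  | succ i ih =>
    obtain ⟨w, h1, h2⟩ := ih
    refine ⟨(n : PowerSeries k) * w + PowerSeries.X * PowerSeries.derivative k w, ?_, ?_⟩
    · rw [Function.iterate_succ_apply', h1, hθ, Derivation.leibniz, Derivation.leibniz_pow,
        PowerSeries.derivative_X]
      simp only [smul_eq_mul, nsmul_eq_mul]
      rcases n with _ | n
      · simp
      · rw [Nat.add_sub_cancel]
        push_cast
        ring
    · rw [map_add, map_mul, map_mul, h2, PowerSeries.constantCoeff_X, zero_mul, add_zero,
        map_natCast]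
      ring

lemma theta_lin (θ : PowerSeries k → PowerSeries k)
    (hθ : ∀ f, θ f = PowerSeries.X * PowerSeries.derivative k f) {M : ℕ} (c : Fin M → k)
    (g : Fin M → PowerSeries k) (i : ℕ) :
    θ^[i] (∑ l, c l • g l) = ∑ l, c l • θ^[i] (g l) := by
  induction i with
  | zero => rfl
  | succ i ih =>
    rw [Function.iterate_succ_apply', ih, hθ, map_sum, Finset.mul_sum]
    refine Finset.sum_congr rfl fun l _ => ?_
    rw [Function.iterate_succ_apply', hθ, Derivation.map_smul, mul_smul_comm]

/-- the orders of the nonzero elements of a subspace -/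
def ordSet (V : Submodule k (PowerSeries k)) : Set ℕ :=
  {n | ∃ v ∈ V, (∀ m < n, PowerSeries.coeff m v = 0) ∧ PowerSeries.coeff n v ≠ 0}

lemma exists_ord (V : Submodule k (PowerSeries k)) (v : PowerSeries k) (hv : v ∈ V)
    (h0 : v ≠ 0) : ∃ n ∈ ordSet V, PowerSeries.coeff n v ≠ 0 := by
  classical
  have hex : ∃ n, PowerSeries.coeff n v ≠ 0 := by
    by_contra h
    push Not at h
    exact h0 (PowerSeries.ext fun n => by simpa using h n)
  refine ⟨Nat.find hex, ⟨v, hv, ?_, Nat.find_spec hex⟩, Nat.find_spec hex⟩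
  intro m hm
  have := Nat.find_min hex hm
  simpa using this

lemma exists_embedding (V : Submodule k (PowerSeries k)) {M : ℕ}
    [FiniteDimensional k V] (hV : Module.finrank k V = M) : Nonempty (Fin M ↪ ordSet V) := by
  classical
  by_cases hfin : (ordSet V).Finite
  · have : Fintype (ordSet V) := hfin.fintype
    let φ : V →ₗ[k] (ordSet V → k) :=
      LinearMap.pi fun n => (PowerSeries.coeff (R := k) (n : ℕ)).comp V.subtype
    have hφ : Function.Injective φ := by
      rw [← LinearMap.ker_eq_bot, LinearMap.ker_eq_bot']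
      intro v hv
      by_contra hne
      have hne' : (v : PowerSeries k) ≠ 0 := fun h => hne (Subtype.ext h)
      obtain ⟨n, hn, hc⟩ := exists_ord V v v.2 hne'
      exact hc (congrFun hv ⟨n, hn⟩)
    have hle := LinearMap.finrank_le_finrank_of_injective hφ
    rw [hV, Module.finrank_fintype_fun_eq_card] at hle
    apply Function.Embedding.nonempty_of_card_le
    rwa [Fintype.card_fin]
  · have hinf : (ordSet V).Infinite := hfin
    exact ⟨(Fin.valEmbedding (n := M)).trans (hinf.natEmbedding _)⟩

theorem wronskian_ne_zero [CharZero k]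
    (θ : Derivation ℤ (PowerSeries k) (PowerSeries k))
    (hθ : ∀ f, θ f = PowerSeries.X * PowerSeries.derivative k f) {M : ℕ}
    (g : Fin M → PowerSeries k) (hg : LinearIndependent k g) : (wr θ g).det ≠ 0 := by
  classical
  intro hdet
  let V : Submodule k (PowerSeries k) := Submodule.span k (Set.range g)
  have hfd : FiniteDimensional k V := FiniteDimensional.span_of_finite k (Set.finite_range g)
  have hV : Module.finrank k V = M := by
    have := finrank_span_eq_card hg
    simpa using this
  obtain ⟨e⟩ := exists_embedding V hV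
  have he : ∀ j : Fin M, ∃ v ∈ V, (∀ m < ((e j : ordSet V) : ℕ), PowerSeries.coeff m v = 0) ∧
      PowerSeries.coeff ((e j : ordSet V) : ℕ) v ≠ 0 := fun j => (e j).2
  choose h hhV hh0 hh1 using he
  have hdiv : ∀ j, ∃ u, h j = PowerSeries.X ^ ((e j : ordSet V) : ℕ) * u := by
    intro j
    exact PowerSeries.X_pow_dvd_iff.mpr (hh0 j)
  choose u hu using hdiv
  have hu0 : ∀ j, PowerSeries.constantCoeff (u j) ≠ 0 := by
    intro j hj
    apply hh1 j
    rw [hu j]
    have := PowerSeries.coeff_X_pow_mul (u j) ((e j : ordSet V) : ℕ) 0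
    rw [zero_add] at this
    rw [this]
    simpa using hj
  -- the Wronskian of `h` is a multiple of that of `g`
  have hc : ∀ j, ∃ c : Fin M → k, ∑ l, c l • g l = h j := by
    intro j
    exact (Submodule.mem_span_range_iff_exists_fun k).mp (hhV j)
  choose c hc using hc
  have hmat : wr θ h = wr θ g * (Matrix.of fun l j => PowerSeries.C (c j l)) := by
    ext1 i j
    rw [Matrix.mul_apply, wr_apply, ← hc j, theta_lin θ hθ]
    refine Finset.sum_congr rfl fun l _ => ?_
    rw [wr_apply, Matrix.of_apply, PowerSeries.smul_eq_C_mul, mul_comm]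
  have hzero : (wr θ h).det = 0 := by
    rw [hmat, Matrix.det_mul, hdet, zero_mul]
  -- the Wronskian of `h` is nonzero
  have hw : ∀ i j : Fin M, ∃ w : PowerSeries k,
      (⇑θ)^[(i : ℕ)] (h j) = PowerSeries.X ^ ((e j : ordSet V) : ℕ) * w ∧
      PowerSeries.constantCoeff w =
        (((e j : ordSet V) : ℕ) : k) ^ (i : ℕ) * PowerSeries.constantCoeff (u j) := by
    intro i j
    obtain ⟨w, h1, h2⟩ := theta_iter θ hθ ((e j : ordSet V) : ℕ) (u j) i
    exact ⟨w, by rw [hu j]; exact h1, h2⟩
  choose w hw1 hw2 using hw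
  have hmat2 : wr θ h =
      Matrix.of fun i j => PowerSeries.X ^ ((e j : ordSet V) : ℕ) * (Matrix.of w) i j := by
    ext1 i j
    rw [wr_apply, hw1]
    rfl
  rw [hmat2, Matrix.det_mul_row] at hzero
  have hX : ∏ i : Fin M, (PowerSeries.X : PowerSeries k) ^ ((e i : ordSet V) : ℕ) ≠ 0 :=
    Finset.prod_ne_zero_iff.mpr fun i _ => pow_ne_zero _ PowerSeries.X_ne_zero
  rcases mul_eq_zero.mp hzero with h1 | h1
  · exact hX h1
  · have h2 : (PowerSeries.constantCoeff (R := k)) (Matrix.of w).det = 0 := by
      rw [h1, map_zero]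
    rw [RingHom.map_det] at h2
    have h3 : (PowerSeries.constantCoeff (R := k)).mapMatrix (Matrix.of w) =
        Matrix.of fun i j => PowerSeries.constantCoeff (u j) *
          (Matrix.vandermonde (fun j : Fin M => (((e j : ordSet V) : ℕ) : k))).transpose i j := by
      ext1 i j
      rw [RingHom.mapMatrix_apply, Matrix.map_apply, Matrix.of_apply, hw2, Matrix.of_apply,
        Matrix.transpose_apply, Matrix.vandermonde_apply, mul_comm]
    rw [h3, Matrix.det_mul_row, Matrix.det_transpose] at h2
    rcases mul_eq_zero.mp h2 with h4 | h4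
    · rw [Finset.prod_eq_zero_iff] at h4
      obtain ⟨j, _, hj⟩ := h4
      exact hu0 j hj
    · have hinj : Function.Injective (fun j : Fin M => (((e j : ordSet V) : ℕ) : k)) := by
        intro i j hij
        exact e.injective (Subtype.ext (Nat.cast_injective hij))
      exact (Matrix.det_vandermonde_ne_zero_iff.mpr hinj) h4

end wron

end Pool.Agent.H37.NF
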