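import Pool.Agent.H37.NF.Indep
import Pool.Agent.H37.NF.Wron

/-! MODULE Omega. Paper 3.5: `E` is not in `I`.

With the curve `Φ` of `generic_curve`, `θ f = X * derivative f` and `u = C O_0 * aeval Φ (J S.F)`:
`aeval Φ (S.D g) = u * θ (aeval Φ g)`, so `aeval Φ S.om` is the determinant of the derivatives
`(u θ)^[i]` of the independent series `aeval Φ (S.f j)`. -/

set_option autoImplicit false

namespace Pool.Agent.H37.NF

open MvPolynomial Pool.H76.NN

lemma wr_smul_fun {R : Type*} [CommRing R] (θ : R →+ R)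
    (hθ : ∀ a b, θ (a * b) = a * θ b + b * θ a) (u : R) (E : R → R)
    (hE : ∀ f, E f = u * θ f) {M : ℕ} (g : Fin M → R) :
    (wr E g).det = u ^ (∑ i : Fin M, (i : ℕ)) * (wr (⇑θ) g).det := by
  let T : Derivation ℤ R R := Derivation.mk' θ.toIntLinearMap hθ
  have hT : ⇑T = ⇑θ := rfl
  have hED : E = ⇑(u • T) := funext fun f => hE f
  rw [hED, wr_smul T (u • T) u (fun f => rfl), hT]

lemma wr_scaled_ne_zero {k : Type*} [Field k] [CharZero k] (u : PowerSeries k) (hu : u ≠ 0)
    (E : PowerSeries k → PowerSeries k)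
    (hE : ∀ f, E f = u * (PowerSeries.X * PowerSeries.derivative k f)) {M : ℕ}
    (g : Fin M → PowerSeries k) (hg : LinearIndependent k g) : (wr E g).det ≠ 0 := by
  let θ : Derivation ℤ (PowerSeries k) (PowerSeries k) :=
    (PowerSeries.X : PowerSeries k) • (PowerSeries.derivative k).restrictScalars ℤ
  have hθ : ∀ f, θ f = PowerSeries.X * PowerSeries.derivative k f := fun f => rfl
  have h1 := wronskian_ne_zero θ hθ g hg
  let θ' : PowerSeries k →+ PowerSeries k :=
    { toFun := fun f => θ f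
      map_zero' := map_zero θ
      map_add' := map_add θ }
  rw [wr_smul_fun θ' (fun a b => by
    change θ (a * b) = a * θ b + b * θ a
    rw [Derivation.leibniz, smul_eq_mul, smul_eq_mul]) u E (fun f => hE f)]
  exact mul_ne_zero (pow_ne_zero _ hu) h1

variable {σ : Type} [Fintype σ] [DecidableEq σ] {r : ℕ} {S : Sys σ r}
  {I : Ideal (MvPolynomial σ ℚ)} {b0 : ℕ}

theorem E_notMem (hS : S.Good I b0) : toQ S.E ∉ I := by
  obtain ⟨Φ, hkQ, hkZ, hη, hD, hJ⟩ := generic_curve hS
  have hind := f_indep hS Φ hkQ hη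
  have hO : (PowerSeries.C ((S.O.1 : F0 r)) : PowerSeries (F0 r)) ≠ 0 := by
    intro h
    have h1 : ((S.O.1 : F0 r)) = 0 := by
      have := congrArg (PowerSeries.constantCoeff (R := F0 r)) h
      simpa using this
    exact hS.O0 (by exact_mod_cast h1)
  let u : PowerSeries (F0 r) := PowerSeries.C ((S.O.1 : F0 r)) * aeval Φ (J S.F)
  have hu : u ≠ 0 := mul_ne_zero hO hJ
  let E : PowerSeries (F0 r) → PowerSeries (F0 r) :=
    fun f => u * (PowerSeries.X * PowerSeries.derivative (F0 r) f)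
  have hsemi : Function.Semiconj (aeval Φ : MvPolynomial σ ℤ → PowerSeries (F0 r)) S.D E := by
    intro g
    exact hD g
  have hmat : (aeval Φ : MvPolynomial σ ℤ →ₐ[ℤ] PowerSeries (F0 r)).mapMatrix (wr S.D S.f) =
      wr E (fun j => aeval Φ (S.f j)) := by
    ext1 i j
    rw [AlgHom.mapMatrix_apply, Matrix.map_apply, wr_apply, wr_apply]
    exact (hsemi.iterate_right (i : ℕ)) (S.f j)
  have hom : aeval Φ S.om ≠ 0 := by
    have h1 : aeval Φ S.om = (wr E (fun j => aeval Φ (S.f j))).det := by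
      rw [← hmat, ← AlgHom.map_det]
      rfl
    rw [h1]
    exact wr_scaled_ne_zero u hu E (fun f => rfl) _ hind
  have heta : aeval Φ S.eta1 ≠ 0 := by
    have h1 := hη 0
    have h3 : (PowerSeries.C (lamG r 0) : PowerSeries (F0 r)) = 1 := by
      rw [lamG, Fin.cons_zero, map_one]
    change aeval Φ (eta S.O (S.y 0)) ≠ 0
    rw [h1, h3, mul_one]
    exact mul_ne_zero hO PowerSeries.X_ne_zero
  intro hE
  have hE0 := (hkZ S.E).mpr hE
  have : aeval Φ S.E = aeval Φ (J S.F) * aeval Φ S.om * aeval Φ S.eta1 := by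
    rw [← map_mul, ← map_mul]
    rfl
  rw [this] at hE0
  exact mul_ne_zero (mul_ne_zero hJ hom) heta hE0

end Pool.Agent.H37.NF
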