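import Pool.Agent.H37.NF.Hv

/-! MODULE Rank (about 140 lines). Paper 3.9, first step: a nonzero determinant of values.

Let `s = hf I D`, `V = V I D` (finite dimensional over `ℚ`, spanned by `ev I (monomial m 1)`, `m.degree ≤ D`). For `P ∈ PPs` evaluation at `aff P` factors through `ev I` on polynomials of degree `≤ D` (`OnV I P`; `ev I g = ev I h` iff `g - h ∈ I`): functionals `ε_P : V → ℚ`. By `hinj` the intersection of their kernels is `0`, so
the `ε_P` span the dual of `V` and there are `P_1..P_s` such that `ε_(P_1)..ε_(P_s)` is a basis of the dual (`exists_linearIndependent..`, `Submodule.exists_fun_fin_finrank_span_eq`, or: the linear map `V → (PPs → ℚ)` is injective, its matrix has rank `s`, choose `s` independent rows). Choose monomials `m_1..m_s` whose images are a basis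
of `V` (`exists_basis` inside the spanning set; `Basis.extend`/`exists_linearIndependent`). The matrix `ε_(P_j)(ev (monomial m_i 1)) = eval (aff P_j) (monomial m_i 1)` is invertible, and `hv D (monomial m_i 1) P_j = (P_j)_0^D * ` this value (`hv_rat`): determinant `≠ 0` (over `ℚ`, `Int.cast`). -/

set_option autoImplicit false

namespace Pool.Agent.H37.NF

open MvPolynomial Pool.H76.NN

variable {σ : Type} [Fintype σ] [DecidableEq σ]

theorem exists_det (I : Ideal (MvPolynomial σ ℚ)) [I.IsPrime] (PPs : Finset (Pt σ))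
    (h0 : ∀ P ∈ PPs, P.1 ≠ 0) (hV : ∀ P ∈ PPs, OnV I P) (D : ℕ)
    (hinj : ∀ g : MvPolynomial σ ℚ, g.totalDegree ≤ D → (∀ P ∈ PPs, eval (aff P) g = 0) → g ∈ I) :
    ∃ (P : Fin (hf I D) → Pt σ) (m : Fin (hf I D) → σ →₀ ℕ), (∀ j, P j ∈ PPs) ∧
      (∀ i, (m i).degree ≤ D) ∧
      (Matrix.of fun i j => hv D (monomial (m i) (1 : ℤ)) (P j)).det ≠ 0 := by
  sorry

/-- the evaluation at the points is injective on polynomials modulo `I`, so `hf I D ≤ #PPs` -/
theorem hf_le_card (I : Ideal (MvPolynomial σ ℚ)) [I.IsPrime] (PPs : Finset (Pt σ))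
    (hV : ∀ P ∈ PPs, OnV I P) (D : ℕ)
    (hinj : ∀ g : MvPolynomial σ ℚ, g.totalDegree ≤ D → (∀ P ∈ PPs, eval (aff P) g = 0) → g ∈ I) :
    hf I D ≤ PPs.card := by
  sorry

/-- number of integral points of height `≤ B` -/
theorem card_le_of_ht (PPs : Finset (Pt σ)) (B : ℕ) (h : ∀ P ∈ PPs, Ht P B) :
    PPs.card ≤ (2 * B + 1) ^ (Fintype.card σ + 1) := by
  sorry

end Pool.Agent.H37.NF
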