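import Pool.Agent.H37.NF.SzB
import Pool.Agent.H37.NF.Hv

/-! MODULE SzC (about 170 lines). The final bound of 3.6: `log |W_P| ≤ C (M+1)^2 Λ log B`.

`W_P = P_0 * O_0 * hv (deg E) E P`, `|W_P| ≤ B * B * l1 E * B^(deg E)` (`abs_hv_le`). Take logarithms of `l1_E_le`: with `L = Real.log B ≥ 1`, `n = card σ`, hypotheses `log A ≤ C₁ Λ L`, `d ≤ C₁ Λ`, `1 ≤ Λ`, `m ≤ M ≤ B`, `Λ ≤ B^C₁`, all of the following are `≤ C Λ L` with `C = C(n, C₁)`: `log (n!)`, `n log (d A)`,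
`log KD` (`QQ + 1 ≤ B + (B+1) n C₁ B^C₁ + 1`, `log (QQ+1) ≤ C L`), `log (2AB)`. `log (M+1)! ≤ (M+1) log (M+1) ≤ 2 (M+1) L`, `m (M+1) log A ≤ (M+1)^2 C₁ Λ L`, `M (M+1) log KD ≤ (M+1)^2 C Λ L`, `(deg E + 2) L ≤ C (M+1)^2 Λ L`. Sum up (be generous with the constant). -/

set_option autoImplicit false

namespace Pool.Agent.H37.NF

open MvPolynomial Pool.H76.NN

/-- `W_P` -/
noncomputable def WW {σ : Type} [Fintype σ] [DecidableEq σ] {r : ℕ} (S : Sys σ r) (P : Pt σ) : ℤ :=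
  P.1 * S.O.1 * hv S.E.totalDegree S.E P

theorem log_W_le (n C₁ : ℕ) : ∃ C : ℕ, ∀ (σ : Type) [Fintype σ] [DecidableEq σ],
    Fintype.card σ = n → ∀ (r : ℕ) (S : Sys σ r) (d m : ℕ) (A : ℤ) (B Λ : ℕ), Sz S d m A B →
      3 ≤ B → 1 ≤ Λ → d ≤ C₁ * Λ → Λ ≤ B ^ C₁ → S.M ≤ B →
      Real.log A ≤ C₁ * Λ * Real.log B →
      (∀ P : Pt σ, Ht P B → Real.log |((WW S P : ℤ) : ℝ)| ≤
        C * (S.M + 1) ^ 2 * Λ * Real.log B) ∧ S.E.totalDegree ≤ C * (S.M + 1) ^ 2 * Λ := by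
  sorry

end Pool.Agent.H37.NF
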