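import Pool.Agent.H37.NF.Classes
import Pool.Agent.H37.NF.Omega
import Pool.Agent.H37.NF.Rank
import Pool.Agent.H37.NF.SzC

/-! MODULE MainIneq (about 190 lines). Paper 3.9.

`PP' = {P ∈ PPs : eval (aff P) (toQ S.E) ≠ 0}`. If `g` of degree `≤ D` vanishes on `PP'` then `g * toQ S.E` has degree `≤ 2D` and vanishes on `PPs`, so it is in `I`; `toQ S.E ∉ I` (`E_notMem`), so `g ∈ I`. `exists_det` for `PP'` gives `P j`, `m i`, `Δ = det (hv D (monomial (m i) 1) (P j)) ≠ 0`, `s = hf I D`.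
`|Δ| ≤ s! * B^(s D)` (each entry `≤ B^D` by `abs_hv_le`, `l1 (monomial) = 1`; `Matrix.det_apply`), `log s! ≤ s log s`. For `p ∈ QS` let `GG_p = {j : ¬ p ∣ WW S (P j)}`: for these `j` `GoodPt S I p (P j)` (`hv_cast` with `B = ZMod p`: `(hv t E P : ZMod p) = P_0^t * aeval (affp p P) E`). `det_dvd` (with `e = S.e`, `r + 1` for `r`,
`F = S.F`; `hJ` from `aeval (affp p P) (J S.F) ≠ 0`) : `p^(N_p) ∣ Δ` for `N_p = g p * GG_p.card - T_p * (g p + (r + 1)).choose (r + 2)` (natural subtraction), `T_p = (GG_p.image ..).card`; `classes` with `g0 = gdeg ..` (`totalDegree_G_le`): `T_p * S.M ≤ δ * p^r * gdeg`, so `T_p ≤ Ts p`. The prime powers are coprime: `∏ p^(N_p) ∣ Δ`,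
`∑ N_p log p ≤ log |Δ|`. `N_p ≥ g p * GG_p.card - Ts p * choose` (real), `GG_p.card = s - #{j : p ∣ WW S (P j)}`; `∑_p g p log p * #{j : p ∣ WW} = ∑_j ∑_(p ∣ WW (P j)) g p log p ≤ s * H` by `hH` (`WW S (P j) ≠ 0` since `P j ∈ PP'`). -/

set_option autoImplicit false

namespace Pool.Agent.H37.NF

open MvPolynomial Pool.H76.NN

variable {σ : Type} [Fintype σ] [DecidableEq σ] {r : ℕ} {S : Sys σ r}
  {I : Ideal (MvPolynomial σ ℚ)} {b0 : ℕ}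

theorem main_ineq (hS : S.Good I b0) {d m : ℕ} {A : ℤ} {B : ℕ} (hz : Sz S d m A B)
    (PPs : Finset (Pt σ)) (h0 : ∀ P ∈ PPs, P.1 ≠ 0) (hV : ∀ P ∈ PPs, OnV I P)
    (hB : ∀ P ∈ PPs, Ht P B) (D : ℕ)
    (hH : ∀ g : MvPolynomial σ ℚ, g.totalDegree ≤ 2 * D → (∀ P ∈ PPs, eval (aff P) g = 0) → g ∈ I)
    (hE : S.E.totalDegree ≤ D) {δ c : ℕ}
    (hδ : ∀ t, hf I t ≤ δ * (t + c + (r + 1)).choose (r + 1))
    (QS : Finset ℕ) (hQ : ∀ p ∈ QS, p.Prime ∧ S.M < p) (g : ℕ → ℕ) (Ts : ℕ → ℝ)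
    (hT : ∀ p ∈ QS, (δ : ℝ) * p ^ r * gdeg (Fintype.card σ) S.M d m p ≤ Ts p * S.M)
    (H : ℝ) (hW : ∀ P ∈ PPs, WW S P ≠ 0 →
      ∑ p ∈ QS.filter (fun p : ℕ => (p : ℤ) ∣ WW S P), (g p : ℝ) * Real.log p ≤ H) :
    ∑ p ∈ QS, Real.log p * ((g p : ℝ) * hf I D - Ts p * ((g p + (r + 1)).choose (r + 2) : ℕ)) ≤
      hf I D * Real.log (hf I D) + hf I D * D * Real.log B + hf I D * H := by
  sorry

end Pool.Agent.H37.NF
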