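import Pool.Agent.H37.NF.SzDefs
import Pool.Agent.H37.NF.L1

/-! MODULE SzA (about 150 lines). Degrees and norms of the iterates `DD^i f_j`.

`eta O y = C O_0 * lf y - C (lval y O)`: total degree `≤ 1`; `l1 ≤ |O_0| * ∑ |y l| + |lval y O| ≤ 2 * A * B` (`|lval y O| ≤ ∑ |y l| * B`). `S.D g = ∑ j : Fin (r+1), eta_j * dj S.F (S.e j) g` (`D_apply`): degree `≤ 1 + (deg g + (n d - 1)) ≤ deg g + n d` (`totalDegree_dj_le`, `n d ≥ 1`; `n = card σ ≥ 1` as `r + 1 ≤ n`), norm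
`≤ (r+1) * 2AB * n! (dA)^n * (deg g * l1 g)` (`l1_dj`) `≤ KD * l1 g` if `deg g ≤ QQ` (`r + 1 ≤ n`). `S.f j = lf (y 0)^a * lf c^b`: degree `≤ a + b ≤ m`, `l1 ≤ A^(a+b) ≤ A^m` (`l1_lf`, `l1_pow`, `l1_mul`, `A ≥ 1`). Induction on `i ≤ M` (`i ≤ M + 1` for the degrees) using
`Function.iterate_succ_apply'`. -/

set_option autoImplicit false

namespace Pool.Agent.H37.NF

open MvPolynomial Pool.H76.NN

variable {σ : Type} [Fintype σ] [DecidableEq σ] {r : ℕ} {S : Sys σ r} {d m : ℕ} {A : ℤ} {B : ℕ}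

theorem l1_eta_le (h : Sz S d m A B) (j : Fin (r + 1)) : l1 (eta S.O (S.y j)) ≤ 2 * A * B := by
  sorry

theorem totalDegree_D_le (h : Sz S d m A B) (g : MvPolynomial σ ℤ) :
    (S.D g).totalDegree ≤ g.totalDegree + Fintype.card σ * d := by
  sorry

theorem l1_D_le (h : Sz S d m A B) (g : MvPolynomial σ ℤ) (hg : g.totalDegree ≤ QQ S d m) :
    l1 (S.D g) ≤ KD S d m A B * l1 g := by
  sorry

theorem totalDegree_iter_le (h : Sz S d m A B) (i : ℕ) (j : Fin (S.M + 1)) :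
    (S.D^[i] (S.f j)).totalDegree ≤ m + i * (Fintype.card σ * d) := by
  sorry

theorem l1_iter_le (h : Sz S d m A B) (i : ℕ) (hi : i ≤ S.M) (j : Fin (S.M + 1)) :
    l1 (S.D^[i] (S.f j)) ≤ A ^ m * KD S d m A B ^ i := by
  sorry

end Pool.Agent.H37.NF
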