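import Pool.Agent.H37.NF.SzA

/-! MODULE SzB (about 120 lines). Degrees and norms of `om`, `E`, `G p`.

`om` = determinant of an `(M+1) × (M+1)` matrix with row `i` of degree `≤ m + i n d ≤ m + (M+1) n d`... precisely `∑_(i ≤ M) (m + i n d) ≤ (M+1) m + (M+1)^2 n d` (`totalDegree_det_le`), norm `≤ (M+1)! * ∏_i (A^m * KD^i) ≤ (M+1)! * (A^m * KD^M)^(M+1)` (`l1_det`, `KD ≥ 1`). `J`: `totalDegree_J_le`, `l1_J`.
`E = J * om * eta1`. `G p`: row `0` has entries `f_j^p` of degree `≤ p m`, row `i + 1` (`i < M`) entries `DD^i f_j` of degree `≤ m + i n d`. -/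

set_option autoImplicit false

namespace Pool.Agent.H37.NF

open MvPolynomial Pool.H76.NN

variable {σ : Type} [Fintype σ] [DecidableEq σ] {r : ℕ} {S : Sys σ r} {d m : ℕ} {A : ℤ} {B : ℕ}

theorem totalDegree_om_le (h : Sz S d m A B) :
    S.om.totalDegree ≤ (S.M + 1) * m + (S.M + 1) ^ 2 * (Fintype.card σ * d) := by
  sorry

theorem totalDegree_E_le (h : Sz S d m A B) :
    S.E.totalDegree ≤ Fintype.card σ * d +
      ((S.M + 1) * m + (S.M + 1) ^ 2 * (Fintype.card σ * d)) + 1 := by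
  sorry

theorem totalDegree_G_le (h : Sz S d m A B) (p : ℕ) :
    (S.G p).totalDegree ≤ gdeg (Fintype.card σ) S.M d m p := by
  sorry

theorem l1_E_le (h : Sz S d m A B) :
    l1 S.E ≤ ((Fintype.card σ).factorial * (d * A) ^ Fintype.card σ) *
      ((S.M + 1).factorial * (A ^ m * KD S d m A B ^ S.M) ^ (S.M + 1)) * (2 * A * B) := by
  sorry

end Pool.Agent.H37.NF
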