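import Pool.Agent.H37.NF.Defs

/-! # Sizes (paper 3.6): definitions. -/

set_option autoImplicit false

namespace Pool.Agent.H37.NF

open MvPolynomial Pool.H76.NN

/-- bounds for the data: degrees `≤ d`, coefficients `≤ A`, height `B`, exponents `≤ m` -/
structure Sz {σ : Type} [Fintype σ] [DecidableEq σ] {r : ℕ} (S : Sys σ r) (d m : ℕ) (A : ℤ)
    (B : ℕ) : Prop where
  d1 : 1 ≤ d
  A1 : 1 ≤ A
  B1 : 1 ≤ B
  m1 : 1 ≤ m
  mM : m ≤ S.M
  degF : ∀ i, (S.F i).totalDegree ≤ d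
  l1F : ∀ i, l1 (S.F i) ≤ A
  y : ∀ j, ∑ l, |S.y j l| ≤ A
  c : ∑ l, |S.c l| ≤ A
  O : Ht S.O B
  ν : ∀ j, (S.ν j).1 + (S.ν j).2 ≤ m
  rn : r + 1 ≤ Fintype.card σ

/-- `Q = m + (M + 1) n d`, a bound for the degrees of the iterates -/
def QQ {σ : Type} [Fintype σ] {r : ℕ} (S : Sys σ r) (d m : ℕ) : ℕ :=
  m + (S.M + 1) * (Fintype.card σ * d)

/-- factor of one application of `DD` to the norm -/
def KD {σ : Type} [Fintype σ] {r : ℕ} (S : Sys σ r) (d m : ℕ) (A : ℤ) (B : ℕ) : ℤ :=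
  2 * Fintype.card σ * A * B * ((Fintype.card σ).factorial * (d * A) ^ Fintype.card σ) *
    (QQ S d m + 1)

/-- degree bound of `G p` -/
def gdeg (n M d m p : ℕ) : ℕ := p * m + (M + 1) * m + (M + 1) ^ 2 * (n * d)

end Pool.Agent.H37.NF
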